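import Pool.Agent.Lib.MP_661727_gt.Shear

namespace Pool.Agent.Lib.MP_661727_gt

lemma exists_retr {G G' : Type} [Group G] [Group G'] (p : G' →* G) (hp : Function.Injective p)
    [p.range.FiniteIndex] : ∃ r : G → G', (∀ y, r (p y) = y) ∧
      (Set.range fun g => g * (p (r g))⁻¹).Finite ∧ ∀ Z : Set G, Z.Finite →
      ∃ S : Set G', S.Finite ∧ ∀ z ∈ Z, ∀ y, r (z * p y) * y⁻¹ ∈ S := by
  classical
  have h3 : ∀ g : G, ∃ y, g * (p y)⁻¹ = (QuotientGroup.mk g : G ⧸ p.range).out := fun g => by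
    obtain ⟨⟨_, y, rfl⟩, h⟩ := QuotientGroup.mk_out_eq_mul p.range g
    exact ⟨y⁻¹, by simp [h]⟩
  choose r hr using h3
  let r' : G → G' := fun g => if h : g ∈ p.range then h.choose else r g
  have h1 : (Set.range fun g => g * (p (r' g))⁻¹).Finite := by
    refine ((Set.finite_range fun q : G ⧸ p.range => q.out).insert 1).subset ?_
    rintro _ ⟨l, rfl⟩
    by_cases h : l ∈ p.range
    · exact Or.inl (by simp only [r', dif_pos h, h.choose_spec, mul_inv_cancel])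
    · exact Or.inr ⟨_, by simp only [r', dif_neg h, hr]; rfl⟩
  refine ⟨r', fun y => hp ?_, h1, fun Z hZ =>
    ⟨_, (h1.image2 (fun t z => t⁻¹ * z) hZ).preimage hp.injOn, fun z hz y =>
      ⟨_, ⟨z * p y, rfl⟩, z, hz, ?_⟩⟩⟩
  · have h : p y ∈ p.range := ⟨y, rfl⟩
    simp only [r', dif_pos h, h.choose_spec]
  · simp [mul_assoc]

lemma exists_Φ {X G' G I : Type} {Ω : Type} (D : Ω × X × G' → G × I) (hD : Function.Bijective D)
    (c : ℕ ≃ I × ℕ) : ∃ Φ : Ω × X × (G' × ℕ) ≃ G × ℕ,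
      ∀ ω k y n, Φ (ω, k, y, n) = ((D (ω, k, y)).1, c.symm ((D (ω, k, y)).2, n)) := by
  let e := Equiv.ofBijective D hD
  exact ⟨⟨fun z => ((e (z.1, z.2.1, z.2.2.1)).1, c.symm ((e (z.1, z.2.1, z.2.2.1)).2, z.2.2.2)),
    fun x => ((e.symm (x.1, (c x.2).1)).1, (e.symm (x.1, (c x.2).1)).2.1,
      (e.symm (x.1, (c x.2).1)).2.2, (c x.2).2), fun z => by simp, fun x => by simp⟩,
    fun _ _ _ _ => rfl⟩

theorem cover {V E : Type} [Finite V] [Finite E] {src tgt : E → V} (u : V) {G G' : V → Type}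
    [∀ v, Group (G v)] [∀ v, Group (G' v)] [∀ v, Countable (G v)] [∀ v, Countable (G' v)]
    {W W' : E → Type} [∀ e, Group (W e)] [∀ e, Group (W' e)]
    (ι0 : ∀ e, W e →* G (src e)) (ι1 : ∀ e, W e →* G (tgt e))
    (p : ∀ v, G' v →* G v) (hp : ∀ v, Function.Injective (p v)) [∀ v, (p v).range.FiniteIndex]
    (q : ∀ e, W' e →* W e) {I : V → Type} [∀ v, Finite (I v)] (pt : ∀ v, I v)
    {K Ω : E → Type} [∀ e, Finite (K e)] [∀ e, Finite (Ω e)] [∀ e, Nonempty (Ω e)]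
    (s : ∀ e, Ω e → W e) (hs : ∀ e w ω, ∃ ω' w', w * s e ω = s e ω' * q e w')
    (κ0 : ∀ e, K e → G (src e)) (κ1 : ∀ e, K e → G (tgt e))
    (i0 : ∀ e, K e → I (src e)) (i1 : ∀ e, K e → I (tgt e))
    (j0 : ∀ e, K e → W' e →* G' (src e)) (j1 : ∀ e, K e → W' e →* G' (tgt e))
    (hj0 : ∀ e k, Function.Injective (j0 e k)) (hj1 : ∀ e k, Function.Injective (j1 e k))
    (a0 : ∀ e k w, ι0 e (q e w) * κ0 e k = κ0 e k * p _ (j0 e k w))
    (a1 : ∀ e k w, ι1 e (q e w) * κ1 e k = κ1 e k * p _ (j1 e k w))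
    (b0 : ∀ e, Function.Bijective fun x : Ω e × K e × G' (src e) =>
      (ι0 e (s e x.1) * κ0 e x.2.1 * p _ x.2.2, i0 e x.2.1))
    (b1 : ∀ e, Function.Bijective fun x : Ω e × K e × G' (tgt e) =>
      (ι1 e (s e x.1) * κ1 e x.2.1 * p _ x.2.2, i1 e x.2.1)) :
    CE (pi1 src tgt (fun e => Set.range fun w => (ι0 e w, ι1 e w)) u)
      (pi1 (V := Σ v, I v) (E := Σ e, K e) (G := fun x => G' x.1) (fun e => ⟨src e.1, i0 e.1 e.2⟩)
        (fun e => ⟨tgt e.1, i1 e.1 e.2⟩)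
        (fun e => Set.range fun w => (j0 e.1 e.2 w, j1 e.1 e.2 w)) ⟨u, pt u⟩) := by
  classical
  choose r r1 r2 r3 using fun v => exists_retr (p v) (hp v)
  have hc : ∀ v, ∃ c : ℕ ≃ I v × ℕ, c.symm (pt v, 0) = 0 := fun v => by
    have : Nonempty (I v) := ⟨pt v⟩
    obtain ⟨c⟩ : Nonempty (ℕ ≃ I v × ℕ) := nonempty_equiv_of_countable
    exact ⟨c.trans (Equiv.swap (c 0) (pt v, 0)), by simp⟩
  choose c hc using hc
  choose Φ0 f0 using fun e => exists_Φ _ (b0 e) (c _)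
  choose Φ1 f1 using fun e => exists_Φ _ (b1 e) (c _)
  simp only at f0 f1
  choose T' hT' using fun (e : E) (k : K e) => exists_T (j0 e k) (j1 e k) (hj0 e k) (hj1 e k)
  let T : ∀ e, G (src e) × ℕ ≃ G (tgt e) × ℕ := fun e => (Φ0 e).symm.trans
    (((Equiv.refl _).prodCongr (Equiv.prodCongrRight (T' e))).trans (Φ1 e))
  have t1 : ∀ e ω k y n, T e (Φ0 e (ω, k, y, n)) = Φ1 e (ω, k, T' e k (y, n)) := by
    intro e ω k y n; simp [T]
  have m0 : ∀ e w ω k y n ω' w', w * s e ω = s e ω' * q e w' →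
      (ι0 e w * (Φ0 e (ω, k, y, n)).1, (Φ0 e (ω, k, y, n)).2) = Φ0 e (ω', k, j0 e k w' * y, n) := by
    intro e w ω k y n ω' w' h
    simp only [f0, map_mul, ← mul_assoc, Prod.mk.injEq, and_true]
    rw [← map_mul, h, map_mul, mul_assoc _ _ (κ0 e k), a0, ← mul_assoc]
  have m1 : ∀ e w ω k y n ω' w', w * s e ω = s e ω' * q e w' →
      (ι1 e w * (Φ1 e (ω, k, y, n)).1, (Φ1 e (ω, k, y, n)).2) = Φ1 e (ω', k, j1 e k w' * y, n) := by
    intro e w ω k y n ω' w' h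
    simp only [f1, map_mul, ← mul_assoc, Prod.mk.injEq, and_true]
    rw [← map_mul, h, map_mul, mul_assoc _ _ (κ1 e k), a1, ← mul_assoc]
  have par : ∀ e g n, ∃ ω k y n', g = (Φ0 e (ω, k, y, n')).1 ∧ n = (Φ0 e (ω, k, y, n')).2 :=
    fun e g n => ⟨((Φ0 e).symm (g, n)).1, ((Φ0 e).symm (g, n)).2.1, ((Φ0 e).symm (g, n)).2.2.1,
      ((Φ0 e).symm (g, n)).2.2.2, by simp, by simp⟩
  have hT : ∀ e w g n, T e (ι0 e w * g, n) = (ι1 e w * (T e (g, n)).1, (T e (g, n)).2) := by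
    intro e w g n
    obtain ⟨ω, k, y, n', rfl, rfl⟩ := par e g n
    obtain ⟨ω', w', h⟩ := hs e w ω
    rw [m0 _ _ _ _ _ _ _ _ h, t1, t1, hT']
    exact (m1 _ _ _ _ _ _ _ _ h).symm
  have t2 : ∀ e k y n, T e (κ0 e k * p _ y, (c _).symm (i0 e k, n)) =
      (κ1 e k * p _ (T' e k (y, n)).1, (c _).symm (i1 e k, (T' e k (y, n)).2)) := by
    intro e k y n
    obtain ⟨ω⟩ : Nonempty (Ω e) := inferInstance
    have h := hT e (s e ω)⁻¹ (Φ0 e (ω, k, y, n)).1 (Φ0 e (ω, k, y, n)).2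
    rw [t1, show T' e k (y, n) = ((T' e k (y, n)).1, (T' e k (y, n)).2) from rfl, f1, f0] at h
    simpa [mul_assoc] using h
  let A : Sys src tgt G (fun e => Set.range fun w => (ι0 e w, ι1 e w)) :=
    ⟨fun v => nonempty_equiv_of_countable.some, T, by rintro e _ ⟨w, rfl⟩; exact hT e w⟩
  let B : Sys (V := Σ v, I v) (E := Σ e, K e) (fun e => ⟨src e.1, i0 e.1 e.2⟩)
      (fun e => ⟨tgt e.1, i1 e.1 e.2⟩) (fun x => G' x.1)
      (fun e => Set.range fun w => (j0 e.1 e.2 w, j1 e.1 e.2 w)) :=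
    ⟨fun v => nonempty_equiv_of_countable.some, fun e => T' e.1 e.2, by
      rintro e _ ⟨w, rfl⟩; exact hT' e.1 e.2 w⟩
  let mv : ∀ v, G v × ℕ → Σ x : Σ v, I v, G' x.1 × ℕ := fun v x =>
    ⟨⟨v, (c v x.2).1⟩, r v x.1, (c v x.2).2⟩
  have k1 : ∀ v g i n, mv v (g, (c v).symm (i, n)) = ⟨⟨v, i⟩, r v g, n⟩ := fun v g i n => by
    simp only [mv]; rw [Equiv.apply_symm_apply]
  let me : ∀ e, G (src e) × ℕ → Σ x : Σ e, K e, G' (src x.1) × ℕ := fun e x =>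
    ⟨⟨e, ((Φ0 e).symm x).2.1⟩, ((Φ0 e).symm x).2.2⟩
  have k2 : ∀ e z, me e (Φ0 e z) = ⟨⟨e, z.2.1⟩, z.2.2⟩ := fun e z => by
    simp only [me]; rw [Equiv.symm_apply_apply]
  let M : Mor A B u ⟨u, pt u⟩ :=
    { m := mv
      m0 := me
      ha := fun v a => by
        obtain ⟨S, s1, s2⟩ := r3 v _ ((r2 v).image (a * ·))
        refine ⟨_, Set.finite_iUnion fun i : I v => s1.image (vx _ _ _ (v := ⟨v, i⟩)),
          fun g n => ⟨_, _, _, r v (a * g) * (r v g)⁻¹, rfl, by simp [mv],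
            Set.mem_iUnion.2 ⟨_, _, ?_, rfl⟩⟩⟩
        simpa [mul_assoc] using s2 _ ⟨_, ⟨g, rfl⟩, rfl⟩ (r v g)
      hb := fun e => by
        obtain ⟨S, s1, s2⟩ := r3 _ _ (Set.finite_range fun x : Ω e × K e => ι0 e (s e x.1) * κ0 e x.2)
        obtain ⟨S', s1', s2'⟩ := r3 _ _
          (Set.finite_range fun x : Ω e × K e => ι1 e (s e x.1) * κ1 e x.2)
        refine ⟨_, (Set.finite_iUnion fun i : I _ => s1.inv.image (vx _ _ _ (v := ⟨_, i⟩))).union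
          (Set.finite_iUnion fun i : I _ => s1'.image (vx _ _ _ (v := ⟨_, i⟩))), fun x => ?_⟩
        obtain ⟨⟨ω, k, y, n⟩, rfl⟩ := (Φ0 e).surjective x
        refine ⟨⟨e, k⟩, r _ (ι0 e (s e ω) * κ0 e k * p _ y), n,
          (r _ (ι0 e (s e ω) * κ0 e k * p _ y) * y⁻¹)⁻¹,
          r _ (ι1 e (s e ω) * κ1 e k * p _ (T' e k (y, n)).1) * (T' e k (y, n)).1⁻¹, by rw [k2]; simp,
          by rw [f0, k1], ?_, Or.inl (Set.mem_iUnion.2 ⟨_, _, ?_, rfl⟩),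
          Or.inr (Set.mem_iUnion.2 ⟨_, _, s2' _ ⟨(ω, k), rfl⟩ _, rfl⟩)⟩
        · simp only [A, B]
          rw [t1, show T' e k (y, n) = ((T' e k (y, n)).1, (T' e k (y, n)).2) from rfl, f1, k1]
          simp
        · simpa using s2 _ ⟨(ω, k), rfl⟩ y
      hd := by
        rintro e _ ⟨w, rfl⟩ g n
        obtain ⟨ω, k, y, n', rfl, rfl⟩ := par e g n
        obtain ⟨ω', w', h⟩ := hs e w ω
        exact ⟨⟨e, k⟩, y, n', _, ⟨w', rfl⟩, k2 e _, by rw [m0 _ _ _ _ _ _ _ _ h, k2]⟩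
      norm := by
        have h1 := k1 u (p u 1) (pt u) 0
        rwa [r1, map_one, hc] at h1 }
  let M' : Mor B A ⟨u, pt u⟩ u :=
    { m := fun v x => ⟨v.1, p _ x.1, (c _).symm (v.2, x.2)⟩
      m0 := fun e x => ⟨e.1, κ0 e.1 e.2 * p _ x.1, (c _).symm (i0 e.1 e.2, x.2)⟩
      ha := fun v a => ⟨{_}, Set.finite_singleton _, fun g n =>
        ⟨_, _, _, p _ a, rfl, by rw [map_mul], rfl⟩⟩
      hb := fun e => ⟨{_, _}, Set.toFinite _, fun x => ⟨e.1, p _ x.1, _, κ0 e.1 e.2, (κ1 e.1 e.2)⁻¹,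
        rfl, rfl, by simp only [A, B, t2]; simp, Or.inl rfl, Or.inr rfl⟩⟩
      hd := by
        rintro e _ ⟨w, rfl⟩ g n
        exact ⟨e.1, _, _, _, ⟨q _ w, rfl⟩, rfl, by simp only [map_mul, ← mul_assoc, a0]⟩
      norm := by simp only [map_one, hc] }
  refine M.ce M' ?_ ?_ ⟨_, (r2 u).inv.image (vx _ _ _), ?_⟩ ⟨{1}, Set.finite_singleton _, ?_⟩
  · intro e g n e' y h
    obtain ⟨ω, k, y, n', rfl, rfl⟩ := par e g n
    cases (k2 e (ω, k, y, n')).symm.trans h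
    exact ⟨_, ⟨(s e ω)⁻¹, rfl⟩, by simp [M', f0, mul_assoc]⟩
  · intro e g n e' y h
    cases h
    obtain ⟨ω⟩ : Nonempty (Ω e.1) := inferInstance
    obtain ⟨ω', w', h⟩ := hs e.1 (s _ ω)⁻¹ ω
    have := m0 _ _ _ e.2 g n _ _ h
    rw [f0] at this
    simp only [map_inv, mul_assoc, inv_mul_cancel_left] at this
    exact ⟨_, ⟨w', rfl⟩, (congrArg (me e.1) this).trans (k2 _ _)⟩
  · intro g n v' y h
    cases h
    exact ⟨(g * (p _ (r u g))⁻¹)⁻¹, by simp [M'], ⟨_, by simp, rfl⟩⟩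
  · intro g n v' y h
    cases h
    exact ⟨1, (k1 _ _ _ _).trans (by rw [r1, one_mul]), vx_one⟩

end Pool.Agent.Lib.MP_661727_gt
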