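import Pool.Agent.Lib.MP_661727_gt.FG

namespace Pool.Agent.Lib.MP_661727_gt

open Multiplicative

lemma dec {G G' W W' X : Type} [Group G] [Group G'] [Group W] [Group W'] (p : G' →* G)
    (hp : Function.Injective p) (hn : p.range.Normal) (ι : W →* G) (q : W' →* W)
    (h : ∀ w, ι w ∈ p.range ↔ w ∈ q.range) (κ : X → G)
    (ex : ∀ g, ∃ x w y, g = ι w * κ x * p y) (un : ∀ x x' w y, κ x' = ι w * κ x * p y → x = x') :
    Function.Bijective (fun z : (W ⧸ q.range) × X × G' => ι z.1.out * κ z.2.1 * p z.2.2) ∧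
      Nat.card (W ⧸ q.range) * Nat.card X = p.range.index := by
  have h1 : Function.Bijective
      (fun z : (W ⧸ q.range) × X × G' => ι z.1.out * κ z.2.1 * p z.2.2) := by
    constructor
    · rintro ⟨ω, x, y⟩ ⟨ω', x', y'⟩ (e : ι ω.out * κ x * p y = ι ω'.out * κ x' * p y')
      obtain rfl : x = x' := un x x' (ω'.out⁻¹ * ω.out) (y * y'⁻¹) (by
        simp only [map_mul, map_inv, ← mul_assoc]
        rw [mul_assoc _ (ι ω.out), mul_assoc (ι ω'.out)⁻¹, e]; group)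
      obtain rfl : ω = ω' := by
        rw [← ω.out_eq, ← ω'.out_eq]
        refine QuotientGroup.eq.2 ((h _).1 ?_)
        have : ι (ω.out⁻¹ * ω'.out) = κ x * p (y * y'⁻¹) * (κ x)⁻¹ := by
          simp only [map_mul, map_inv]
          rw [inv_mul_eq_iff_eq_mul, ← mul_assoc, ← mul_assoc, ← mul_assoc, e]; group
        rw [this]
        exact hn.conj_mem _ ⟨_, rfl⟩ _
      obtain rfl : y = y' := hp (mul_left_cancel e)
      rfl
    · intro g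
      obtain ⟨x, w, y, rfl⟩ := ex g
      obtain ⟨a, ha⟩ := QuotientGroup.mk_out_eq_mul q.range w
      obtain ⟨z, hz⟩ := hn.conj_mem' _ ((h _).2 (inv_mem a.2)) (κ x)
      refine ⟨(QuotientGroup.mk w, x, z * y), ?_⟩
      simp only [ha, map_mul, hz, map_inv]; group
  refine ⟨h1, ?_⟩
  rw [← Nat.card_prod]
  refine Nat.card_congr (Equiv.ofBijective (fun z => QuotientGroup.mk (ι z.1.out * κ z.2)) ⟨?_, ?_⟩)
  · rintro ⟨ω, x⟩ ⟨ω', x'⟩ e
    obtain ⟨y, hy⟩ := QuotientGroup.eq.1 e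
    have := h1.1 (a₁ := (ω, x, y)) (a₂ := (ω', x', 1)) (by simp only [hy, map_one]; group)
    simp only [Prod.mk.injEq] at this ⊢
    exact ⟨this.1, this.2.1⟩
  · intro g
    obtain ⟨g, rfl⟩ := QuotientGroup.mk_surjective g
    obtain ⟨⟨ω, x, y⟩, rfl⟩ := h1.2 g
    exact ⟨(ω, x), QuotientGroup.eq.2 ⟨y, by simp only; group⟩⟩

lemma bij_β {Ω K X I G G' : Type} {D : Ω × X × G' → G} (hD : Function.Bijective D) (β : K ≃ X × I) :
    Function.Bijective fun z : Ω × K × G' => (D (z.1, (β z.2.1).1, z.2.2), (β z.2.1).2) := by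
  constructor
  · rintro ⟨ω, k, y⟩ ⟨ω', k', y'⟩ e
    obtain ⟨e1, e2⟩ := Prod.mk.inj e
    have := hD.1 e1
    simp only [Prod.mk.injEq] at this ⊢
    exact ⟨this.1, β.injective (Prod.ext this.2.1 e2), this.2.2⟩
  · rintro ⟨g, i⟩
    obtain ⟨⟨ω, x, y⟩, rfl⟩ := hD.2 g
    exact ⟨(ω, β.symm (x, i), y), by simp⟩

lemma balance {V E : Type} [Finite V] {src tgt : E → V} {u : V}
    (conn : ∀ v, Relation.EqvGen (fun x y => ∃ e, src e = x ∧ tgt e = y) u v)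
    (X0 X1 : E → Type) [∀ e, Nonempty (X0 e)] [∀ e, Nonempty (X1 e)] [∀ e, Finite (X0 e)]
    [∀ e, Finite (X1 e)] (N : V → ℕ) (hN : ∀ v, N v ≠ 0) (a : E → ℕ)
    (h0 : ∀ e, a e * Nat.card (X0 e) = N (src e)) (h1 : ∀ e, a e * Nat.card (X1 e) = N (tgt e)) :
    ∃ (I : V → Type) (_ : ∀ v, Finite (I v)) (pt : ∀ v, I v)
      (β : ∀ e, X0 e × I (src e) ≃ X1 e × I (tgt e)), ∀ x : Σ v, I v,
      Relation.EqvGen (fun x y => ∃ e : Σ e, X0 e × I (src e),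
        (⟨src e.1, e.2.2⟩ : Σ v, I v) = x ∧ (⟨tgt e.1, (β e.1 e.2).2⟩ : Σ v, I v) = y) ⟨u, pt u⟩ x := by
  have := Fintype.ofFinite V
  choose M hM using fun v => Finset.dvd_prod_of_mem N (Finset.mem_univ v)
  have hD : ∏ v, N v ≠ 0 := Finset.prod_ne_zero_iff.2 fun v _ => hN v
  have hβ : ∀ e, Nonempty (X0 e × Fin (M (src e)) ≃ X1 e × Fin (M (tgt e))) := fun e => by
    refine Finite.card_eq.1 (Nat.eq_of_mul_eq_mul_left (Nat.pos_of_ne_zero (n := a e) fun h => ?_) ?_)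
    · exact hN _ (by rw [← h0 e, h, zero_mul])
    · simp only [Nat.card_prod, Nat.card_eq_fintype_card (α := Fin _), Fintype.card_fin, ← mul_assoc,
        h0, h1, ← hM]
  obtain ⟨β⟩ := Classical.nonempty_pi.2 hβ
  let x0 : Σ v, Fin (M v) := ⟨u, 0, Nat.pos_of_ne_zero fun h => hD (by rw [hM u, h, mul_zero])⟩
  let r : (Σ v, Fin (M v)) → (Σ v, Fin (M v)) → Prop := fun x y =>
    ∃ e k, (⟨src e, k.2⟩ : Σ v, Fin (M v)) = x ∧ (⟨tgt e, (β e k).2⟩ : Σ v, Fin (M v)) = y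
  let U := Relation.EqvGen r x0
  have st : ∀ e k, U ⟨src e, k.2⟩ ↔ U ⟨tgt e, (β e k).2⟩ := fun e k =>
    ⟨fun h => h.trans _ _ _ (.rel _ _ ⟨e, k, rfl, rfl⟩),
      fun h => h.trans _ _ _ (.symm _ _ (.rel _ _ ⟨e, k, rfl, rfl⟩))⟩
  have ne : ∀ v w, Relation.EqvGen (fun x y => ∃ e, src e = x ∧ tgt e = y) v w →
      ((∃ i, U ⟨v, i⟩) ↔ ∃ i, U ⟨w, i⟩) := by
    intro v w h
    induction h with
    | rel x y h =>
      obtain ⟨e, rfl, rfl⟩ := h
      refine ⟨fun ⟨i, hi⟩ => ⟨_, (st e (Classical.arbitrary _, i)).1 hi⟩, fun ⟨i, hi⟩ =>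
        ⟨_, (st e ((β e).symm (Classical.arbitrary _, i))).2 (by simpa using hi)⟩⟩
    | refl => rfl
    | symm _ _ _ ih => exact ih.symm
    | trans _ _ _ _ _ ih ih' => exact ih.trans ih'
  choose pt hpt using fun v => (ne u v (conn v)).1 ⟨_, Relation.EqvGen.refl x0⟩
  let β' : ∀ e, X0 e × {i // U ⟨src e, i⟩} ≃ X1 e × {i // U ⟨tgt e, i⟩} := fun e =>
    ⟨fun z => ((β e (z.1, z.2.1)).1, ⟨(β e (z.1, z.2.1)).2, (st e (z.1, z.2.1)).1 z.2.2⟩),
      fun z => (((β e).symm (z.1, z.2.1)).1, ⟨((β e).symm (z.1, z.2.1)).2,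
        (st e _).2 (by simpa using z.2.2)⟩), fun z => by simp, fun z => by simp⟩
  refine ⟨fun v => {i // U ⟨v, i⟩}, inferInstance, fun v => ⟨pt v, hpt v⟩, β', fun x => ?_⟩
  have key : ∀ x y, Relation.EqvGen r x y → ∀ (hx : U x) (hy : U y),
      Relation.EqvGen (fun x y => ∃ e : Σ e, X0 e × {i // U ⟨src e, i⟩},
        (⟨src e.1, e.2.2⟩ : Σ v, {i // U ⟨v, i⟩}) = x ∧
        (⟨tgt e.1, (β' e.1 e.2).2⟩ : Σ v, {i // U ⟨v, i⟩}) = y) ⟨x.1, x.2, hx⟩ ⟨y.1, y.2, hy⟩ := by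
    intro x y h
    induction h with
    | rel x y h =>
      obtain ⟨e, k, rfl, rfl⟩ := h
      exact fun hx hy => .rel _ _ ⟨⟨e, k.1, k.2, hx⟩, rfl, rfl⟩
    | refl => exact fun _ _ => .refl _
    | symm _ _ _ ih => exact fun hx hy => .symm _ _ (ih hy hx)
    | trans x y z h _ ih ih' =>
      exact fun hx hz => .trans _ _ _ (ih hx (hx.trans _ _ _ h)) (ih' (hx.trans _ _ _ h) hz)
  exact key ⟨u, pt u⟩ ⟨x.1, x.2.1⟩ (((hpt u).symm _ _).trans _ _ _ x.2.2) _ _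

namespace Cusped

variable {d : ℕ} (L : Cusped d)

lemma ρ_inv (g : L.G) (x y : Mink d) : lor (L.ρ g x) y = lor x (L.ρ g⁻¹ y) := by
  rw [← L.isom g x]; simp

lemma ball (g : L.G) (b x : Mink d) (h : x ∈ horoball b) : L.ρ g x ∈ horoball (L.ρ g b) :=
  ⟨L.sheet _ _ h.1, by rw [L.isom]; exact h.2⟩

/-- double cosets at a cusp -/
abbrev DC (H : Subgroup L.G) (c : L.C) := DoubleCoset.Quotient ((L.α c).range : Set L.G) H

lemma DC_fin (H : Subgroup L.G) [H.FiniteIndex] (c : L.C) : Finite (L.DC H c) :=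
  Finite.of_surjective (fun q : L.G ⧸ H => DoubleCoset.mk (L.α c).range H q.out) fun x => by
    obtain ⟨a, ha⟩ := QuotientGroup.mk_out_eq_mul H x.out
    refine ⟨QuotientGroup.mk x.out, Eq.trans (Eq.symm ?_) (DoubleCoset.out_eq' _ _ x)⟩
    exact (DoubleCoset.eq _ _ _ _).2 ⟨1, one_mem _, a, a.2, by rw [ha, one_mul]⟩

/-- a finite regular cover -/
noncomputable def cover (H : Subgroup L.G) (hn : H.Normal) [H.FiniteIndex]
    (θ : L.C → Zk (d - 1) →+ Zk (d - 1)) (hθ : ∀ c, Function.Injective (θ c))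
    (h : ∀ c x, L.α c (ofAdd x) ∈ H ↔ x ∈ (θ c).range) : Cusped d where
  G := H
  ρ := L.ρ.comp H.subtype
  isom g := L.isom g
  sheet g := L.sheet g
  free g x hx e := Subtype.ext (L.free g x hx e)
  proper R := (L.proper R).preimage Subtype.val_injective.injOn
  C := Σ c, L.DC H c
  fin := have := L.fin; have := L.DC_fin H; inferInstance
  ne := ⟨⟨L.ne.some, default⟩⟩
  b c := L.ρ c.2.out⁻¹ (L.b c.1)
  light c := L.old.B_light ⟨_, ⟨c.2.out⁻¹, rfl⟩, c.1, rfl⟩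
  disj := by
    rintro g ⟨c, x⟩ ⟨c', x'⟩ ⟨z, h1, h2⟩
    obtain ⟨rfl, e⟩ := L.disj (x'.out * g * x.out⁻¹) c c' ⟨L.ρ x'.out z,
      by simpa using L.ball x'.out _ _ h1, by simpa using L.ball x'.out _ _ h2⟩
    obtain rfl : x = x' := by
      rw [← DoubleCoset.out_eq' _ _ x, ← DoubleCoset.out_eq' _ _ x']
      exact (DoubleCoset.eq _ _ _ _).2 ⟨_, (L.α_range c _).2 e, g⁻¹, inv_mem g.2, by group⟩
    refine ⟨rfl, (L.ρ x.out).injective ?_⟩
    simpa using e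
  cocompact := by
    obtain ⟨R, hR⟩ := L.cocompact
    obtain ⟨M, hM⟩ := (Set.finite_range fun q : L.G ⧸ H => (L.ρ q.out (oo d)).1).bddAbove
    refine ⟨2 * M * R, fun x hx h' => ?_⟩
    obtain ⟨g, hg⟩ := hR x hx fun g c => by
      obtain ⟨a, k, ha, hk, e⟩ := DoubleCoset.mk_out_eq_mul (L.α c).range H g⁻¹
      have := h' ⟨k, hk⟩ ⟨c, DoubleCoset.mk _ _ g⁻¹⟩
      have e' := (L.α_range c _).1 (inv_mem ha)
      rw [← e']
      simpa [e] using this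
    obtain ⟨a, ha⟩ := QuotientGroup.mk_out_eq_mul H g
    have h1 := hM ⟨QuotientGroup.mk g, rfl⟩
    have h2 := L.sheet g x hx
    have h3 := L.sheet (QuotientGroup.mk g : L.G ⧸ H).out _ oo_mem
    have h4 := lor_nonpos (x := ((L.ρ (QuotientGroup.mk g : L.G ⧸ H).out (oo d)).1,
      - (L.ρ (QuotientGroup.mk g : L.G ⧸ H).out (oo d)).2)) ⟨by
        simpa [lor] using (fut_of_hyp h3).1, h3.2⟩ (fut_of_hyp h2)
    have h5 := L.ρ_inv (QuotientGroup.mk g : L.G ⧸ H).out (oo d) (L.ρ g x)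
    have h6 : L.ρ (QuotientGroup.mk g : L.G ⧸ H).out⁻¹ (L.ρ g x) = L.ρ (a : L.G)⁻¹ x := by
      rw [ha]; simp
    have h7 := mul_le_mul h1 hg h2.2.le (h3.2.le.trans h1)
    rw [h6, lor_oo] at h5
    refine ⟨a⁻¹, show (L.ρ (a : L.G)⁻¹ x).1 ≤ _ from ?_⟩
    simp only [lor, neg_dotProduct] at h4 h5
    linarith
  α c := (((MulAut.conj c.2.out⁻¹).toMonoidHom.comp (L.α c.1)).comp
    (AddMonoidHom.toMultiplicative (θ c.1))).codRestrict H fun x =>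
      hn.conj_mem _ ((h _ _).2 ⟨_, rfl⟩) _
  α_inj c := fun a b e => toAdd.injective (hθ _ (ofAdd.injective (L.α_inj _
    ((MulAut.conj c.2.out⁻¹).injective (congrArg Subtype.val e)))))
  α_range := by
    rintro ⟨c, x⟩ g
    have : L.ρ g (L.ρ x.out⁻¹ (L.b c)) = L.ρ x.out⁻¹ (L.b c) ↔
        x.out * g * x.out⁻¹ ∈ (L.α c).range := by
      rw [L.α_range, ← (L.ρ x.out).injective.eq_iff]; simp
    refine Iff.trans ⟨?_, ?_⟩ this.symm
    · rintro ⟨y, rfl⟩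
      exact ⟨ofAdd (θ c y.toAdd), by simp [mul_assoc]⟩
    · rintro ⟨y, e⟩
      obtain ⟨z, hz⟩ := (h c y.toAdd).1 (by rw [ofAdd_toAdd, e]; exact hn.conj_mem _ g.2 _)
      exact ⟨ofAdd z, Subtype.ext (by simp [hz, e, mul_assoc])⟩
  transl := by
    rintro ⟨c, x⟩ y v hv
    obtain ⟨t, ht⟩ := L.transl c (ofAdd (θ c y.toAdd)) (L.ρ x.out v) (by rwa [L.ρ_inv])
    refine ⟨t, ?_⟩
    have := congrArg (L.ρ x.out⁻¹) ht
    rw [L.ρ_add, L.ρ_smul] at this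
    simpa using this

end Cusped

end Pool.Agent.Lib.MP_661727_gt
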