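import Mathlib

namespace Pool.Agent.Lib.MP_661727_gt

lemma exists_compl {W U : Type} [AddCommGroup W] [Module.Finite ℤ W] [AddCommGroup U] (φ : U →+ W) :
    ∃ (C : Type) (_ : AddCommGroup C) (_ : Module.Free ℤ C) (_ : Module.Finite ℤ C) (γ : C →+ W)
      (π : W →+ C), (∀ x, π (γ x) = x) ∧ (∀ u, π (φ u) = 0) ∧
      ∀ w, ∃ N : ℤ, N ≠ 0 ∧ ∃ u, N • w = φ u + γ (N • π w) := by
  let S := LinearMap.range φ.toIntLinearMap
  let π := (Submodule.torsion ℤ (W ⧸ S)).mkQ.comp S.mkQ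
  obtain ⟨γ, hγ⟩ := Module.projective_lifting_property π LinearMap.id
    ((Submodule.mkQ_surjective _).comp S.mkQ_surjective)
  have h1 : ∀ x, π (γ x) = x := fun x => LinearMap.congr_fun hγ x
  refine ⟨_, inferInstance, inferInstance, inferInstance, γ.toAddMonoidHom, π.toAddMonoidHom, h1,
    fun u => ?_, fun w => ?_⟩
  · have : S.mkQ (φ u) = 0 := (Submodule.Quotient.mk_eq_zero _).2 ⟨u, rfl⟩
    exact (congrArg (Submodule.torsion ℤ (W ⧸ S)).mkQ this).trans (map_zero _)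
  · have : π (w - γ (π w)) = 0 := by rw [map_sub, h1, sub_self]
    obtain ⟨N, hN⟩ := (Submodule.Quotient.mk_eq_zero _).1 this
    obtain ⟨u, hu⟩ := (Submodule.Quotient.mk_eq_zero S).1
      (show S.mkQ ((N : ℤ) • (w - γ (π w))) = 0 by rw [map_smul]; exact hN)
    refine ⟨N, nonZeroDivisors.coe_ne_zero N, u, ?_⟩
    have hu' : φ u = (N : ℤ) • (w - γ (π w)) := hu
    rw [hu', map_zsmul, smul_sub]
    exact (sub_add_cancel _ _).symm

lemma side {H X : Type} [AddCommGroup H] [AddCommGroup X] [Module.Free ℤ H] [Module.Finite ℤ H]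
    [Module.Free ℤ X] [Module.Finite ℤ X] (a : X →+ H) (ha : Function.Injective a)
    (hN : ∀ h, ∃ N : ℤ, N ≠ 0 ∧ ∃ x, a x = N • h) : Nonempty (H ≃+ X) := by
  have h1 : Finite (H ⧸ LinearMap.range a.toIntLinearMap) := by
    refine Module.finite_of_fg_torsion _ fun x => ?_
    obtain ⟨h, rfl⟩ := Submodule.mkQ_surjective _ x
    obtain ⟨N, h1, h2⟩ := hN h
    exact ⟨⟨N, mem_nonZeroDivisors_of_ne_zero h1⟩, by
      rw [Submonoid.smul_def, ← map_smul]; exact (Submodule.Quotient.mk_eq_zero _).2 h2⟩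
  rw [Submodule.finiteQuotient_iff, LinearMap.finrank_range_of_inj ha] at h1
  exact ⟨(LinearEquiv.ofFinrankEq _ _ h1.symm).toAddEquiv⟩

lemma unimod {H0 F0 H1 F1 : Type} [AddCommGroup H0] [AddCommGroup F0] [AddCommGroup H1]
    [AddCommGroup F1] [Module.Free ℤ H0] [Module.Finite ℤ H0] [Module.Free ℤ F0] [Module.Finite ℤ F0]
    [Module.Free ℤ H1] [Module.Finite ℤ H1] [Module.Free ℤ F1] [Module.Finite ℤ F1]
    (ψ : H0 × F0 ≃+ H1 × F1) (irr : ∀ f, (ψ (0, f)).1 = 0 → f = 0) :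
    ∃ (η0 : H0 →+ H0) (η1 : H1 →+ H1) (ψ1 : H0 × F0 ≃+ H1 × F1), Function.Injective η0 ∧
      Function.Injective η1 ∧ (∀ w, ψ (η0 w.1, w.2) = (η1 (ψ1 w).1, (ψ1 w).2)) ∧
      (∃ (b : F0 →+ H1) (r : H1 →+ F0), (∀ x, r (b x) = x) ∧ ∀ f, b f = (ψ1 (0, f)).1) ∧
      ∃ (b : F1 →+ H0) (r : H0 →+ F1), (∀ x, r (b x) = x) ∧ ∀ f, b f = (ψ1.symm (0, f)).1 := by
  have irr' : ∀ f, (ψ.symm (0, f)).1 = 0 → f = 0 := fun f h => by
    have e : ψ (0, (ψ.symm (0, f)).2) = (0, f) := by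
      rw [show ((0, (ψ.symm (0, f)).2) : H0 × F0) = ψ.symm (0, f) from Prod.ext h.symm rfl]; simp
    have := irr _ (congrArg Prod.fst e)
    rw [this, Prod.mk_zero_zero, map_zero] at e
    exact (congrArg Prod.snd e).symm
  let u1 : F1 →+ H0 × F0 := ψ.symm.toAddMonoidHom.comp (AddMonoidHom.inr _ _)
  obtain ⟨C, _, _, _, γ, π, c1, c2, c3⟩ := exists_compl ((AddMonoidHom.inr H0 F0).coprod u1)
  have p0 : ∀ f, π (0, f) = 0 := fun f => by simpa using c2 (f, 0)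
  have p1 : ∀ f, π (u1 f) = 0 := fun f => by simpa [p0] using c2 (0, f)
  let a0 : F1 × C →+ H0 × F0 := u1.coprod γ
  let a1 : F0 × C →+ H1 × F1 := ψ.toAddMonoidHom.comp ((AddMonoidHom.inr _ _).coprod γ)
  have d0 : ∀ z, a0 z = ψ.symm (0, z.1) + γ z.2 := fun z => rfl
  have d1 : ∀ z, a1 z = ψ ((0, z.1) + γ z.2) := fun z => rfl
  have i0 : Function.Injective ((AddMonoidHom.fst _ _).comp a0) := by
    refine (injective_iff_map_eq_zero _).2 fun z hz => ?_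
    have hz' : (a0 z).1 = 0 := hz
    have e : π (a0 z) = z.2 := by rw [d0, map_add, c1]; exact (congrArg (· + z.2) (p1 _)).trans (zero_add _)
    rw [show a0 z = (0, (a0 z).2) from Prod.ext hz' rfl, p0] at e
    rw [d0, ← e, map_zero, add_zero] at hz'
    exact Prod.ext (irr' _ hz') e.symm
  have i1 : Function.Injective ((AddMonoidHom.fst _ _).comp a1) := by
    refine (injective_iff_map_eq_zero _).2 fun z hz => ?_
    have hz' : (a1 z).1 = 0 := hz
    have e : π (ψ.symm (a1 z)) = z.2 := by rw [d1, ψ.symm_apply_apply, map_add, c1, p0, zero_add]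
    rw [show a1 z = (0, (a1 z).2) from Prod.ext hz' rfl] at e
    have e' := (p1 _).symm.trans e
    rw [d1, ← e', map_zero, add_zero] at hz'
    exact Prod.ext (irr _ hz') e'.symm
  obtain ⟨ε0⟩ := side _ i0 fun h => by
    obtain ⟨N, h1, u, h2⟩ := c3 (h, 0)
    exact ⟨N, h1, (u.2, N • π (h, 0)), by simpa [a0] using (congrArg Prod.fst h2).symm⟩
  obtain ⟨ε1⟩ := side _ i1 fun h => by
    obtain ⟨N, h1, u, h2⟩ := c3 (ψ.symm (h, 0))
    refine ⟨N, h1, (u.1, N • π (ψ.symm (h, 0))), ?_⟩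
    have := congrArg (fun x => (ψ x).1) h2
    simp only [map_zsmul, map_add, AddEquiv.apply_symm_apply, AddMonoidHom.coprod_apply] at this
    simpa [d1, u1] using this.symm
  refine ⟨((AddMonoidHom.fst _ _).comp a0).comp ε0.toAddMonoidHom,
    ((AddMonoidHom.fst _ _).comp a1).comp ε1.toAddMonoidHom,
    ⟨⟨fun w => (ε1.symm (w.2 - (a0 (ε0 w.1)).2, (ε0 w.1).2),
        (ε0 w.1).1 + (a1 (w.2 - (a0 (ε0 w.1)).2, (ε0 w.1).2)).2),
      fun w => (ε0.symm (w.2 - (a1 (ε1 w.1)).2, (ε1 w.1).2),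
        (ε1 w.1).1 + (a0 (w.2 - (a1 (ε1 w.1)).2, (ε1 w.1).2)).2), fun w => ?_, fun w => ?_⟩,
      fun x y => ?_⟩, i0.comp ε0.injective, i1.comp ε1.injective, fun w => ?_,
    ⟨ε1.symm.toAddMonoidHom.comp (AddMonoidHom.inl _ _), (AddMonoidHom.fst _ _).comp ε1.toAddMonoidHom,
      fun x => by simp, fun f => by simp⟩,
    ⟨ε0.symm.toAddMonoidHom.comp (AddMonoidHom.inl _ _), (AddMonoidHom.fst _ _).comp ε0.toAddMonoidHom,
      fun x => by simp, fun f => by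
        show ε0.symm (f, 0) = ε0.symm (f - (a1 (ε1 0)).2, (ε1 0).2)
        simp⟩⟩
  · simp
  · simp
  · have : ((x + y).2 - (a0 (ε0 (x + y).1)).2, (ε0 (x + y).1).2) =
        (x.2 - (a0 (ε0 x.1)).2, (ε0 x.1).2) + (y.2 - (a0 (ε0 y.1)).2, (ε0 y.1).2) := by
      simp; abel
    simp only [this, map_add]
    simp; abel
  · have e : ψ ((a0 (ε0 w.1)).1, w.2) = (0, (ε0 w.1).1) + a1 (w.2 - (a0 (ε0 w.1)).2, (ε0 w.1).2) := by
      rw [d1, ← ψ.apply_symm_apply (0, (ε0 w.1).1), ← map_add, add_left_comm, ← d0]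
      congr 1
      ext <;> simp
    simpa [Prod.ext_iff] using e

end Pool.Agent.Lib.MP_661727_gt
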