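import Pool.Agent.Lib.MP_661727_gt.Flip
import Pool.Agent.Lib.MP_661727_gt.Cover
import Pool.Agent.Lib.MP_661727_gt.Dec
import Pool.Agent.Lib.MP_661727_gt.Lat

namespace Pool.Agent.Lib.MP_661727_gt

open Multiplicative

lemma fi_of_inj {k : ℕ} {j : Zk k →+ Zk k} (hj : Function.Injective j) : j.range.FiniteIndex := by
  have h1 : Finite (Zk k ⧸ j.range) :=
    Submodule.finiteQuotientOfFreeOfRankEq (LinearMap.range j.toIntLinearMap)
      (LinearMap.finrank_range_of_inj hj)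
  exact AddSubgroup.finiteIndex_of_finite_quotient

section

variable {Γ : Type} [Group Γ] (H : Subgroup Γ) (l k : ℕ)

/-- inclusion of the group of a covering piece -/
def pc : H × Multiplicative (Zk l) →* Γ × Multiplicative (Zk l) := H.subtype.prodMap (powMonoidHom k)

lemma pc_inj (hk : k ≠ 0) : Function.Injective (pc H l k) := fun _ _ h =>
  Prod.ext (Subtype.ext (congrArg Prod.fst h))
    (toAdd.injective (nsmul_right_injective hk (congrArg (fun x => x.2.toAdd) h)))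

lemma pc_normal (hn : H.Normal) : (pc H l k).range.Normal :=
  ⟨by rintro _ ⟨y, rfl⟩ g; exact ⟨(⟨_, hn.conj_mem _ y.1.2 g.1⟩, y.2), by simp [pc, Prod.ext_iff]⟩⟩

lemma pc_fi [H.FiniteIndex] (hk : k ≠ 0) : (pc H l k).range.FiniteIndex := by
  have := Subgroup.finiteIndex_range_powMonoidHom_of_fg (Multiplicative (Zk l)) hk
  rw [pc, MonoidHom.range_prodMap, Subgroup.range_subtype]
  exact ⟨by
    rw [Subgroup.index_prod]
    exact mul_ne_zero Subgroup.FiniteIndex.index_ne_zero this.index_ne_zero⟩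

variable {H k} {X : Type} [AddCommGroup X] {α : Multiplicative X →* Γ}

lemma mem_pc {θ : X →+ X} (h : ∀ x, α (ofAdd x) ∈ H ↔ x ∈ θ.range) (w : X × Zk l) :
    io α w ∈ (pc H l k).range ↔ ∃ z : X × Zk l, (θ z.1, k • z.2) = w := by
  constructor
  · rintro ⟨y, e⟩
    obtain ⟨x, hx⟩ := (h w.1).1 ((show y.1.1 = α (ofAdd w.1) from congrArg Prod.fst e) ▸ y.1.2)
    exact ⟨(x, y.2.toAdd), Prod.ext hx (congrArg (fun x => x.2.toAdd) e)⟩
  · rintro ⟨z, rfl⟩
    exact ⟨(⟨_, (h _).2 ⟨z.1, rfl⟩⟩, ofAdd z.2), rfl⟩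

lemma dec_pc (hk : k ≠ 0) (hn : H.Normal) {W W' : Type} [Group W] [Group W'] (q : W' →* W)
    (ι : W →* Γ × Multiplicative (Zk l)) (h : ∀ w, ι w ∈ (pc H l k).range ↔ w ∈ q.range)
    (h1 : ∀ w, ∃ z, ι w = io α z) (h2 : ∀ z, ∃ w, ι w = io α z) :
    Function.Bijective (fun z : (W ⧸ q.range) × DoubleCoset.Quotient (α.range : Set Γ) H ×
      (H × Multiplicative (Zk l)) => ι z.1.out * (z.2.1.out, 1) * pc H l k z.2.2) ∧
      Nat.card (W ⧸ q.range) * Nat.card (DoubleCoset.Quotient (α.range : Set Γ) H) =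
        (pc H l k).range.index := by
  refine dec _ (pc_inj H l k hk) (pc_normal H l k hn) ι q h
    (fun x : DoubleCoset.Quotient (α.range : Set Γ) H => (x.out, 1)) (fun g => ?_) fun x x' w y e => ?_
  · obtain ⟨_, b, ⟨a, rfl⟩, hb, e⟩ := DoubleCoset.mk_out_eq_mul α.range H g.1
    obtain ⟨w, hw⟩ := h2 (-a.toAdd, g.2.toAdd)
    exact ⟨DoubleCoset.mk _ _ g.1, w, (⟨b⁻¹, inv_mem hb⟩, 1), by simp [hw, e, io, pc, mul_assoc]⟩
  · obtain ⟨z, hz⟩ := h1 w
    rw [← DoubleCoset.out_eq' _ _ x, ← DoubleCoset.out_eq' _ _ x']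
    rw [hz] at e
    exact (DoubleCoset.eq _ _ _ _).2 ⟨_, ⟨ofAdd z.1, rfl⟩, _, y.1.2, congrArg Prod.fst e⟩

end

theorem adapt_ce {n : ℕ} (P : Pattern n) (ψ : P.Glue) (irr : Pattern.Irred ψ)
    (hA : ∀ v, (P.N v).Adapt) :
    ∃ (P' : Pattern n) (ψ' : P'.Glue), Pattern.Flip ψ' ∧ CE (P.pi1 ψ) (P'.pi1 ψ') := by
  have := P.finV
  have := P.finE
  have := Fintype.ofFinite P.V
  choose η0 η1 ψ1 c0 c1 c2 c3 c4 using fun e => unimod (ψ e) (irr e)
  have : ∀ p : Σ v, (P.N v).C,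
      Inhabited {η : Zk (P.d p.1 - 1) →+ Zk (P.d p.1 - 1) // Function.Injective η} :=
    fun p => ⟨⟨AddMonoidHom.id _, fun _ _ h => h⟩⟩
  obtain ⟨η, hη⟩ := dep_ext (Y := fun p : Σ v, (P.N v).C =>
    {η : Zk (P.d p.1 - 1) →+ Zk (P.d p.1 - 1) // Function.Injective η})
    P.once (fun x => match x with | .inl e => ⟨η0 e, c0 e⟩ | .inr e => ⟨η1 e, c1 e⟩)
  have e0 : ∀ e, (η ⟨P.src e, P.cs e⟩).1 = η0 e := fun e => congrArg Subtype.val (hη (.inl e))
  have e1 : ∀ e, (η ⟨P.tgt e, P.ct e⟩).1 = η1 e := fun e => congrArg Subtype.val (hη (.inr e))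
  choose m hm hH using fun v => hA v (fun c => (η ⟨v, c⟩).1.range) fun c => fi_of_inj (η ⟨v, c⟩).2
  have hk : 0 < ∏ v, m v := Finset.prod_pos fun v _ => hm v
  choose H hn hf hH using fun v => hH v _ hk (Finset.dvd_prod_of_mem m (Finset.mem_univ v))
  generalize ∏ v, m v = k at hk hH
  let θ : ∀ v, (P.N v).C → Zk (P.d v - 1) →+ Zk (P.d v - 1) := fun v c => k • (η ⟨v, c⟩).1
  have θ1 : ∀ v c, Function.Injective (θ v c) := fun v c a b h =>
    (η ⟨v, c⟩).2 (nsmul_right_injective hk.ne' h)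
  have θ2 : ∀ v c x, (P.N v).α c (ofAdd x) ∈ H v ↔ x ∈ (θ v c).range := fun v c x =>
    (hH v c x).trans ⟨by rintro ⟨_, ⟨a, rfl⟩, rfl⟩; exact ⟨a, rfl⟩,
      by rintro ⟨a, rfl⟩; exact ⟨_, ⟨a, rfl⟩, rfl⟩⟩
  have θ3 : ∀ e z, ψ e (θ _ (P.cs e) z.1, k • z.2) =
      (θ _ (P.ct e) (ψ1 e z).1, k • (ψ1 e z).2) := fun e z => by
    have := congrArg (k • ·) (c2 e z)
    simp only [← map_nsmul (ψ e), Prod.smul_mk, ← e0, ← e1] at this
    exact this
  let q : ∀ e, Multiplicative (Zk (P.d (P.src e) - 1) × Zk (n - P.d (P.src e))) →*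
      Multiplicative (Zk (P.d (P.src e) - 1) × Zk (n - P.d (P.src e))) := fun e =>
    AddMonoidHom.toMultiplicative ((θ _ (P.cs e)).prodMap (k • AddMonoidHom.id _))
  let ι1 : ∀ e, Multiplicative (Zk (P.d (P.src e) - 1) × Zk (n - P.d (P.src e))) →*
      (P.N (P.tgt e)).G × Multiplicative (Zk (n - P.d (P.tgt e))) := fun e =>
    (ioh ((P.N _).α (P.ct e))).comp (AddMonoidHom.toMultiplicative (ψ e).toAddMonoidHom)
  have d0 := fun e => dec_pc (α := (P.N _).α (P.cs e)) _ hk.ne' (hn _) (q e) (ioh ((P.N _).α (P.cs e)))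
    (fun w => mem_pc _ (θ2 _ _) w.toAdd) (fun w => ⟨w.toAdd, rfl⟩) fun z => ⟨ofAdd z, rfl⟩
  have d1 := fun e => dec_pc (α := (P.N _).α (P.ct e)) _ hk.ne' (hn _) (q e) (ι1 e)
    (fun w => (mem_pc _ (θ2 _ _) (ψ e w.toAdd)).trans ⟨fun ⟨z, hz⟩ => ⟨ofAdd ((ψ1 e).symm z),
      toAdd.injective ((ψ e).injective ((θ3 e _).trans (by simpa using hz)))⟩,
      by rintro ⟨z, rfl⟩; exact ⟨_, (θ3 e z.toAdd).symm⟩⟩) (fun w => ⟨ψ e w.toAdd, rfl⟩)
      fun z => ⟨ofAdd ((ψ e).symm z), congrArg (io _) ((ψ e).apply_symm_apply z)⟩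
  have := fun v => pc_fi (H v) (n - P.d v) k hk.ne'
  have := fun v c => (P.N v).DC_fin (H v) c
  obtain ⟨I, _, pt, β, conn⟩ := balance P.conn (fun e => (P.N _).DC (H _) (P.cs e))
    (fun e => (P.N _).DC (H _) (P.ct e)) (fun v => (pc (H v) (n - P.d v) k).range.index)
    (fun v => Subgroup.FiniteIndex.index_ne_zero) _ (fun e => (d0 e).2) fun e => (d1 e).2
  have : ∀ e, Finite (_ ⧸ (q e).range) := fun e => Nat.finite_of_card_ne_zero
    (left_ne_zero_of_mul ((d0 e).2 ▸ Subgroup.FiniteIndex.index_ne_zero))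
  let L := fun v => (P.N v).cover (H v) (hn v) (θ v) (θ1 v) (θ2 v)
  let pr : (Σ x : Σ v, I v, (L x.1).C) → Σ v, (P.N v).C := fun z => ⟨z.1.1, z.2.1⟩
  let P' : Pattern n :=
    { V := Σ v, I v
      E := Σ e, (P.N _).DC (H _) (P.cs e) × I (P.src e)
      finV := inferInstance
      finE := inferInstance
      base := ⟨P.base, pt _⟩
      d := fun x => P.d x.1
      hd := fun x => P.hd x.1
      N := fun x => L x.1
      src := fun e => ⟨P.src e.1, e.2.2⟩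
      tgt := fun e => ⟨P.tgt e.1, (β e.1 e.2).2⟩
      cs := fun e => ⟨P.cs e.1, e.2.1⟩
      ct := fun e => ⟨P.ct e.1, (β e.1 e.2).1⟩
      once := by
        rintro (⟨e, x⟩ | ⟨e, x⟩) (⟨e', x'⟩ | ⟨e', x'⟩) h
        · cases P.once (a₁ := .inl e) (a₂ := .inl e') (congrArg pr h)
          obtain ⟨x, i⟩ := x
          obtain ⟨x', i'⟩ := x'
          cases h; rfl
        · cases P.once (a₁ := .inl e) (a₂ := .inr e') (congrArg pr h)
        · cases P.once (a₁ := .inr e) (a₂ := .inl e') (congrArg pr h)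
        · cases P.once (a₁ := .inr e) (a₂ := .inr e') (congrArg pr h)
          obtain ⟨⟨x, i⟩, rfl⟩ := (β e).symm.surjective x
          obtain ⟨⟨x', i'⟩, rfl⟩ := (β e).symm.surjective x'
          simp only [Sum.elim_inr] at h
          rw [Equiv.apply_symm_apply, Equiv.apply_symm_apply] at h
          cases h; rfl
      conn := conn }
  obtain ⟨ψ', a, b⟩ := flip_ce P' (fun e => ψ1 e.1) (fun _ => AddMonoidHom.id _) (fun _ _ _ h => h)
    (fun e => c3 e.1) fun e => c4 e.1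
  refine ⟨P', ψ', a, CE.trans ?_ b⟩
  exact cover (G := fun v => (P.N v).G × Multiplicative (Zk (n - P.d v)))
    (G' := fun v => H v × Multiplicative (Zk (n - P.d v))) P.base
    (fun e => ioh ((P.N _).α (P.cs e))) ι1 (fun v => pc (H v) (n - P.d v) k)
    (fun v => pc_inj _ _ _ hk.ne') q pt (K := fun e => (P.N _).DC (H _) (P.cs e) × I (P.src e))
    (Ω := fun e => _ ⧸ (q e).range) (fun e => Quotient.out) (fun e w ω => by
      obtain ⟨⟨_, z, rfl⟩, h⟩ := QuotientGroup.mk_out_eq_mul (q e).range (w * ω.out)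
      exact ⟨QuotientGroup.mk (w * ω.out), z⁻¹, by rw [h, map_inv, mul_inv_cancel_right]⟩)
    (fun e x => (x.1.out, 1)) (fun e x => ((β e x).1.out, 1)) (fun e x => x.2) (fun e x => (β e x).2)
    (fun e x => ioh ((L _).α ⟨P.cs e, x.1⟩)) (fun e x => (ioh ((L _).α ⟨P.ct e, (β e x).1⟩)).comp
      (AddMonoidHom.toMultiplicative (ψ1 e).toAddMonoidHom))
    (fun e x => ioh_inj ((L _).α_inj _)) (fun e x => (ioh_inj ((L _).α_inj _)).comp (ψ1 e).injective)
    (fun e x w => Prod.ext (show (P.N _).α _ (ofAdd (θ _ _ w.toAdd.1)) * x.1.out = x.1.out *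
      (x.1.out⁻¹ * (P.N _).α _ (ofAdd (θ _ _ w.toAdd.1)) * x.1.out⁻¹⁻¹) by group) (mul_comm _ _))
    (fun e x w => by
      show io _ (ψ e (θ _ (P.cs e) w.toAdd.1, k • w.toAdd.2)) * _ = _
      rw [θ3]
      exact Prod.ext (show (P.N _).α _ (ofAdd (θ _ _ (ψ1 e w.toAdd).1)) * (β e x).1.out =
        (β e x).1.out * ((β e x).1.out⁻¹ * (P.N _).α _ (ofAdd (θ _ _ (ψ1 e w.toAdd).1)) *
          (β e x).1.out⁻¹⁻¹) by group) (mul_comm _ _))
    (fun e => bij_β (d0 e).1 (Equiv.refl _)) fun e => bij_β (d1 e).1 (β e)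

end Pool.Agent.Lib.MP_661727_gt
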