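import Pool.Agent.Lib.MP_661727_gt.Defs

namespace Pool.Agent.Lib.MP_661727_gt

variable {G G' : Type*} [Group G] [Group G']

lemma exists_word {S : Finset G} (hS : Subgroup.closure (S : Set G) = ⊤) (g : G) :
    ∃ l : List G, l.length = wlen S g ∧ (∀ x ∈ l, x ∈ S ∨ x⁻¹ ∈ S) ∧ l.prod = g := by
  have h : g ∈ (Subgroup.closure (S : Set G)).toSubmonoid := by rw [hS]; trivial
  rw [Subgroup.closure_toSubmonoid] at h
  obtain ⟨l, h1, h2⟩ := Submonoid.exists_list_of_mem_closure h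
  exact Nat.sInf_mem (s := {k | ∃ l : List G, l.length = k ∧ (∀ x ∈ l, x ∈ S ∨ x⁻¹ ∈ S) ∧ l.prod = g})
    ⟨l.length, l, rfl, h1, h2⟩

lemma wlen_le {S : Finset G} (l : List G) (h : ∀ x ∈ l, x ∈ S ∨ x⁻¹ ∈ S) :
    wlen S l.prod ≤ l.length := Nat.sInf_le ⟨l, rfl, h, rfl⟩

lemma wlen_mul {S : Finset G} (hS : Subgroup.closure (S : Set G) = ⊤) (a b : G) :
    wlen S (a * b) ≤ wlen S a + wlen S b := by
  obtain ⟨l, h1, h2, h3⟩ := exists_word hS a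
  obtain ⟨l', h1', h2', h3'⟩ := exists_word hS b
  have := wlen_le (S := S) (l ++ l') (by
    intro x hx
    rcases List.mem_append.1 hx with h | h
    exacts [h2 x h, h2' x h])
  rwa [List.prod_append, h3, h3', List.length_append, h1, h1'] at this

lemma wlen_bdd (S : Finset G) {A : Set G} (hA : A.Finite) : ∃ K, ∀ a ∈ A, wlen S a ≤ K := by
  obtain ⟨K, hK⟩ := (hA.image (wlen S)).bddAbove
  exact ⟨K, fun a ha => hK ⟨a, ha, rfl⟩⟩

lemma fin_gen (S : Finset G) (f : G → G')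
    (h : ∀ s, (Set.range fun x => (f x)⁻¹ * f (x * s)).Finite) :
    ∃ A : Set G', A.Finite ∧ ∀ s, (s ∈ S ∨ s⁻¹ ∈ S) → ∀ x, (f x)⁻¹ * f (x * s) ∈ A := by
  have h1 : {s : G | s ∈ S ∨ s⁻¹ ∈ S}.Finite :=
    S.finite_toSet.union (S.finite_toSet.preimage inv_injective.injOn)
  exact ⟨_, h1.biUnion fun s _ => h s, fun s hs x => Set.mem_biUnion hs ⟨x, rfl⟩⟩

lemma lip {S : Finset G} {S' : Finset G'} (hS : Subgroup.closure (S : Set G) = ⊤)
    (hS' : Subgroup.closure (S' : Set G') = ⊤) (f : G → G')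
    (h : ∀ s, (Set.range fun x => (f x)⁻¹ * f (x * s)).Finite) :
    ∃ K, ∀ x y, wlen S' ((f x)⁻¹ * f y) ≤ K * wlen S (x⁻¹ * y) := by
  obtain ⟨A, hA, h1⟩ := fin_gen S f h
  obtain ⟨K, hK⟩ := wlen_bdd S' hA
  refine ⟨K, fun x y => ?_⟩
  obtain ⟨l, h2, h3, h4⟩ := exists_word hS (x⁻¹ * y)
  have key : ∀ l : List G, (∀ s ∈ l, s ∈ S ∨ s⁻¹ ∈ S) → ∀ x,
      wlen S' ((f x)⁻¹ * f (x * l.prod)) ≤ K * l.length := by
    intro l
    induction l with
    | nil => intro _ x; simpa using wlen_le (S := S') [] (by simp)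
    | cons s l ih =>
      intro hl x
      have a1 := ih (fun t ht => hl t (List.mem_cons_of_mem _ ht)) (x * s)
      have a2 := hK _ (h1 s (hl s List.mem_cons_self) x)
      have a3 := wlen_mul hS' ((f x)⁻¹ * f (x * s)) ((f (x * s))⁻¹ * f (x * s * l.prod))
      rw [mul_assoc, mul_inv_cancel_left] at a3
      rw [List.prod_cons, ← mul_assoc, List.length_cons, mul_add]
      omega
  have := key l h3 x
  rwa [h4, mul_inv_cancel_left, h2] at this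

lemma qi_right (hfg : Group.FG G) (f : G → G') (g : G' → G)
    (h1 : ∀ s, (Set.range fun x => (f x)⁻¹ * f (x * s)).Finite)
    (h2 : ∀ s, (Set.range fun x => (g x)⁻¹ * g (x * s)).Finite)
    (h3 : (Set.range fun x => x⁻¹ * g (f x)).Finite)
    (h4 : (Set.range fun x => (f (g x))⁻¹ * x).Finite) : QI G G' := by
  obtain ⟨S, hS⟩ := hfg.out
  obtain ⟨A, hA, hA1⟩ := fin_gen S f h1
  have hT : (insert (f 1) (A ∪ Set.range fun x => (f (g x))⁻¹ * x)).Finite := (hA.union h4).insert _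
  have hS' : Subgroup.closure (hT.toFinset : Set G') = ⊤ := by
    rw [Set.Finite.coe_toFinset, eq_top_iff]
    set H := Subgroup.closure (insert (f 1) (A ∪ Set.range fun x => (f (g x))⁻¹ * x))
    have key : ∀ l : List G, (∀ s ∈ l, s ∈ S ∨ s⁻¹ ∈ S) → ∀ x, f x ∈ H → f (x * l.prod) ∈ H := by
      intro l
      induction l with
      | nil => intro _ x hx; simpa using hx
      | cons s l ih =>
        intro hl x hx
        rw [List.prod_cons, ← mul_assoc]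
        refine ih (fun t ht => hl t (List.mem_cons_of_mem _ ht)) (x * s) ?_
        have : (f x)⁻¹ * f (x * s) ∈ H :=
          Subgroup.subset_closure (Or.inr (Or.inl (hA1 s (hl s List.mem_cons_self) x)))
        simpa using H.mul_mem hx this
    intro z _
    obtain ⟨l, -, a1, a2⟩ := exists_word hS (g z)
    have a3 := key l a1 1 (Subgroup.subset_closure (Or.inl rfl))
    rw [one_mul, a2] at a3
    have : (f (g z))⁻¹ * z ∈ H := Subgroup.subset_closure (Or.inr (Or.inr ⟨z, rfl⟩))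
    simpa using H.mul_mem a3 this
  obtain ⟨K1, hK1⟩ := lip hS hS' f h1
  obtain ⟨K2, hK2⟩ := lip hS' hS g h2
  obtain ⟨K3, hK3⟩ := wlen_bdd S (h3.union h3.inv)
  obtain ⟨K4, hK4⟩ := wlen_bdd hT.toFinset h4
  refine ⟨S, hT.toFinset, f, K1 + K2 + 2 * K3 + K4, hS, hS', fun x y => ⟨?_, ?_⟩,
    fun z => ⟨g z, (hK4 _ ⟨z, rfl⟩).trans (by omega)⟩⟩
  · have := hK1 x y
    nlinarith [Nat.zero_le ((K2 + 2 * K3 + K4) * wlen S (x⁻¹ * y))]
  · have a1 := hK2 (f x) (f y)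
    have a2 := hK3 _ (Or.inl ⟨x, rfl⟩)
    have a3 := hK3 (y⁻¹ * g (f y))⁻¹ (Or.inr (by simp))
    have a4 := wlen_mul hS (x⁻¹ * g (f x)) ((g (f x))⁻¹ * g (f y))
    have a5 := wlen_mul hS (x⁻¹ * g (f x) * ((g (f x))⁻¹ * g (f y))) (y⁻¹ * g (f y))⁻¹
    have e : x⁻¹ * g (f x) * ((g (f x))⁻¹ * g (f y)) * (y⁻¹ * g (f y))⁻¹ = x⁻¹ * y := by group
    rw [e] at a5
    nlinarith [Nat.zero_le ((K1 + 2 * K3 + K4) * wlen hT.toFinset ((f x)⁻¹ * f y))]

lemma qi_left (hfg : Group.FG G) (f : G → G') (g : G' → G)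
    (h1 : ∀ s, (Set.range fun x => f (s * x) * (f x)⁻¹).Finite)
    (h2 : ∀ s, (Set.range fun x => g (s * x) * (g x)⁻¹).Finite)
    (h3 : (Set.range fun x => g (f x) * x⁻¹).Finite)
    (h4 : (Set.range fun x => f (g x) * x⁻¹).Finite) : QI G G' := by
  refine qi_right hfg (fun x => (f x⁻¹)⁻¹) (fun x => (g x⁻¹)⁻¹) (fun s => ?_) (fun s => ?_) ?_ ?_
  · refine (h1 s⁻¹).inv.subset ?_
    rintro _ ⟨x, rfl⟩
    exact ⟨x⁻¹, by simp⟩
  · refine (h2 s⁻¹).inv.subset ?_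
    rintro _ ⟨x, rfl⟩
    exact ⟨x⁻¹, by simp⟩
  · refine h3.inv.subset ?_
    rintro _ ⟨x, rfl⟩
    exact ⟨x⁻¹, by simp⟩
  · refine h4.subset ?_
    rintro _ ⟨x, rfl⟩
    exact ⟨x⁻¹, by simp⟩

/-- bounded increments -/
def Bd (f : G → G') : Prop := ∀ s, (Set.range fun x => f (s * x) * (f x)⁻¹).Finite

lemma Bd.set {f : G → G'} (h : Bd f) {A : Set G} (hA : A.Finite) :
    ∃ S : Set G', S.Finite ∧ ∀ x y, y * x⁻¹ ∈ A → f y * (f x)⁻¹ ∈ S :=
  ⟨_, hA.biUnion fun s _ => h s, fun x y hxy => Set.mem_biUnion hxy ⟨x, by simp⟩⟩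

/-- coarse equivalence -/
def CE (G G' : Type*) [Group G] [Group G'] : Prop :=
  ∃ (f : G → G') (g : G' → G), Bd f ∧ Bd g ∧ (Set.range fun x => g (f x) * x⁻¹).Finite ∧
    (Set.range fun x => f (g x) * x⁻¹).Finite

lemma CE.qi (h : CE G G') (hfg : Group.FG G) : QI G G' := by
  obtain ⟨f, g, h1, h2, h3, h4⟩ := h
  exact qi_left hfg f g h1 h2 h3 h4

open scoped Pointwise in
lemma CE.trans {G'' : Type*} [Group G''] (h : CE G G') (h' : CE G' G'') : CE G G'' := by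
  obtain ⟨f, g, h1, h2, h3, h4⟩ := h
  obtain ⟨f', g', h1', h2', h3', h4'⟩ := h'
  refine ⟨f' ∘ f, g ∘ g', fun s => ?_, fun s => ?_, ?_, ?_⟩
  · obtain ⟨S, a1, a2⟩ := h1'.set (h1 s)
    refine a1.subset ?_
    rintro _ ⟨x, rfl⟩
    exact a2 _ _ ⟨x, rfl⟩
  · obtain ⟨S, a1, a2⟩ := h2.set (h2' s)
    refine a1.subset ?_
    rintro _ ⟨x, rfl⟩
    exact a2 _ _ ⟨x, rfl⟩
  · obtain ⟨S, a1, a2⟩ := h2.set h3'
    refine (a1.mul h3).subset ?_
    rintro _ ⟨x, rfl⟩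
    exact ⟨_, a2 (f x) _ ⟨f x, rfl⟩, _, ⟨x, rfl⟩, by simp⟩
  · obtain ⟨S, a1, a2⟩ := h1'.set h4
    refine (a1.mul h4').subset ?_
    rintro _ ⟨x, rfl⟩
    exact ⟨_, a2 (g' x) _ ⟨g' x, rfl⟩, _, ⟨x, rfl⟩, by simp⟩

end Pool.Agent.Lib.MP_661727_gt
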