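import Pool.Agent.Lib.MP_661727_gt.Lor

namespace Pool.Agent.Lib.MP_661727_gt

namespace Cusp0

variable {d : ℕ} (L : Cusp0 d)

lemma α_fix (c : L.C) (h : Multiplicative (Zk (d - 1))) : (L.α c h).1 (L.b c) = L.b c :=
  (L.α_range c _).1 ⟨h, rfl⟩

lemma lor_α (c : L.C) (h : Multiplicative (Zk (d - 1))) (y : Mink d) :
    lor ((L.α c h).1 y) (L.b c) = lor y (L.b c) := by
  conv_lhs => rw [← L.α_fix c h]
  exact L.isom _ (L.α c h).2 _ _

lemma exists_S (c : L.C) (σ : Zk (d - 1) →+ ℝ) :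
    ∃ S : Mink d →ₗ[ℝ] ℝ, S (L.b c) = 0 ∧
      ∀ h y, S ((L.α c (Multiplicative.ofAdd h)).1 y) = S y + σ h * lor y (L.b c) := by
  set b := L.b c with hb
  obtain ⟨hb0, hb1⟩ : lor b b = 0 ∧ 0 < b.1 := L.light c
  let x0 : Mink d := (b.1)⁻¹ • oo d
  have hx0 : lor x0 b = -1 := by
    simp only [x0, lor_smul_left, lor_oo]; field_simp
  let w : Zk (d - 1) → Mink d := fun h => (L.α c (Multiplicative.ofAdd h)).1 x0 - x0
  have hw : ∀ h, lor (w h) b = 0 := fun h => by
    simp only [w, lor_sub_left, hb, L.lor_α]; ring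
  let q := (Submodule.span ℝ {b}).mkQ
  have hq : q b = 0 := by simp [q]
  have hq' : ∀ v, q v = 0 → ∃ t : ℝ, t • b = v := fun v hv => by
    simpa [q, Submodule.mem_span_singleton] using hv
  let wq : Zk (d - 1) →+ Mink d ⧸ Submodule.span ℝ {b} := AddMonoidHom.mk' (fun h => q (w h)) (by
    intro h k
    obtain ⟨t, ht⟩ := L.transl c (Multiplicative.ofAdd h) (w k) (hw k)
    have : w (h + k) = w h + (w k + t • b) := by
      rw [← ht]
      simp only [w, ofAdd_add, map_mul, map_sub, Subgroup.coe_mul, LinearEquiv.mul_apply]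
      abel
    simp only [this, map_add, map_smul, hq, smul_zero, add_zero])
  let e : Fin (d - 1) → Zk (d - 1) := fun i => Pi.single i 1
  have hsum : ∀ h : Zk (d - 1), h = ∑ i, h i • e i := fun h => by
    ext j; simp [e, Pi.single_apply]
  let v : (Fin (d - 1) → ℝ) →ₗ[ℝ] Mink d := Fintype.linearCombination ℝ fun i => w (e i)
  have hv : ∀ θ, v θ = ∑ i, θ i • w (e i) := fun θ => Fintype.linearCombination_apply _ _ _
  have hvb : ∀ θ, lor (v θ) b = 0 := by
    intro θ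
    rw [hv]
    induction (Finset.univ : Finset (Fin (d - 1))) using Finset.cons_induction with
    | empty => simp [lor]
    | cons i s hi ih => rw [Finset.sum_cons, lor_add_left, lor_smul_left, hw, ih]; ring
  have hwq : ∀ h : Zk (d - 1), q (w h) = q (v fun i => h i) := by
    intro h
    have : wq h = ∑ i, h i • wq (e i) := by
      conv_lhs => rw [hsum h]
      simp only [map_sum, map_zsmul]
    rw [hv, map_sum]
    refine this.trans (Finset.sum_congr rfl fun i _ => ?_)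
    rw [map_smul, Int.cast_smul_eq_zsmul]; rfl
  have hsame : ∀ x y : Mink d, lor y b = 0 → q x = q y → lor x x = lor y y := by
    intro x y hy h
    obtain ⟨t, ht⟩ := hq' (x - y) (by rw [map_sub, h, sub_self])
    have : x = y + t • b := by rw [ht]; abel
    rw [this]
    simp only [lor_add_left, lor_add_right, lor_smul_left, lor_smul_right, hy, hb0, lor_comm b y]
    ring
  have hinj : LinearMap.ker (q ∘ₗ v) = ⊥ := by
    rw [LinearMap.ker_eq_bot']
    intro t ht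
    have hc : Continuous fun θ => lor (v θ) (v θ) := by
      have := v.continuous_of_finiteDimensional
      simp only [lor, dotProduct]
      fun_prop
    obtain ⟨K, hK⟩ := ((isCompact_Icc (a := (-1 : Fin (d - 1) → ℝ)) (b := 0)).image hc).bddAbove
    let H : ℕ → Zk (d - 1) := fun N i => ⌊(N : ℝ) * t i⌋
    have h1 : ∀ N, ((L.α c (Multiplicative.ofAdd (H N))).1 (1, 0)).1 ≤ 1 + b.1 ^ 2 * K / 2 := by
      intro N
      have a1 : lor (w (H N)) (w (H N)) ≤ K := by
        rw [hsame _ (v fun i => H N i - N * t i) (hvb _)]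
        · refine hK ⟨_, ⟨fun i => ?_, fun i => ?_⟩, rfl⟩
          · have := Int.lt_floor_add_one ((N : ℝ) * t i)
            simp only [H, Pi.neg_apply, Pi.one_apply]; linarith
          · have := Int.floor_le ((N : ℝ) * t i)
            simp only [H, Pi.zero_apply]; linarith
        · have : (fun i => (H N i : ℝ) - N * t i) = (fun i => (H N i : ℝ)) - (N : ℝ) • t := by
            ext i; simp
          have ht' : q (v t) = 0 := ht
          rw [hwq, this, map_sub, map_sub, map_smul, map_smul, ht', smul_zero, sub_zero]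
      have a2 := L.isom _ (L.α c (Multiplicative.ofAdd (H N))).2 (oo d) (oo d)
      simp only [w, x0, map_smul, lor_sub_left, lor_sub_right, lor_smul_left, lor_smul_right, a2,
        lor_comm _ (oo d), lor_oo] at a1
      have a3 : b.1⁻¹ * b.1 = 1 := inv_mul_cancel₀ hb1.ne'
      have a4 := mul_le_mul_of_nonneg_left a1 (sq_nonneg b.1)
      have a5 : ∀ z : ℝ, b.1 ^ 2 * (b.1⁻¹ * (b.1⁻¹ * -1 - b.1⁻¹ * -z) -
          b.1⁻¹ * (b.1⁻¹ * -z - b.1⁻¹ * -1)) = 2 * z - 2 := by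
        intro z; field_simp; ring
      rw [a5] at a4
      linarith
    have h2 : (Set.range H).Finite := by
      have := (L.proper (1 + b.1 ^ 2 * K / 2)).preimage
        ((L.α_inj c).comp Multiplicative.ofAdd.injective).injOn
      refine this.subset ?_
      rintro _ ⟨N, rfl⟩
      exact h1 N
    ext i
    obtain ⟨M, hM⟩ := (h2.image fun h => |(h i : ℝ)|).bddAbove
    by_contra hi
    have hi' : 0 < |t i| := abs_pos.2 hi
    obtain ⟨N, hN⟩ := exists_nat_gt ((M + 1) / |t i|)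
    have b1 : |(H N i : ℝ)| ≤ M := hM ⟨_, ⟨N, rfl⟩, rfl⟩
    rw [div_lt_iff₀ hi'] at hN
    have b2 := Int.lt_floor_add_one ((N : ℝ) * t i)
    have b3 := Int.floor_le ((N : ℝ) * t i)
    simp only [H] at b1
    rw [abs_le] at b1
    rcases abs_cases (t i) with h | h <;> rw [h.1] at hN <;> nlinarith
  obtain ⟨li, hli⟩ := LinearMap.exists_leftInverse_of_injective _ hinj
  let S : Mink d →ₗ[ℝ] ℝ := (Fintype.linearCombination ℝ fun i => - σ (e i)) ∘ₗ li ∘ₗ q
  have hSb : S b = 0 := by simp [S, hq]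
  have hSw : ∀ h, S (w h) = - σ h := by
    intro h
    have := LinearMap.congr_fun hli fun i => (h i : ℝ)
    simp only [LinearMap.comp_apply, LinearMap.id_apply] at this
    simp only [S, LinearMap.comp_apply, hwq, this, Fintype.linearCombination_apply]
    conv_rhs => rw [hsum h]
    simp only [map_sum, map_zsmul, smul_eq_mul, mul_neg, Finset.sum_neg_distrib]
    simp only [zsmul_eq_mul]
  refine ⟨S, hSb, fun h y => ?_⟩
  obtain ⟨t, ht⟩ := L.transl c (Multiplicative.ofAdd h) (y + lor y b • x0) (by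
    rw [lor_add_left, lor_smul_left, ← hb, hx0]; ring)
  have : (L.α c (Multiplicative.ofAdd h)).1 y = y + t • b - lor y b • w h := by
    rw [map_add, map_smul] at ht
    rw [eq_sub_of_add_eq ht]
    simp only [w, smul_sub]
    abel
  rw [this, map_sub, map_add, map_smul, map_smul, hSb, hSw]
  simp [mul_comm]

/-- the centres of all horoballs -/
def B : Set (Mink d) := {b | ∃ g ∈ L.G, ∃ c, b = g (L.b c)}

lemma lor_inv (g : L.G) (x y : Mink d) : lor (g.1 x) y = lor x ((g⁻¹).1 y) := by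
  rw [← L.isom _ g.2 x]
  congr 1
  rw [← LinearEquiv.mul_apply, ← Subgroup.coe_mul, mul_inv_cancel]; rfl

lemma B_light {b : Mink d} (hb : b ∈ L.B) : lor b b = 0 ∧ 0 < b.1 := by
  obtain ⟨g, hg, c, rfl⟩ := hb
  refine ⟨by rw [L.isom g hg, (L.light c).1], ?_⟩
  have h1 := L.lor_inv ⟨g, hg⟩ (L.b c) (oo d)
  have h2 := lor_neg (L.sheet _ (⟨g, hg⟩⁻¹ : L.G).2 _ oo_mem) ⟨(L.light c).1.le, (L.light c).2⟩
  rw [lor_comm, lor_oo, lor_comm] at h1
  simp only at h1
  linarith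

lemma B_fut {b : Mink d} (hb : b ∈ L.B) : Fut b := ⟨(L.B_light hb).1.le, (L.B_light hb).2⟩

lemma B_map (g : L.G) {b : Mink d} (hb : b ∈ L.B) : g.1 b ∈ L.B := by
  obtain ⟨g', hg, c, rfl⟩ := hb
  exact ⟨g.1 * g', L.G.mul_mem g.2 hg, c, rfl⟩

lemma disj' (g g' : L.G) (c c' : L.C) {x : Mink d} (h : x ∈ horoball (g.1 (L.b c)))
    (h' : x ∈ horoball (g'.1 (L.b c'))) : c = c' ∧ (g'⁻¹ * g).1 (L.b c) = L.b c := by
  refine L.disj _ (g'⁻¹ * g).2 c c' ⟨(g'⁻¹).1 x, ⟨L.sheet _ (g'⁻¹).2 _ h.1, ?_⟩,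
    L.sheet _ (g'⁻¹).2 _ h.1, ?_⟩
  · rw [Subgroup.coe_mul, LinearEquiv.mul_apply, L.isom _ (g'⁻¹).2]; exact h.2
  · rw [L.lor_inv, inv_inv]; exact h'.2

lemma B_eq {b b' x : Mink d} (hb : b ∈ L.B) (hb' : b' ∈ L.B) (h : x ∈ horoball b)
    (h' : x ∈ horoball b') : b = b' := by
  obtain ⟨g, hg, c, rfl⟩ := hb
  obtain ⟨g', hg', c', rfl⟩ := hb'
  obtain ⟨rfl, h2⟩ := L.disj' ⟨g, hg⟩ ⟨g', hg'⟩ c c' h h'
  conv_rhs => rw [← h2]
  rw [← LinearEquiv.mul_apply]
  congr 2
  simp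

lemma B_eq' {b b' m : Mink d} (hb : b ∈ L.B) (hb' : b' ∈ L.B) (hm : 0 < m.1)
    (h : (lor m b) ^ 2 < - lor m m) (h' : (lor m b') ^ 2 < - lor m m) : b = b' :=
  L.B_eq hb hb' (mem_both hm h) (mem_both hm h')

lemma B_low : ∃ m0 : ℝ, 0 < m0 ∧ m0 ≤ 1 ∧ ∀ b ∈ L.B, m0 ≤ b.1 := by
  by_cases h : ∃ b ∈ L.B, b.1 < 1
  · obtain ⟨b, hb, h1⟩ := h
    refine ⟨b.1, (L.B_light hb).2, h1.le, fun b' hb' => ?_⟩
    by_cases h2 : b'.1 < 1
    · rw [L.B_eq hb hb' ⟨oo_mem, by rwa [lor_oo, neg_neg]⟩ ⟨oo_mem, by rwa [lor_oo, neg_neg]⟩]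
    · linarith
  · push Not at h
    exact ⟨1, one_pos, le_rfl, h⟩

lemma B_sep {b b' : Mink d} (hb : b ∈ L.B) (hb' : b' ∈ L.B) (h : b ≠ b') : 1 ≤ - lor b b' := by
  by_contra hc
  apply h
  obtain ⟨a1, a2⟩ := L.B_light hb
  obtain ⟨a3, a4⟩ := L.B_light hb'
  have a5 := lor_nonpos (L.B_fut hb) (L.B_fut hb')
  set δ := min (b'.1 / b.1 ^ 2) (b.1 / b'.1 ^ 2) with hδ
  have d0 : 0 < δ := lt_min (by positivity) (by positivity)
  have d1 : δ * b.1 ^ 2 ≤ b'.1 := (le_div_iff₀ (by positivity)).1 (min_le_left _ _)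
  have d2 : δ * b'.1 ^ 2 ≤ b.1 := (le_div_iff₀ (by positivity)).1 (min_le_right _ _)
  have e1 := mul_pos d0 a2
  have e2 := mul_pos d0 a4
  have e3 := mul_le_mul_of_nonneg_left d1 d0.le
  have e4 := mul_le_mul_of_nonneg_left d2 d0.le
  refine L.B_eq' (m := b + b' + δ • oo d) hb hb' (by simp; linarith) ?_ ?_ <;>
  simp only [lor_add_left, lor_add_right, lor_smul_left, lor_smul_right, a1, a3, lor_comm b' b,
    lor_comm _ (oo d), lor_oo] <;> nlinarith

end Cusp0

end Pool.Agent.Lib.MP_661727_gt
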