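import Mathlib

namespace Pool.Agent.Lib.MP_661727_gt

/-- The Lorentz form on Minkowski space of dimension `d + 1`. -/
def lor {d : ℕ} (x y : ℝ × (Fin d → ℝ)) : ℝ := x.2 ⬝ᵥ y.2 - x.1 * y.1

/-- Hyperbolic `d`-space (hyperboloid model); `- lor x y` is the `cosh` of the distance. -/
def Hyp (d : ℕ) : Set (ℝ × (Fin d → ℝ)) := {x | lor x x = -1 ∧ 0 < x.1}

/-- The open horoball of a future light-like vector. -/
def horoball {d : ℕ} (b : ℝ × (Fin d → ℝ)) : Set (ℝ × (Fin d → ℝ)) :=
  {x ∈ Hyp d | - lor x b < 1}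

/-- A complete non-compact hyperbolic `d`-manifold with toric cusps whose complement is compact. -/
structure Cusped (d : ℕ) where
  G : Type
  [grp : Group G]
  ρ : G →* Equiv.Perm (ℝ × (Fin d → ℝ))
  isom : ∀ g x y, lor (ρ g x) (ρ g y) = lor x y
  sheet : ∀ g, ∀ x ∈ Hyp d, ρ g x ∈ Hyp d
  free : ∀ g, ∀ x ∈ Hyp d, ρ g x = x → g = 1
  proper : ∀ R : ℝ, {g | (ρ g (1, 0)).1 ≤ R}.Finite
  C : Type
  fin : Finite C
  ne : Nonempty C
  b : C → ℝ × (Fin d → ℝ)
  light : ∀ c, lor (b c) (b c) = 0 ∧ 0 < (b c).1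
  disj : ∀ g c c', (horoball (ρ g (b c)) ∩ horoball (b c')).Nonempty → c = c' ∧ ρ g (b c) = b c
  cocompact : ∃ R : ℝ, ∀ x ∈ Hyp d, (∀ g c, x ∉ horoball (ρ g (b c))) → ∃ g, (ρ g x).1 ≤ R
  α : C → Multiplicative (Fin (d - 1) → ℤ) →* G
  α_inj : ∀ c, Function.Injective (α c)
  α_range : ∀ c g, g ∈ (α c).range ↔ ρ g (b c) = b c
  transl : ∀ c h v, lor v (b c) = 0 → ∃ t : ℝ, ρ (α c h) v = v + t • b c

attribute [instance] Cusped.grp

/-- Given finite index subgroups `A c` of the cusp groups, for all sufficiently divisible `k` some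
finite index normal subgroup meets each cusp group exactly in `k A c`. -/
def Cusped.Adapt {d : ℕ} (L : Cusped d) : Prop :=
  ∀ A : L.C → AddSubgroup (Fin (d - 1) → ℤ), (∀ c, (A c).FiniteIndex) → ∃ m : ℕ, 0 < m ∧
    ∀ k : ℕ, 0 < k → m ∣ k → ∃ H : Subgroup L.G, H.Normal ∧ H.FiniteIndex ∧
      ∀ c h, L.α c (Multiplicative.ofAdd h) ∈ H ↔ ∃ a ∈ A c, h = k • a

/-- Pieces and gluing pattern of a higher dimensional graph manifold of dimension `n`. -/
structure Pattern (n : ℕ) where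
  V : Type
  E : Type
  finV : Finite V
  finE : Finite E
  base : V
  d : V → ℕ
  hd : ∀ v, 3 ≤ d v ∧ d v ≤ n
  N : ∀ v, Cusped (d v)
  src : E → V
  tgt : E → V
  cs : ∀ e, (N (src e)).C
  ct : ∀ e, (N (tgt e)).C
  once : Function.Injective (Sum.elim (fun e => ⟨src e, cs e⟩) (fun e => ⟨tgt e, ct e⟩) :
    E ⊕ E → Σ v, (N v).C)
  conn : ∀ v, Relation.EqvGen (fun x y => ∃ e, src e = x ∧ tgt e = y) base v

namespace Pattern

variable {n : ℕ} (P : Pattern n)

/-- Fundamental group of the piece `v`: base group times fibre group. -/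
abbrev Piece (v : P.V) := (P.N v).G × Multiplicative (Fin (n - P.d v) → ℤ)

/-- Inclusion of the group (cusp group times fibre group) of the boundary torus at the cusp `c`. -/
def incl (v : P.V) (c : (P.N v).C) (w : (Fin (P.d v - 1) → ℤ) × (Fin (n - P.d v) → ℤ)) :
    P.Piece v :=
  ((P.N v).α c (Multiplicative.ofAdd w.1), Multiplicative.ofAdd w.2)

/-- Gluing maps on fundamental groups. -/
def Glue := ∀ e, (Fin (P.d (P.src e) - 1) → ℤ) × (Fin (n - P.d (P.src e)) → ℤ) ≃+
  (Fin (P.d (P.tgt e) - 1) → ℤ) × (Fin (n - P.d (P.tgt e)) → ℤ)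

variable {P} (ψ : P.Glue)

/-- The pairs of elements identified along the wall `e`. -/
def glued (e : P.E) : Set (P.Piece (P.src e) × P.Piece (P.tgt e)) :=
  Set.range fun w => (P.incl _ (P.cs e) w, P.incl _ (P.ct e) (ψ e w))

/-- Image of an element of the source fibre group in the target boundary group. -/
def fwd (e : P.E) (f : Fin (n - P.d (P.src e)) → ℤ) :
    (Fin (P.d (P.tgt e) - 1) → ℤ) × (Fin (n - P.d (P.tgt e)) → ℤ) := ψ e (0, f)

/-- Image of an element of the target fibre group in the source boundary group. -/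
def bwd (e : P.E) (f : Fin (n - P.d (P.tgt e)) → ℤ) :
    (Fin (P.d (P.src e) - 1) → ℤ) × (Fin (n - P.d (P.src e)) → ℤ) := (ψ e).symm (0, f)

/-- Irreducibility: the fibre groups of adjacent pieces meet trivially. -/
def Irred : Prop := ∀ e f, (fwd ψ e f).1 = 0 → f = 0

/-- Flip gluings: along each wall each fibre group goes into the cusp group of the other piece. -/
def Flip : Prop := ∀ e, (∀ f, (fwd ψ e f).2 = 0) ∧ ∀ f, (bwd ψ e f).2 = 0

end Pattern

/-- The map `β` extends along `j` to a split injective homomorphism. -/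
def Splits {k l : ℕ} (j : (Fin k → ℤ) →+ (Fin k → ℤ)) (β : (Fin k → ℤ) → (Fin l → ℤ)) : Prop :=
  ∃ (b : (Fin k → ℤ) →+ (Fin l → ℤ)) (r : (Fin l → ℤ) →+ (Fin k → ℤ)),
    (∀ x, r (b x) = x) ∧ ∀ f, b (j f) = β f

section

variable {V E : Type} {G : V → Type} [∀ v, Group (G v)] (src tgt : E → V)
  (R : ∀ e, Set (G (src e) × G (tgt e)))

/-- Relations of the path group: those of the vertex groups, and `t_e a t_e⁻¹ = b` for the glued
pairs `(a, b)`. -/
def rels : Set (FreeGroup ((Σ v, G v) ⊕ E)) :=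
  {x | ∃ (v : V) (a b : G v),
    x = .of (.inl ⟨v, a⟩) * .of (.inl ⟨v, b⟩) * (.of (.inl ⟨v, a * b⟩))⁻¹} ∪
  {x | ∃ e, ∃ p ∈ R e,
    x = .of (.inr e) * .of (.inl ⟨src e, p.1⟩) * (.of (.inr e))⁻¹ * (.of (.inl ⟨tgt e, p.2⟩))⁻¹}

/-- Image of an element of a vertex group in the path group. -/
def vx {v : V} (a : G v) : PresentedGroup (rels src tgt R) := .of (.inl ⟨v, a⟩)

/-- The letter of an edge. -/
def ed (e : E) : PresentedGroup (rels src tgt R) := .of (.inr e)

/-- Elements of the path group given by a path from `u` (words are read from right to left). -/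
inductive IsPath (u : V) : V → PresentedGroup (rels src tgt R) → Prop
  | one : IsPath u u 1
  | vx {v g} (a : G v) : IsPath u v g → IsPath u v (vx src tgt R a * g)
  | fwd {g} (e : E) : IsPath u (src e) g → IsPath u (tgt e) (ed src tgt R e * g)
  | bwd {g} (e : E) : IsPath u (tgt e) g → IsPath u (src e) ((ed src tgt R e)⁻¹ * g)

/-- The fundamental group of the graph of groups at `u`: the closed paths. -/
def pi1 (u : V) : Subgroup (PresentedGroup (rels src tgt R)) :=
  Subgroup.closure {g | IsPath src tgt R u u g}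

end

/-- The fundamental group of the graph manifold with pattern `P` and gluing maps `ψ`. -/
def Pattern.pi1 {n : ℕ} (P : Pattern n) (ψ : P.Glue) :=
  MP_661727_gt.pi1 (G := P.Piece) P.src P.tgt (Pattern.glued ψ) P.base

/-- Word length. -/
noncomputable def wlen {G : Type*} [Group G] (S : Finset G) (g : G) : ℕ :=
  sInf {k | ∃ l : List G, l.length = k ∧ (∀ x ∈ l, x ∈ S ∨ x⁻¹ ∈ S) ∧ l.prod = g}

/-- Quasi-isometry of finitely generated groups. -/
def QI (G G' : Type*) [Group G] [Group G'] : Prop :=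
  ∃ (S : Finset G) (S' : Finset G') (f : G → G') (K : ℕ),
    Subgroup.closure (S : Set G) = ⊤ ∧ Subgroup.closure (S' : Set G') = ⊤ ∧
    (∀ x y, wlen S' ((f x)⁻¹ * f y) ≤ K * wlen S (x⁻¹ * y) + K ∧
      wlen S (x⁻¹ * y) ≤ K * wlen S' ((f x)⁻¹ * f y) + K) ∧
    ∀ z, ∃ x, wlen S' ((f x)⁻¹ * z) ≤ K

/-- Quasi-isometry of two groups given as subgroups. -/
def SubQI {G G' : Type*} [Group G] [Group G'] (H : Subgroup G) (H' : Subgroup G') : Prop := QI H H'

end Pool.Agent.Lib.MP_661727_gt
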