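import Pool.Agent.Lib.MP_661727_gt.Geo

namespace Pool.Agent.Lib.MP_661727_gt

lemma lor_nondeg {d : ℕ} {x : Mink d} (h : ∀ y, lor x y = 0) : x = 0 := by
  have h1 := h (1, 0)
  have h2 := h (0, x.2)
  simp only [lor, dotProduct_zero, mul_one, zero_sub, neg_eq_zero, mul_zero, sub_zero] at h1 h2
  exact Prod.ext h1 (dotProduct_self_eq_zero.1 h2)

namespace Cusped

variable {d : ℕ} (L : Cusped d)

lemma ρ_add (g : L.G) (x y : Mink d) : L.ρ g (x + y) = L.ρ g x + L.ρ g y := by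
  rw [← sub_eq_zero]
  refine lor_nondeg fun z => ?_
  obtain ⟨z, rfl⟩ := (L.ρ g).surjective z
  simp only [lor_sub_left, lor_add_left, L.isom, sub_self]

lemma ρ_smul (g : L.G) (t : ℝ) (x : Mink d) : L.ρ g (t • x) = t • L.ρ g x := by
  rw [← sub_eq_zero]
  refine lor_nondeg fun z => ?_
  obtain ⟨z, rfl⟩ := (L.ρ g).surjective z
  simp only [lor_sub_left, lor_smul_left, L.isom, sub_self]

/-- the linear action -/
def lin : L.G →* (Mink d ≃ₗ[ℝ] Mink d) where
  toFun g := { L.ρ g with map_add' := L.ρ_add g, map_smul' := L.ρ_smul g }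
  map_one' := LinearEquiv.ext fun x => show L.ρ 1 x = x by simp
  map_mul' a b := LinearEquiv.ext fun x => show L.ρ (a * b) x = L.ρ a (L.ρ b x) by simp

lemma lin_inj : Function.Injective L.lin :=
  (injective_iff_map_eq_one _).2 fun g h => L.free g _ oo_mem (LinearEquiv.congr_fun h _)

/-- the same manifold, with a group of linear maps -/
def old : Cusp0 d where
  G := L.lin.range
  isom := by rintro _ ⟨g, rfl⟩; exact L.isom g
  sheet := by rintro _ ⟨g, rfl⟩; exact L.sheet g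
  free := by rintro _ ⟨g, rfl⟩ x hx h; rw [L.free g x hx h, map_one]
  proper R := ((L.proper R).image L.lin.rangeRestrict).subset (by
    rintro ⟨_, g, rfl⟩ h; exact ⟨g, h, rfl⟩)
  C := L.C
  fin := L.fin
  ne := L.ne
  b := L.b
  light := L.light
  disj := by rintro _ ⟨g, rfl⟩; exact L.disj g
  cocompact := by
    obtain ⟨R, h⟩ := L.cocompact
    refine ⟨R, fun x hx h' => ?_⟩
    obtain ⟨g, hg⟩ := h x hx fun g => h' _ ⟨g, rfl⟩
    exact ⟨_, ⟨g, rfl⟩, hg⟩
  α c := L.lin.rangeRestrict.comp (L.α c)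
  α_inj c := (MonoidHom.rangeRestrict_injective_iff.2 L.lin_inj).comp (L.α_inj c)
  α_range := by
    rintro c ⟨_, g, rfl⟩
    refine Iff.trans ⟨?_, ?_⟩ (L.α_range c g)
    · rintro ⟨h, e⟩; exact ⟨h, L.lin_inj (congrArg Subtype.val e)⟩
    · rintro ⟨h, rfl⟩; exact ⟨h, rfl⟩
  transl := L.transl

theorem geo (σ : L.C → Zk (d - 1) →+ ℝ) :
    ∃ F : L.G → ℝ, (∀ δ, ∃ K, ∀ γ, |F (δ * γ) - F γ| ≤ K) ∧
      ∃ K, ∀ c h γ, |F (L.α c (Multiplicative.ofAdd h) * γ) - F γ - σ c h| ≤ K := by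
  obtain ⟨F, h1, K, h2⟩ := L.old.geo σ
  refine ⟨fun g => F (L.lin.rangeRestrict g), fun δ => ?_, K, fun c h γ => ?_⟩
  · obtain ⟨K, hK⟩ := h1 (L.lin.rangeRestrict δ)
    exact ⟨K, fun γ => by simp only [map_mul]; exact hK _⟩
  · simp only [map_mul]; exact h2 c h (L.lin.rangeRestrict γ)

end Cusped

end Pool.Agent.Lib.MP_661727_gt
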