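import Pool.Agent.Lib.MP_661727_gt.Tree
import Pool.Agent.Lib.MP_661727_gt.Old

namespace Pool.Agent.Lib.MP_661727_gt

lemma rev_le {d : ℕ} {x y : Mink d} (hx : x ∈ Hyp d) (hy : Fut y) : y.1 ≤ 2 * x.1 * (- lor x y) := by
  have h1 := dot_cs x.2 y.2
  have h2 := dot_nonneg x.2
  obtain ⟨a1, a2⟩ := hx
  obtain ⟨b1, b2⟩ := hy
  simp only [lor] at *
  have h4 : (x.2 ⬝ᵥ x.2) * (y.2 ⬝ᵥ y.2) ≤ (x.2 ⬝ᵥ x.2) * (y.1 * y.1) :=
    mul_le_mul_of_nonneg_left (by linarith) h2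
  have h5 : x.2 ⬝ᵥ x.2 = x.1 * x.1 - 1 := by linarith
  have h6 : 1 ≤ x.1 * x.1 := by linarith
  have : 2 * x.1 * (x.2 ⬝ᵥ y.2) ≤ (2 * (x.1 * x.1) - 1) * y.1 := by
    apply le_of_pow_le_pow_left₀ (n := 2) (by norm_num) (mul_nonneg (by linarith) b2.le)
    have h7 := mul_le_mul_of_nonneg_left (h1.trans h4) (show 0 ≤ 4 * (x.1 * x.1) by positivity)
    rw [h5] at h7
    nlinarith [mul_self_nonneg y.1]
  nlinarith

lemma fin_sep {X : Type} [PseudoMetricSpace X] {s : Set X} (hs : TotallyBounded s) {ε : ℝ}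
    (hε : 0 < ε) (h : ∀ x ∈ s, ∀ y ∈ s, dist x y < ε → x = y) : s.Finite := by
  obtain ⟨t, ht, hst⟩ := Metric.totallyBounded_iff.1 hs (ε / 2) (half_pos hε)
  refine (ht.biUnion (t := fun y => s ∩ Metric.ball y (ε / 2)) fun y _ =>
    Set.Subsingleton.finite fun a ha b hb => h a ha.1 b hb.1 ?_).subset fun x hx => ?_
  · have := dist_triangle_right a b y
    have h1 : dist a y < ε / 2 := ha.2
    have h2 : dist b y < ε / 2 := hb.2
    linarith
  · obtain ⟨y, hy, h1⟩ := Set.mem_iUnion₂.1 (hst hx)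
    exact Set.mem_biUnion hy ⟨hx, h1⟩

namespace Cusp0

variable {d : ℕ} (L : Cusp0 d)

lemma B_fin (M : ℝ) : {b ∈ L.B | b.1 ≤ M}.Finite := by
  have hn : ∀ b ∈ {b ∈ L.B | b.1 ≤ M}, ‖b‖ ≤ |M| := fun b hb => by
    obtain ⟨a1, a2⟩ := L.B_light hb.1
    have a3 := hb.2.trans (le_abs_self M)
    refine (Prod.norm_def b).trans_le (max_le (by rwa [Real.norm_eq_abs, abs_of_pos a2])
      ((pi_norm_le_iff_of_nonneg (abs_nonneg M)).2 fun i => ?_))
    have : b.2 i * b.2 i ≤ b.2 ⬝ᵥ b.2 :=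
      Finset.single_le_sum (f := fun i => b.2 i * b.2 i) (fun _ _ => mul_self_nonneg _)
        (Finset.mem_univ i)
    simp only [lor] at a1
    rw [Real.norm_eq_abs]
    exact (abs_le_of_sq_le_sq (by nlinarith) a2.le).trans a3
  refine fin_sep (ε := 1 / ((d + 1) * (|M| + 1))) ((isCompact_closedBall 0 |M|).totallyBounded.subset
    fun b hb => mem_closedBall_zero_iff.2 (hn b hb)) (by positivity) fun x hx y hy h => ?_
  by_contra hc
  have h1 := L.B_sep hx.1 hy.1 hc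
  have h2 : - lor x y = lor x (x - y) := by rw [lor_sub_right, (L.B_light hx.1).1]; ring
  rw [dist_eq_norm, lt_div_iff₀ (by positivity)] at h
  have h3 : ∀ u v : ℝ, ‖u‖ ≤ ‖x‖ → ‖v‖ ≤ ‖x - y‖ → |u * v| ≤ (|M| + 1) * ‖x - y‖ := fun u v hu hv => by
    rw [abs_mul]
    exact mul_le_mul (hu.trans ((hn x hx).trans (by linarith))) hv (abs_nonneg _) (by positivity)
  have h4 := abs_le.1 (h3 _ _ (norm_fst_le x) (norm_fst_le (x - y)))
  have h5 : x.2 ⬝ᵥ (x - y).2 ≤ ∑ _i : Fin d, (|M| + 1) * ‖x - y‖ := Finset.sum_le_sum fun i _ =>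
    (abs_le.1 (h3 _ _ ((norm_le_pi_norm x.2 i).trans (norm_snd_le x))
      ((norm_le_pi_norm (x - y).2 i).trans (norm_snd_le (x - y))))).2
  simp only [Finset.sum_const, Finset.card_univ, Fintype.card_fin, nsmul_eq_mul] at h5
  rw [h2, lor] at h1
  nlinarith [h4.1]

lemma fg : Group.FG L.G := by
  have := L.fin
  obtain ⟨R0, hR⟩ := L.cocompact
  obtain ⟨R, r1, r2⟩ : ∃ R : ℝ, R0 < R ∧ 1 < R := ⟨max R0 1 + 1, by
    linarith [le_max_left R0 1], by linarith [le_max_right R0 1]⟩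
  have ht : ∀ c b, ∃ t : L.G, (∃ g : L.G, g.1 b = L.b c) → t.1 b = L.b c := fun c b => by
    by_cases h : ∃ g : L.G, g.1 b = L.b c
    exacts [⟨h.choose, fun _ => h.choose_spec⟩, ⟨1, fun h' => absurd h' h⟩]
  choose t ht using ht
  obtain ⟨S0, s1, s2⟩ := Group.fg_iff.1 (inferInstance : Group.FG (Multiplicative (Zk (d - 1))))
  set H := Subgroup.closure ({g : L.G | (g.1 (1, 0)).1 ≤ 2 * R * R} ∪
    ⋃ c, (L.α c '' S0 ∪ t c '' {b ∈ L.B | b.1 ≤ 2 * R})) with hH
  refine Group.fg_iff.2 ⟨_, show H = ⊤ from ?_, (L.proper _).union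
    (Set.finite_iUnion fun c => (s2.image _).union ((L.B_fin _).image _))⟩
  have hα : ∀ c (g : L.G), g.1 (L.b c) = L.b c → g ∈ H := fun c g hg => by
    have : (L.α c).range ≤ H := by
      rw [MonoidHom.range_eq_map, ← s1, MonoidHom.map_closure]
      exact Subgroup.closure_mono fun x hx => Or.inr (Set.mem_iUnion.2 ⟨c, Or.inl hx⟩)
    exact this ((L.α_range c g).2 hg)
  let X : Set (Mink d) := {x | x.1 < R} ∪ ⋃ c, {x | - lor x (L.b c) < 1}
  have mix : ∀ (g : L.G) c, ∀ y ∈ Hyp d, y.1 < R → - lor (g.1 y) (L.b c) < 1 → g ∈ H := by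
    intro g c y hy h1 h2
    have b1 : (g⁻¹).1 (L.b c) ∈ L.B := ⟨_, (g⁻¹).2, c, rfl⟩
    rw [L.lor_inv] at h2
    have b2 := rev_le hy (L.B_fut b1)
    have b3 : t c ((g⁻¹).1 (L.b c)) ∈ H := Subgroup.subset_closure
      (Or.inr (Set.mem_iUnion.2 ⟨c, Or.inr ⟨_, ⟨b1, by nlinarith [hy.2]⟩, rfl⟩⟩))
    have b4 := hα c (t c ((g⁻¹).1 (L.b c)) * g⁻¹) (ht _ _ ⟨g, by simp⟩)
    simpa using H.mul_mem (H.inv_mem b4) b3
  have key : ∀ (g : L.G), ∀ y ∈ Hyp d, y ∈ X → g.1 y ∈ X → g ∈ H := by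
    intro g y hy h1 h2
    have hy' := L.sheet _ g.2 y hy
    rcases h1 with h1 | h1 <;> rcases h2 with h2 | h2
    · refine Subgroup.subset_closure (Or.inl ?_)
      have b1 := rev_le hy' (fut_of_hyp (L.sheet _ g.2 _ oo_mem))
      rw [L.isom _ g.2, lor_comm, lor_oo, neg_neg] at b1
      exact b1.trans (mul_le_mul (by linarith [show (g.1 y).1 < R from h2]) (le_of_lt h1) hy.2.le
        (by linarith))
    · obtain ⟨c, h2⟩ := Set.mem_iUnion.1 h2
      exact mix g c y hy h1 h2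
    · obtain ⟨c, h1⟩ := Set.mem_iUnion.1 h1
      exact H.inv_mem_iff.1 (mix g⁻¹ c _ hy' h2 (by simpa using h1))
    · obtain ⟨c, h1⟩ := Set.mem_iUnion.1 h1
      obtain ⟨c', h2⟩ := Set.mem_iUnion.1 h2
      exact hα c g (L.disj _ g.2 c c' ⟨g.1 y, ⟨hy', by rwa [L.isom _ g.2]⟩, hy', h2⟩).2
  let f : (Fin d → ℝ) → Mink d := fun u => (Real.sqrt (1 + u ⬝ᵥ u), u)
  have f1 : ∀ u, f u ∈ Hyp d := fun u => by
    have := dot_nonneg u
    exact ⟨by simp only [lor, f]; rw [Real.mul_self_sqrt (by linarith)]; ring,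
      Real.sqrt_pos.2 (by linarith)⟩
  have f2 : ∀ x ∈ Hyp d, f x.2 = x := fun x hx => by
    refine Prod.ext ?_ rfl
    have := hx.1
    simp only [lor] at this
    exact (Real.sqrt_eq_iff_mul_self_eq (by linarith [dot_nonneg x.2]) hx.2.le).2 (by linarith)
  have f3 : Continuous f := by simp only [f, dotProduct]; fun_prop
  have x1 : IsOpen X := (isOpen_lt continuous_fst continuous_const).union
    (isOpen_iUnion fun c => isOpen_lt (by simp only [lor, dotProduct]; fun_prop) continuous_const)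
  have op : ∀ A : Set L.G, IsOpen (⋃ g ∈ A, {u | g.1 (f u) ∈ X}) := fun A =>
    isOpen_biUnion fun g _ => x1.preimage
      (g.1.toLinearMap.continuous_of_finiteDimensional.comp f3)
  have cov : ∀ u, ∃ g : L.G, g.1 (f u) ∈ X := fun u => by
    by_cases h : ∀ g ∈ L.G, ∀ c, f u ∉ horoball (g (L.b c))
    · obtain ⟨g, hg, h1⟩ := hR _ (f1 u) h
      exact ⟨⟨g, hg⟩, Or.inl (h1.trans_lt r1)⟩
    · push Not at h
      obtain ⟨g, hg, c, h⟩ := h
      exact ⟨⟨g, hg⟩⁻¹, Or.inr (Set.mem_iUnion.2 ⟨c, by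
        have := h.2
        rwa [Set.mem_ofPred_eq, L.lor_inv, inv_inv]⟩)⟩
  have o1 : ∀ g : L.G, g.1 (f ((g⁻¹).1 (oo d)).2) ∈ X := fun g => by
    rw [f2 _ (L.sheet _ (g⁻¹).2 _ oo_mem)]
    exact Or.inl (by simpa using r2)
  rw [eq_top_iff]
  intro g _
  by_contra hg
  obtain ⟨u, -, h1, h2⟩ := isPreconnected_univ _ _ (op H) (op (H : Set L.G)ᶜ) (fun u _ => by
    obtain ⟨g, hg⟩ := cov u
    by_cases h : g ∈ H
    exacts [Or.inl (Set.mem_biUnion h hg), Or.inr (Set.mem_biUnion h hg)])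
    ⟨_, trivial, Set.mem_biUnion H.one_mem (o1 1)⟩ ⟨_, trivial, Set.mem_biUnion hg (o1 g)⟩
  obtain ⟨a, a1, a2⟩ := Set.mem_iUnion₂.1 h1
  obtain ⟨b, b1, b2⟩ := Set.mem_iUnion₂.1 h2
  have := key (b * a⁻¹) _ (L.sheet _ a.2 _ (f1 u)) a2 (by simpa using b2)
  exact b1 (by simpa using H.mul_mem this a1)

end Cusp0

lemma Cusped.fg {d : ℕ} (L : Cusped d) : Group.FG L.G :=
  have : Group.FG L.lin.range := L.old.fg
  Group.fg_of_surjective (f := (MonoidHom.ofInjective L.lin_inj).symm.toMonoidHom)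
    (MonoidHom.ofInjective L.lin_inj).symm.surjective

lemma pi1_fg {V E : Type} [Finite V] [Finite E] {src tgt : E → V} {G : V → Type} [∀ v, Group (G v)]
    (R : ∀ e, Set (G (src e) × G (tgt e))) (h : ∀ v, Group.FG (G v)) (u : V) :
    Group.FG (pi1 src tgt R u) := by
  choose S s1 s2 using fun v => Group.fg_iff.1 (h v)
  let r := ret src tgt R u
  let T : Set (PathGp src tgt R) := insert (r u) ((⋃ v, (fun a => r v * vx src tgt R a * (r v)⁻¹) '' S v)
    ∪ Set.range fun e => r (tgt e) * ed src tgt R e * (r (src e))⁻¹) ∩ pi1 src tgt R u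
  refine (Group.fg_iff_subgroup_fg _).2 ((Subgroup.fg_iff _).2 ⟨T, le_antisymm
    ((Subgroup.closure_le _).2 Set.inter_subset_right) ?_, Set.Finite.inter_of_left
    (((Set.finite_iUnion fun v => (s2 v).image _).union (Set.finite_range _)).insert _) _⟩)
  have hu : r u ∈ Subgroup.closure T :=
    Subgroup.subset_closure ⟨Or.inl rfl, mem_pi1.2 (ret_path IsPath.one)⟩
  have he : ∀ e g, IsPath src tgt R u (src e) g →
      r (tgt e) * ed src tgt R e * (r (src e))⁻¹ ∈ Subgroup.closure T := fun e g hg =>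
    Subgroup.subset_closure ⟨Or.inr (Or.inr ⟨e, rfl⟩), mem_pi1.2 (by
      rw [mul_assoc]; exact ((ret_path hg).symm.fwd e).trans (ret_path (hg.fwd e)))⟩
  have key : ∀ v g, IsPath src tgt R u v g → r v * g ∈ Subgroup.closure T := by
    intro v g hg
    induction hg with
    | one => simpa using hu
    | @vx v g a hg ih =>
      have : r v * vx src tgt R a * (r v)⁻¹ ∈ Subgroup.closure T := by
        have ha : a ∈ Subgroup.closure (S v) := by rw [s1]; trivial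
        induction ha using Subgroup.closure_induction with
        | mem x hx =>
          exact Subgroup.subset_closure ⟨Or.inr (Or.inl (Set.mem_iUnion.2 ⟨v, x, hx, rfl⟩)),
            mem_pi1.2 (by rw [mul_assoc]; exact ((ret_path hg).symm.vx x).trans (ret_path hg))⟩
        | one => simp [vx_one]
        | mul x y _ _ hx hy => simpa [vx_mul, mul_assoc] using mul_mem hx hy
        | inv x _ hx => simpa [vx_inv, mul_assoc] using inv_mem hx
      simpa [mul_assoc] using mul_mem this ih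
    | @fwd g e hg ih => simpa [mul_assoc] using mul_mem (he e g hg) ih
    | @bwd g e hg ih => simpa [mul_assoc] using mul_mem (inv_mem (he e _ (hg.bwd e))) ih
  intro g hg
  simpa using mul_mem (inv_mem hu) (key u g (mem_pi1.1 hg))

lemma Pattern.fg {n : ℕ} (P : Pattern n) (ψ : P.Glue) : Group.FG (P.pi1 ψ) :=
  have := P.finV
  have := P.finE
  pi1_fg _ (fun v => have := (P.N v).fg; inferInstance) _

end Pool.Agent.Lib.MP_661727_gt
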