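import Pool.Agent.Lib.MP_661727_gt.Shear
import Pool.Agent.Lib.MP_661727_gt.Old

namespace Pool.Agent.Lib.MP_661727_gt

open Multiplicative

lemma lattice {H0 F0 Λ0 H1 F1 Λ1 : Type} [AddCommGroup H0] [AddCommGroup F0] [AddCommGroup Λ0]
    [AddCommGroup H1] [AddCommGroup F1] [AddCommGroup Λ1] [IsAddTorsionFree H0]
    [IsAddTorsionFree H1] (ψ : H0 × F0 ≃+ H1 × F1) (j0 : F0 →+ Λ0) (j1 : F1 →+ Λ1)
    (i0 : ∀ l, ∃ N : ℕ, N ≠ 0 ∧ ∃ φ, j0 φ = N • l) (i1 : ∀ l, ∃ N : ℕ, N ≠ 0 ∧ ∃ φ, j1 φ = N • l)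
    (b0 : Λ0 →+ H1) (b1 : Λ1 →+ H0) (l0 : H1 →+ Λ0) (l1 : H0 →+ Λ1)
    (h0 : ∀ x, l0 (b0 x) = x) (h1 : ∀ x, l1 (b1 x) = x)
    (k0 : ∀ f, b0 (j0 f) = (ψ (0, f)).1) (k1 : ∀ f, b1 (j1 f) = (ψ.symm (0, f)).1) :
    ∃ (ψ' : H0 × Λ0 ≃+ H1 × Λ1) (σ0 : H0 →+ Λ0) (σ1 : H1 →+ Λ1),
      (∀ w, ψ' (w.1, j0 w.2 + σ0 w.1) = ((ψ w).1, j1 (ψ w).2 + σ1 (ψ w).1)) ∧
      (∀ x, (ψ' (0, x)).2 = 0) ∧ ∀ x, (ψ'.symm (0, x)).2 = 0 := by
  have main : ∀ {H0 F0 Λ0 H1 F1 Λ1 : Type} [AddCommGroup H0] [AddCommGroup F0] [AddCommGroup Λ0]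
      [AddCommGroup H1] [AddCommGroup F1] [AddCommGroup Λ1] [IsAddTorsionFree H0]
      (ψ : H0 × F0 ≃+ H1 × F1) (j0 : F0 →+ Λ0) (j1 : F1 →+ Λ1)
      (_ : ∀ l, ∃ N : ℕ, N ≠ 0 ∧ ∃ φ, j0 φ = N • l)
      (b0 : Λ0 →+ H1) (b1 : Λ1 →+ H0) (l0 : H1 →+ Λ0) (l1 : H0 →+ Λ1)
      (_ : ∀ x, l0 (b0 x) = x) (_ : ∀ x, l1 (b1 x) = x)
      (_ : ∀ f, b0 (j0 f) = (ψ (0, f)).1) (_ : ∀ f, b1 (j1 f) = (ψ.symm (0, f)).1) (h : H0) (x : Λ0),
      b1 (l1 h) + ((ψ.symm (b0 x + ((ψ (h, 0)).1 - b0 (l0 (ψ (h, 0)).1)), 0)).1 -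
        b1 (l1 (ψ.symm (b0 x + ((ψ (h, 0)).1 - b0 (l0 (ψ (h, 0)).1)), 0)).1)) = h := by
    intro H0 F0 Λ0 H1 F1 Λ1 _ _ _ _ _ _ _ ψ j0 j1 i0 b0 b1 l0 l1 h0 h1 k0 k1 h x
    let A : H1 →+ H0 := (AddMonoidHom.fst _ _).comp (ψ.symm.toAddMonoidHom.comp (AddMonoidHom.inl _ _))
    have hA : ∀ y, (ψ.symm (y, 0)).1 = A y := fun y => rfl
    have sp : ∀ w, A (ψ w).1 = w.1 - b1 (j1 (ψ w).2) := fun w => by
      rw [k1, ← hA, ← Prod.fst_sub, eq_comm]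
      congr 1
      apply ψ.injective
      ext <;> simp
    have z : ∀ y, A (b0 y) - b1 (l1 (A (b0 y))) = 0 := fun y => by
      obtain ⟨N, hN, φ, hφ⟩ := i0 y
      apply nsmul_right_injective hN
      simp only [smul_zero, smul_sub, ← map_nsmul, ← hφ, k0, sp]
      simp [h1]
    have z1 := z x
    have z2 := z (l0 (ψ (h, 0)).1)
    simp only [hA, map_add, map_sub, sp, h1]
    rw [sub_eq_zero] at z1 z2
    rw [← z1, ← z2]; abel
  let A : H0 →+ H1 := (AddMonoidHom.fst _ _).comp (ψ.toAddMonoidHom.comp (AddMonoidHom.inl _ _))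
  let A' : H1 →+ H0 := (AddMonoidHom.fst _ _).comp (ψ.symm.toAddMonoidHom.comp (AddMonoidHom.inl _ _))
  refine ⟨⟨⟨fun w => (b0 w.2 + (A w.1 - b0 (l0 (A w.1))), l1 w.1),
    fun w => (b1 w.2 + (A' w.1 - b1 (l1 (A' w.1))), l0 w.1), fun w => Prod.ext ?_ ?_,
    fun w => Prod.ext ?_ ?_⟩, fun a b => Prod.ext ?_ ?_⟩, l0.comp A, l1.comp A', fun w => Prod.ext ?_ ?_,
    fun x => by simp, fun x => by simp [AddEquiv.symm, Equiv.symm]⟩
  · exact main ψ j0 j1 i0 b0 b1 l0 l1 h0 h1 k0 k1 _ _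
  · simp [h0]
  · exact main ψ.symm j1 j0 i1 b1 b0 l1 l0 h1 h0 k1 k0 _ _
  · simp [h1]
  · simp; abel
  · simp
  · have : ψ w = ψ (w.1, 0) + ψ (0, w.2) := by rw [← map_add]; simp
    simp [k0, this, A]; abel
  · have : w = ψ.symm ((ψ w).1, 0) + ψ.symm (0, (ψ w).2) := by rw [← map_add]; simp
    have h2 := congrArg (fun x => l1 x.1) this
    simp only [Prod.fst_add, map_add, ← k1, h1] at h2
    simp [A', h2, add_comm]

lemma exists_ρ {k : ℕ} {j : Zk k →+ Zk k} (hj : Function.Injective j) :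
    (∀ l, ∃ N : ℕ, N ≠ 0 ∧ ∃ φ, j φ = N • l) ∧
    ∃ ρ : Zk k → Zk k, (Set.range fun l => l - j (ρ l)).Finite ∧ ∀ φ, ρ (j φ) = φ := by
  classical
  have h1 : Finite (Zk k ⧸ j.range) :=
    Submodule.finiteQuotientOfFreeOfRankEq (LinearMap.range j.toIntLinearMap)
      (LinearMap.finrank_range_of_inj hj)
  have h2 : j.range.FiniteIndex := AddSubgroup.finiteIndex_of_finite_quotient
  refine ⟨fun l => ⟨_, h2.index_ne_zero, j.range.nsmul_index_mem l⟩, ?_⟩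
  have h3 : ∀ l : Zk k, ∃ φ, l - j φ = (QuotientAddGroup.mk l : Zk k ⧸ j.range).out := fun l => by
    obtain ⟨⟨_, φ, rfl⟩, h⟩ := QuotientAddGroup.mk_out_eq_add j.range l
    exact ⟨-φ, by simp [h]⟩
  choose r hr using h3
  refine ⟨fun l => if h : l ∈ j.range then h.choose else r l,
    ((Set.finite_range fun q : Zk k ⧸ j.range => q.out).insert 0).subset ?_, fun φ => hj ?_⟩
  · rintro _ ⟨l, rfl⟩
    by_cases h : l ∈ j.range
    · exact Or.inl (by simp only [dif_pos h, h.choose_spec, sub_self])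
    · exact Or.inr ⟨_, by simp only [dif_neg h, hr]; rfl⟩
  · have h : j φ ∈ j.range := ⟨φ, rfl⟩
    simp only [dif_pos h, h.choose_spec]

lemma dep_ext {A B : Type} {Y : B → Type} [∀ b, Inhabited (Y b)] {s : A → B}
    (hs : Function.Injective s) (y : ∀ a, Y (s a)) : ∃ z : ∀ b, Y b, ∀ a, z (s a) = y a := by
  classical
  refine ⟨fun b => if h : ∃ a, s a = b then h.choose_spec ▸ y h.choose else default, fun a => ?_⟩
  have h : ∃ a', s a' = s a := ⟨a, rfl⟩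
  have key : ∀ a' (e : s a' = s a), (e ▸ y a' : Y (s a)) = y a := fun a' e => by
    obtain rfl := hs e; rfl
  simp only [dif_pos h]
  exact key _ _

lemma fin_box {k : ℕ} {X : Type} (g : X → Zk k) (h : ∀ i, ∃ K : ℝ, ∀ x, |(g x i : ℝ)| ≤ K) :
    (Set.range g).Finite := by
  choose K hK using h
  refine (Set.finite_Icc (fun i => -⌈K i⌉) fun i => ⌈K i⌉).subset ?_
  rintro _ ⟨x, rfl⟩
  have : ∀ i, |g x i| ≤ ⌈K i⌉ := fun i => by
    have := (hK i x).trans (Int.le_ceil _)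
    exact_mod_cast this
  exact ⟨fun i => (abs_le.1 (this i)).1, fun i => (abs_le.1 (this i)).2⟩

namespace Cusped

variable {d : ℕ} (L : Cusped d)

instance : Countable L.G := by
  have : (⋃ n : ℕ, {g : L.G | (L.ρ g (1, 0)).1 ≤ n}) = Set.univ :=
    Set.eq_univ_of_forall fun g => Set.mem_iUnion.2 (exists_nat_ge (L.ρ g (1, 0)).1)
  rw [← Set.countable_univ_iff, ← this]
  exact Set.countable_iUnion fun n => (L.proper n).countable

theorem geoZ {k : ℕ} (σ : L.C → Zk (d - 1) →+ Zk k) : ∃ f : L.G → Zk k, f 1 = 0 ∧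
    (∀ δ, (Set.range fun γ => f (δ * γ) - f γ).Finite) ∧
    ∀ c, (Set.range fun p : Zk (d - 1) × L.G =>
      f (L.α c (ofAdd p.1) * p.2) - f p.2 - σ c p.1).Finite := by
  choose F h1 K h2 using fun i : Fin k => L.geo fun c =>
    (Int.castAddHom ℝ).comp ((Pi.evalAddMonoidHom (fun _ => ℤ) i).comp (σ c))
  refine ⟨fun γ i => ⌊F i γ⌋ - ⌊F i 1⌋, by ext; simp, fun δ => fin_box _ fun i => ?_,
    fun c => fin_box _ fun i => ⟨K i + 1, fun p => ?_⟩⟩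
  · obtain ⟨K, hK⟩ := h1 i δ
    refine ⟨K + 1, fun γ => ?_⟩
    have a1 := abs_le.1 (hK γ)
    have a2 := Int.floor_le (F i γ)
    have a3 := Int.lt_floor_add_one (F i γ)
    have a4 := Int.floor_le (F i (δ * γ))
    have a5 := Int.lt_floor_add_one (F i (δ * γ))
    simp only [Pi.sub_apply, Int.cast_sub]
    rw [abs_le]; constructor <;> linarith [a1.1, a1.2]
  · have a1 := abs_le.1 (h2 i c p.1 p.2)
    have a2 := Int.floor_le (F i p.2)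
    have a3 := Int.lt_floor_add_one (F i p.2)
    have a4 := Int.floor_le (F i (L.α c (ofAdd p.1) * p.2))
    have a5 := Int.lt_floor_add_one (F i (L.α c (ofAdd p.1) * p.2))
    simp only [AddMonoidHom.comp_apply, Pi.evalAddMonoidHom_apply, Int.coe_castAddHom] at a1
    simp only [Pi.sub_apply, Int.cast_sub]
    rw [abs_le]; constructor <;> linarith [a1.1, a1.2]

end Cusped

theorem flip_ce {n : ℕ} (P : Pattern n) (ψ : P.Glue)
    (j : ∀ v, Zk (n - P.d v) →+ Zk (n - P.d v)) (hj : ∀ v, Function.Injective (j v))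
    (h0 : ∀ e, Splits (j (P.src e)) fun f => (Pattern.fwd ψ e f).1)
    (h1 : ∀ e, Splits (j (P.tgt e)) fun f => (Pattern.bwd ψ e f).1) :
    ∃ ψ' : P.Glue, Pattern.Flip ψ' ∧ CE (P.pi1 ψ) (P.pi1 ψ') := by
  have := P.finV
  have := P.finE
  choose b0 l0 p0 k0 using h0
  choose b1 l1 p1 k1 using h1
  choose i ρ hρ hρj using fun v => exists_ρ (hj v)
  choose ψ' σ0 σ1 a1 a2 using fun e => lattice (ψ e) (j _) (j _) (i _) (i _) (b0 e) (b1 e) (l0 e)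
    (l1 e) (p0 e) (p1 e) (k0 e) (k1 e)
  obtain ⟨σ, hσ⟩ := dep_ext (Y := fun p : Σ v, (P.N v).C => Zk (P.d p.1 - 1) →+ Zk (n - P.d p.1))
    P.once (fun x => match x with | .inl e => σ0 e | .inr e => σ1 e)
  choose f f1 f2 f3 using fun v => (P.N v).geoZ (k := n - P.d v) fun c => σ ⟨v, c⟩
  have e0 : ∀ e, σ ⟨P.src e, P.cs e⟩ = σ0 e := fun e => hσ (.inl e)
  have e1 : ∀ e, σ ⟨P.tgt e, P.ct e⟩ = σ1 e := fun e => hσ (.inr e)
  exact ⟨ψ', a2, shear (Γ := fun v => (P.N v).G) (F := fun v => Zk (n - P.d v))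
    (Λ := fun v => Zk (n - P.d v)) (H0 := fun e => Zk (P.d (P.src e) - 1))
    (H1 := fun e => Zk (P.d (P.tgt e) - 1)) P.base (fun e => (P.N _).α (P.cs e))
    (fun e => (P.N _).α (P.ct e))
    (fun e => (P.N _).α_inj _) (fun e => (P.N _).α_inj _) j hj ρ hρ hρj σ0 σ1 ψ ψ' a1 f f2 (f1 _)
    (fun e => by rw [← e0]; exact f3 _ (P.cs e)) (fun e => by rw [← e1]; exact f3 _ (P.ct e))⟩

end Pool.Agent.Lib.MP_661727_gt
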