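import Pool.Agent.Lib.MP_661727_gt.Cusp

namespace Pool.Agent.Lib.MP_661727_gt

namespace Cusp0

open Classical

variable {d : ℕ} (L : Cusp0 d) (S : Mink d → Mink d →ₗ[ℝ] ℝ) (C : ℝ)

/-- horospherical coordinate -/
noncomputable def sg (b x : Mink d) : ℝ := S b x / (- lor x b)

/-- thresholded horospherical displacement from the base point -/
noncomputable def gf (b x : Mink d) : ℝ := shrink (12 * C) (sg S b x - sg S b (oo d))

/-- sum over a family of horoballs -/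
noncomputable def rr (D : Set (Mink d)) (x : Mink d) : ℝ := ∑ᶠ b, if b ∈ D then gf S C b x else 0

variable {S C}

lemma sg_sq (hS : ∀ b ∈ L.B, ∀ u, lor u b = 0 → (S b u) ^ 2 ≤ C ^ 2 * lor u u) {b x y : Mink d}
    (hb : b ∈ L.B) (hx : Fut x) (hy : Fut y) (h1 : lor x b < 0) (h2 : lor y b < 0) :
    (sg S b x - sg S b y) ^ 2 ≤ C ^ 2 * (2 * (- lor x y) / ((- lor x b) * (- lor y b))) := by
  obtain ⟨a1, a2⟩ := horiz hx hy h1 h2
  have := (hS b hb _ a1).trans (mul_le_mul_of_nonneg_left a2 (sq_nonneg C))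
  rw [map_sub, map_smul, map_smul] at this
  simpa only [sg, div_eq_inv_mul, smul_eq_mul] using this

lemma act (hC : 0 < C) (hS : ∀ b ∈ L.B, ∀ u, lor u b = 0 → (S b u) ^ 2 ≤ C ^ 2 * lor u u)
    {b x : Mink d} (hb : b ∈ L.B) (hx : Fut x) (h1 : lor x b < 0) (h : gf S C b x ≠ 0) :
    72 * ((- lor x b) * b.1) < x.1 := by
  have a0 := (L.B_light hb).2
  have a1 := shrink_ne (by positivity) h
  have a2 := L.sg_sq hS hb hx (fut_of_hyp oo_mem) h1 (by rw [lor_oo]; linarith)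
  rw [lor_comm x (oo d), lor_oo, lor_oo, neg_neg, neg_neg] at a2
  have a3 : 0 < (- lor x b) * b.1 := mul_pos (by linarith) a0
  have a4 : C ^ 2 * 144 < C ^ 2 * (2 * x.1 / ((- lor x b) * b.1)) := by nlinarith
  have a5 := lt_of_mul_lt_mul_left a4 (sq_nonneg C)
  rw [lt_div_iff₀ a3] at a5
  linarith

lemma lac {b b' x : Mink d} (hb : b ∈ L.B) (hb' : b' ∈ L.B) (hx : Fut x) (h1 : lor x b < 0)
    (h2 : lor x b' < 0) (a1 : 72 * ((- lor x b) * b.1) < x.1) (a2 : 72 * ((- lor x b') * b'.1) < x.1)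
    (a3 : - lor x b ≤ 4 * - lor x b') (a4 : - lor x b' ≤ 4 * - lor x b) : b = b' := by
  set β := - lor x b with hβ
  set β' := - lor x b' with hβ'
  have p1 : 0 < β := by linarith
  have p2 := (L.B_light hb).2
  have p3 := (L.B_light hb').2
  have p4 := hx.2
  have p5 := hx.1
  set t := x.1 / (12 * β) with ht
  have p6 : 0 < t := by positivity
  have p7 : t * β = x.1 / 12 := by rw [ht]; field_simp
  have hN : 2 * x.1 ^ 2 ≤ - lor ((12 * β) • oo d + t • x) ((12 * β) • oo d + t • x) := by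
    simp only [lor_add_left, lor_add_right, lor_smul_left, lor_smul_right, lor_comm x (oo d), lor_oo]
    nlinarith [mul_nonneg (mul_self_nonneg t) (neg_nonneg.2 p5), mul_self_nonneg β]
  have key : ∀ z : ℝ, 0 ≤ z → z < x.1 → (-z) ^ 2 <
      - lor ((12 * β) • oo d + t • x) ((12 * β) • oo d + t • x) := by
    intro z z1 z2; nlinarith
  refine L.B_eq' (m := (12 * β) • oo d + t • x) hb hb' (by simp; positivity) ?_ ?_
  · have := key (12 * β * b.1 + t * β) (by positivity) (by nlinarith)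
    convert this using 2
    simp only [lor_add_left, lor_smul_left, lor_oo, hβ]; ring
  · have p8 : 0 < β' := by linarith
    have := key (12 * β * b'.1 + t * β') (by positivity) (by nlinarith)
    convert this using 2
    simp only [lor_add_left, lor_smul_left, lor_oo, hβ']; ring

lemma act_fin (hC : 0 < C) (hS : ∀ b ∈ L.B, ∀ u, lor u b = 0 → (S b u) ^ 2 ≤ C ^ 2 * lor u u)
    {D : Set (Mink d)} (hD : D ⊆ L.B) {x : Mink d} (hx : Fut x) {m : ℝ} (hm : 0 < m)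
    (h : ∀ b ∈ D, m ≤ - lor x b) :
    ∃ s : Finset (Mink d), (∀ b, b ∈ s ↔ b ∈ D ∧ gf S C b x ≠ 0) ∧
      ∑ b ∈ s, 1 / Real.sqrt (- lor x b) ≤ 2 / Real.sqrt m := by
  obtain ⟨m0, c1, -, c2⟩ := L.B_low
  have hl : ∀ i ∈ {b | b ∈ D ∧ gf S C b x ≠ 0}, ∀ j ∈ {b | b ∈ D ∧ gf S C b x ≠ 0},
      Real.sqrt (- lor x i) ≤ 2 * Real.sqrt (- lor x j) →
      Real.sqrt (- lor x j) ≤ 2 * Real.sqrt (- lor x i) → i = j := by
    intro i hi j hj h1 h2
    have a1 := h i hi.1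
    have a2 := h j hj.1
    have a3 := Real.mul_self_sqrt (x := - lor x i) (by linarith)
    have a4 := Real.mul_self_sqrt (x := - lor x j) (by linarith)
    have a5 := Real.sqrt_nonneg (- lor x i)
    have a6 := Real.sqrt_nonneg (- lor x j)
    exact L.lac (hD hi.1) (hD hj.1) hx (by linarith) (by linarith)
      (L.act hC hS (hD hi.1) hx (by linarith) hi.2) (L.act hC hS (hD hj.1) hx (by linarith) hj.2)
      (by nlinarith) (by nlinarith)
  have hlow : ∀ i ∈ {b | b ∈ D ∧ gf S C b x ≠ 0}, Real.sqrt m ≤ Real.sqrt (- lor x i) :=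
    fun i hi => Real.sqrt_le_sqrt (h i hi.1)
  have hfin := lac_fin (fun b => Real.sqrt (- lor x b)) _ hl (M := Real.sqrt (x.1 / m0))
    (Real.sqrt_pos.2 hm) hlow fun i hi => Real.sqrt_le_sqrt (by
      have a1 := h i hi.1
      have a2 := L.act hC hS (hD hi.1) hx (by linarith) hi.2
      have a3 := c2 i (hD hi.1)
      rw [le_div_iff₀ c1]
      nlinarith)
  exact ⟨hfin.toFinset, fun b => by simp, lac_sum _ _
    (fun i hi j hj => hl i (hfin.mem_toFinset.1 hi) j (hfin.mem_toFinset.1 hj)) _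
    (Real.sqrt_pos.2 hm) fun i hi => hlow i (hfin.mem_toFinset.1 hi)⟩

lemma move (hC : 0 < C) (hS : ∀ b ∈ L.B, ∀ u, lor u b = 0 → (S b u) ^ 2 ≤ C ^ 2 * lor u u)
    {D : Set (Mink d)} (hD : D ⊆ L.B) {x y : Mink d} (hx : Fut x) (hy : Fut y) {m : ℝ} (hm : 0 < m)
    (h : ∀ b ∈ D, m ≤ - lor x b) (h' : ∀ b ∈ D, m ≤ - lor y b) :
    |rr S C D x - rr S C D y| ≤ 4 * C * Real.sqrt (2 * (- lor x y) / m) / Real.sqrt m := by
  obtain ⟨s, s1, s2⟩ := L.act_fin hC hS hD hx hm h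
  obtain ⟨t, t1, t2⟩ := L.act_fin hC hS hD hy hm h'
  have hxy := lor_nonpos hx hy
  set K := C * Real.sqrt (2 * (- lor x y) / m) with hK
  have hK0 : 0 ≤ K := by positivity
  have e : ∀ z, (∀ b, b ∈ D ∧ gf S C b z ≠ 0 → b ∈ s ∪ t) → rr S C D z = ∑ b ∈ s ∪ t, gf S C b z := by
    intro z hz
    rw [rr, finsum_eq_sum_of_support_subset (s := s ∪ t)]
    · refine Finset.sum_congr rfl fun b hb => if_pos ?_
      rcases Finset.mem_union.1 hb with hb | hb
      exacts [((s1 b).1 hb).1, ((t1 b).1 hb).1]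
    · intro b hb
      apply hz
      by_cases h : b ∈ D
      · exact ⟨h, by simpa [h] using hb⟩
      · simp [h] at hb
  have one : ∀ {x y : Mink d}, Fut x → Fut y → lor x y ≤ 0 → ∀ b ∈ L.B, m ≤ - lor x b → m ≤ - lor y b →
      |gf S C b x - gf S C b y| ≤ C * Real.sqrt (2 * (- lor x y) / m) * (1 / Real.sqrt (- lor x b)) := by
    intro x y hx hy hxy b hb h1 h2
    refine (shrink_lip (by positivity) _ _).trans ?_
    have a1 := L.sg_sq hS hb hx hy (by linarith) (by linarith)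
    have a2 : 0 < - lor x b := by linarith
    rw [sub_sub_sub_cancel_right]
    apply abs_le_of_sq_le_sq' _ (by positivity) |> abs_le.2
    rw [mul_pow, mul_pow, Real.sq_sqrt (div_nonneg (by linarith) hm.le), div_pow, Real.sq_sqrt a2.le, one_pow, mul_assoc]
    refine a1.trans (mul_le_mul_of_nonneg_left ?_ (sq_nonneg C))
    rw [div_mul_div_comm, mul_one, mul_comm m]
    exact div_le_div_of_nonneg_left (by linarith) (by positivity)
      (mul_le_mul_of_nonneg_left h2 a2.le)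
  rw [e x fun b hb => Finset.mem_union_left _ ((s1 b).2 hb),
    e y fun b hb => Finset.mem_union_right _ ((t1 b).2 hb), ← Finset.sum_sub_distrib]
  refine (Finset.abs_sum_le_sum_abs _ _).trans ?_
  have b1 : ∑ b ∈ s, |gf S C b x - gf S C b y| ≤ K * (2 / Real.sqrt m) := by
    refine le_trans (Finset.sum_le_sum fun b hb => ?_) (by
      rw [← Finset.mul_sum]; exact mul_le_mul_of_nonneg_left s2 hK0)
    have := ((s1 b).1 hb).1
    exact one hx hy hxy b (hD this) (h b this) (h' b this)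
  have b2 : ∑ b ∈ t, |gf S C b x - gf S C b y| ≤ K * (2 / Real.sqrt m) := by
    refine le_trans (Finset.sum_le_sum fun b hb => ?_) (by
      rw [← Finset.mul_sum]; exact mul_le_mul_of_nonneg_left t2 hK0)
    have := ((t1 b).1 hb).1
    rw [abs_sub_comm, hK, lor_comm x y]
    exact one hy hx (by rwa [lor_comm]) b (hD this) (h' b this) (h b this)
  have b3 := Finset.sum_union_inter (s₁ := s) (s₂ := t) (f := fun b => |gf S C b x - gf S C b y|)
  have b4 : 0 ≤ ∑ b ∈ s ∩ t, |gf S C b x - gf S C b y| := Finset.sum_nonneg fun _ _ => abs_nonneg _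
  have b5 : 4 * C * Real.sqrt (2 * (- lor x y) / m) / Real.sqrt m = 2 * (K * (2 / Real.sqrt m)) := by
    rw [hK]; ring
  linarith

lemma split (hC : 0 < C) (hS : ∀ b ∈ L.B, ∀ u, lor u b = 0 → (S b u) ^ 2 ≤ C ^ 2 * lor u u)
    {x b0 : Mink d} (hx : Fut x) {m : ℝ} (hm : 0 < m) (h : ∀ b ∈ L.B, m ≤ - lor x b)
    (hb : b0 ∈ L.B) : rr S C L.B x = gf S C b0 x + rr S C (L.B \ {b0}) x := by
  obtain ⟨s, s1, -⟩ := L.act_fin hC hS subset_rfl hx hm h
  have e : ∀ D ⊆ L.B, rr S C D x = ∑ b ∈ insert b0 s, if b ∈ D then gf S C b x else 0 := by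
    intro D hD
    rw [rr, finsum_eq_sum_of_support_subset]
    intro b hb
    by_cases h : b ∈ D
    · exact Finset.mem_insert_of_mem ((s1 b).2 ⟨hD h, by simpa [h] using hb⟩)
    · simp [h] at hb
  rw [e _ subset_rfl, e _ Set.sdiff_subset, ← Finset.add_sum_erase _ _ (Finset.mem_insert_self b0 s),
    ← Finset.add_sum_erase _ _ (Finset.mem_insert_self b0 s), if_pos hb, if_neg (by simp), zero_add]
  congr 1
  refine Finset.sum_congr rfl fun b hb => ?_
  simp [(Finset.mem_erase.1 hb).1]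

lemma horoball_ne {b : Mink d} (hb : b ∈ L.B) : ∃ x, x ∈ horoball b := by
  obtain ⟨h1, h2⟩ := L.B_light hb
  refine ⟨_, mem_both (m := oo d + b.1 • b) (by simp; positivity) ?_⟩
  simp only [lor_add_left, lor_add_right, lor_smul_left, lor_smul_right, h1, lor_comm b (oo d), lor_oo]
  nlinarith

theorem geo (σ : L.C → Zk (d - 1) →+ ℝ) :
    ∃ F : L.G → ℝ, (∀ δ, ∃ K, ∀ γ, |F (δ * γ) - F γ| ≤ K) ∧
      ∃ K, ∀ c h γ, |F (L.α c (Multiplicative.ofAdd h) * γ) - F γ - σ c h| ≤ K := by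
  have := L.fin
  choose S0 hS1 hS2 using fun c => L.exists_S c (σ c)
  choose C0 hC0 using fun c => lin_bound (L.light c).1 (L.light c).2 (S0 c) (hS1 c)
  obtain ⟨C, hC, hC1⟩ : ∃ C : ℝ, 0 < C ∧ ∀ c u, lor u (L.b c) = 0 → (S0 c u) ^ 2 ≤ C ^ 2 * lor u u := by
    obtain ⟨M, hM⟩ := (Set.finite_range C0).bddAbove
    refine ⟨|M| + 1, by positivity, fun c u hu => (hC0 c u hu).trans ?_⟩
    have a1 : C0 c ≤ M := hM ⟨c, rfl⟩
    have a2 : 0 ≤ lor u u := by
      have hb := (L.light c).2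
      have h3 : lor (u - (u.1 / (L.b c).1) • L.b c) (u - (u.1 / (L.b c).1) • L.b c) = lor u u := by
        simp only [lor_sub_left, lor_sub_right, lor_smul_left, lor_smul_right, (L.light c).1, hu,
          lor_comm (L.b c) u]
        ring
      have h1 : (u - (u.1 / (L.b c).1) • L.b c).1 = 0 := by simp; field_simp; ring
      rw [← h3, lor, h1, mul_zero, sub_zero]
      exact dot_nonneg _
    refine mul_le_mul_of_nonneg_right ?_ a2
    nlinarith [le_abs_self M, abs_nonneg M]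
  have hch : ∀ b, b ∈ L.B → ∃ p : L.G × L.C, b = p.1.1 (L.b p.2) := by
    rintro b ⟨g, hg, c, rfl⟩; exact ⟨(⟨g, hg⟩, c), rfl⟩
  choose p hp using hch
  let S : Mink d → Mink d →ₗ[ℝ] ℝ := fun b =>
    if h : b ∈ L.B then S0 (p b h).2 ∘ₗ ((p b h).1⁻¹).1.toLinearMap else 0
  have hS : ∀ b ∈ L.B, ∀ u, lor u b = 0 → (S b u) ^ 2 ≤ C ^ 2 * lor u u := by
    intro b hb u hu
    simp only [S, dif_pos hb, LinearMap.comp_apply, LinearEquiv.coe_coe]
    rw [← L.isom _ ((p b hb).1⁻¹).2 u u]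
    apply hC1
    rw [L.lor_inv, inv_inv, ← hp b hb, hu]
  obtain ⟨m0, c1, c2, c3⟩ := L.B_low
  have hpt : ∀ γ : L.G, (γ⁻¹).1 (oo d) ∈ Hyp d := fun γ => L.sheet _ (γ⁻¹).2 _ oo_mem
  have hlow : ∀ γ : L.G, ∀ b ∈ L.B, m0 ≤ - lor ((γ⁻¹).1 (oo d)) b := by
    intro γ b hb
    rw [L.lor_inv, inv_inv, lor_oo, neg_neg]
    exact c3 _ (L.B_map γ hb)
  refine ⟨fun γ => rr S C L.B ((γ⁻¹).1 (oo d)), fun δ => ⟨4 * C *
    Real.sqrt (2 * (- lor ((δ⁻¹).1 (oo d)) (oo d)) / m0) / Real.sqrt m0, fun γ => ?_⟩, ?_⟩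
  · have := L.move hC hS subset_rfl (fut_of_hyp (hpt (δ * γ))) (fut_of_hyp (hpt γ)) c1
      (hlow _) (hlow _)
    rwa [mul_inv_rev, Subgroup.coe_mul, LinearEquiv.mul_apply, L.isom _ (γ⁻¹).2,
      ← LinearEquiv.mul_apply, ← Subgroup.coe_mul, ← mul_inv_rev] at this
  obtain ⟨K, hK⟩ := (Set.finite_range fun c =>
    4 * C * Real.sqrt (2 * (L.b c).1 / m0) / Real.sqrt m0).bddAbove
  refine ⟨2 * K + 24 * C, fun c h γ => ?_⟩
  have hb0 : (γ⁻¹).1 (L.b c) ∈ L.B := ⟨_, (γ⁻¹).2, c, rfl⟩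
  set b0 := (γ⁻¹).1 (L.b c) with hb0'
  have hmove : ∀ k : Zk (d - 1), |rr S C (L.B \ {b0}) (((L.α c (Multiplicative.ofAdd k) * γ)⁻¹).1 (oo d)) -
      rr S C (L.B \ {b0}) b0| ≤ K := by
    intro k
    have := L.move hC hS (D := L.B \ {b0}) Set.sdiff_subset
      (fut_of_hyp (hpt (L.α c (Multiplicative.ofAdd k) * γ))) (L.B_fut hb0) c1
      (fun b hb => hlow _ b hb.1)
      (fun b hb => c2.trans (L.B_sep hb0 hb.1 fun h => hb.2 h.symm))
    refine this.trans (le_trans (le_of_eq ?_) (hK ⟨c, rfl⟩))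
    rw [mul_inv_rev, Subgroup.coe_mul, LinearEquiv.mul_apply, hb0', L.isom _ (γ⁻¹).2, ← map_inv,
      L.lor_α, lor_oo, neg_neg]
  have hsg : ∃ z : ℝ, ∀ k : Zk (d - 1),
      sg S b0 (((L.α c (Multiplicative.ofAdd k) * γ)⁻¹).1 (oo d)) = z + σ c k := by
    obtain ⟨x, hx⟩ := L.horoball_ne hb0
    have hx' := hx
    rw [hp b0 hb0] at hx'
    obtain ⟨a1, a2⟩ := L.disj' γ⁻¹ (p b0 hb0).1 c (p b0 hb0).2 hx hx'
    obtain ⟨k', hk'⟩ := (L.α_range c _).2 a2
    refine ⟨S0 c (oo d) / (L.b c).1 - σ c k'.toAdd, fun k => ?_⟩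
    have e1 : ((p b0 hb0).1⁻¹).1 (((L.α c (Multiplicative.ofAdd k) * γ)⁻¹).1 (oo d)) =
        (L.α c (Multiplicative.ofAdd (k'.toAdd - k))).1 (oo d) := by
      rw [← LinearEquiv.mul_apply, ← Subgroup.coe_mul, mul_inv_rev, ← mul_assoc, ← hk', ← map_inv,
        ← map_mul]
      congr 3
    have e2 : lor (((L.α c (Multiplicative.ofAdd k) * γ)⁻¹).1 (oo d)) b0 = - (L.b c).1 := by
      rw [mul_inv_rev, Subgroup.coe_mul, LinearEquiv.mul_apply, hb0', L.isom _ (γ⁻¹).2, ← map_inv,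
        L.lor_α, lor_oo]
    have hb := (L.light c).2
    simp only [sg, S, dif_pos hb0, LinearMap.comp_apply, LinearEquiv.coe_coe, e1, e2, ← a1, hS2,
      lor_oo, map_sub, neg_neg]
    field_simp
    ring
  obtain ⟨z, hz⟩ := hsg
  have f1 := hmove h
  have f2 := hmove 0
  have f3 := hz h
  have f4 := hz 0
  rw [ofAdd_zero, map_one, one_mul] at f2 f4
  have f5 := shrink_close (T := 12 * C) (by positivity)
    (sg S b0 (((L.α c (Multiplicative.ofAdd h) * γ)⁻¹).1 (oo d)) - sg S b0 (oo d))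
  have f6 := shrink_close (T := 12 * C) (by positivity)
    (sg S b0 ((γ⁻¹).1 (oo d)) - sg S b0 (oo d))
  simp only
  rw [L.split hC hS (fut_of_hyp (hpt _)) c1 (hlow _) hb0,
    L.split hC hS (fut_of_hyp (hpt γ)) c1 (hlow _) hb0, gf, gf]
  rw [map_zero] at f4
  rw [abs_le] at *
  constructor <;> linarith [f1.1, f1.2, f2.1, f2.2, f5.1, f5.2, f6.1, f6.2]

end Cusp0

end Pool.Agent.Lib.MP_661727_gt
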