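import Pool.Agent.Lib.MP_661727_gt.Defs

namespace Pool.Agent.Lib.MP_661727_gt

/-- Minkowski space -/
abbrev Mink (d : ℕ) := ℝ × (Fin d → ℝ)

/-- free abelian group -/
abbrev Zk (k : ℕ) := Fin k → ℤ

/-- A complete non-compact hyperbolic `d`-manifold with toric cusps whose complement is compact. -/
structure Cusp0 (d : ℕ) where
  G : Subgroup (Mink d ≃ₗ[ℝ] Mink d)
  isom : ∀ g ∈ G, ∀ x y, lor (g x) (g y) = lor x y
  sheet : ∀ g ∈ G, ∀ x ∈ Hyp d, g x ∈ Hyp d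
  free : ∀ g ∈ G, ∀ x ∈ Hyp d, g x = x → g = 1
  proper : ∀ R : ℝ, {g : G | (g.1 (1, 0)).1 ≤ R}.Finite
  C : Type
  fin : Finite C
  ne : Nonempty C
  b : C → Mink d
  light : ∀ c, lor (b c) (b c) = 0 ∧ 0 < (b c).1
  disj : ∀ g ∈ G, ∀ c c', (horoball (g (b c)) ∩ horoball (b c')).Nonempty → c = c' ∧ g (b c) = b c
  cocompact : ∃ R : ℝ, ∀ x ∈ Hyp d, (∀ g ∈ G, ∀ c, x ∉ horoball (g (b c))) → ∃ g ∈ G, (g x).1 ≤ R
  α : C → Multiplicative (Zk (d - 1)) →* G
  α_inj : ∀ c, Function.Injective (α c)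
  α_range : ∀ c (g : G), g ∈ (α c).range ↔ g.1 (b c) = b c
  transl : ∀ c h v, lor v (b c) = 0 → ∃ t : ℝ, (α c h).1 v = v + t • b c

variable {d : ℕ}

lemma lor_comm (x y : Mink d) : lor x y = lor y x := by
  simp [lor, dotProduct_comm, mul_comm]

lemma lor_add_left (x y z : Mink d) : lor (x + y) z = lor x z + lor y z := by
  simp [lor, add_dotProduct]; ring

lemma lor_sub_left (x y z : Mink d) : lor (x - y) z = lor x z - lor y z := by
  simp [lor, sub_dotProduct]; ring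

lemma lor_smul_left (t : ℝ) (x z : Mink d) : lor (t • x) z = t * lor x z := by
  simp [lor, smul_dotProduct]; ring

lemma lor_add_right (x y z : Mink d) : lor z (x + y) = lor z x + lor z y := by
  simp only [lor_comm z, lor_add_left]

lemma lor_sub_right (x y z : Mink d) : lor z (x - y) = lor z x - lor z y := by
  simp only [lor_comm z, lor_sub_left]

lemma lor_smul_right (t : ℝ) (x z : Mink d) : lor z (t • x) = t * lor z x := by
  simp only [lor_comm z, lor_smul_left]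

/-- base point -/
abbrev oo (d : ℕ) : Mink d := (1, 0)

lemma lor_oo (x : Mink d) : lor (oo d) x = - x.1 := by simp [lor]

lemma oo_mem : oo d ∈ Hyp d := ⟨by simp [lor], by simp⟩

/-- future causal vectors -/
def Fut (x : Mink d) : Prop := lor x x ≤ 0 ∧ 0 < x.1

lemma fut_of_hyp {x : Mink d} (h : x ∈ Hyp d) : Fut x := ⟨by rw [h.1]; norm_num, h.2⟩

lemma dot_cs (x y : Fin d → ℝ) : (x ⬝ᵥ y) ^ 2 ≤ (x ⬝ᵥ x) * (y ⬝ᵥ y) := by
  have := Finset.sum_mul_sq_le_sq_mul_sq Finset.univ x y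
  simpa [dotProduct, sq] using this

lemma dot_nonneg (x : Fin d → ℝ) : 0 ≤ x ⬝ᵥ x := Finset.sum_nonneg fun _ _ => mul_self_nonneg _

lemma lor_nonpos {x y : Mink d} (hx : Fut x) (hy : Fut y) : lor x y ≤ 0 := by
  have h1 := dot_cs x.2 y.2
  have h2 := dot_nonneg x.2
  have h3 := dot_nonneg y.2
  obtain ⟨a1, a2⟩ := hx
  obtain ⟨b1, b2⟩ := hy
  simp only [lor] at *
  have h4 : (x.2 ⬝ᵥ x.2) * (y.2 ⬝ᵥ y.2) ≤ (x.1 * x.1) * (y.1 * y.1) :=
    mul_le_mul (by linarith) (by linarith) h3 (by positivity)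
  have : x.2 ⬝ᵥ y.2 ≤ x.1 * y.1 := by
    apply le_of_pow_le_pow_left₀ (n := 2) (by norm_num) (by positivity)
    nlinarith
  linarith

lemma lor_neg {x y : Mink d} (hx : x ∈ Hyp d) (hy : Fut y) : lor x y < 0 := by
  have h1 := dot_cs x.2 y.2
  have h2 := dot_nonneg x.2
  have h3 := dot_nonneg y.2
  obtain ⟨a1, a2⟩ := hx
  obtain ⟨b1, b2⟩ := hy
  simp only [lor] at *
  have h4 : (x.2 ⬝ᵥ x.2) * (y.2 ⬝ᵥ y.2) ≤ (x.2 ⬝ᵥ x.2) * (y.1 * y.1) :=
    mul_le_mul_of_nonneg_left (by linarith) h2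
  have h5 : 0 < y.1 * y.1 := by positivity
  have : x.2 ⬝ᵥ y.2 < x.1 * y.1 := by
    apply lt_of_pow_lt_pow_left₀ 2 (by positivity)
    nlinarith
  linarith

lemma mem_both {m b : Mink d} (hm : 0 < m.1) (h : (lor m b) ^ 2 < - lor m m) :
    (Real.sqrt (- lor m m))⁻¹ • m ∈ horoball b := by
  have h0 : 0 < - lor m m := (sq_nonneg _).trans_lt h
  have h1 := Real.sqrt_pos.2 h0
  have h2 := Real.mul_self_sqrt h0.le
  refine ⟨⟨?_, ?_⟩, ?_⟩
  · rw [lor_smul_left, lor_smul_right]; field_simp; nlinarith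
  · simp only [Prod.smul_fst, smul_eq_mul]; positivity
  · rw [lor_smul_left, ← mul_neg, inv_mul_lt_iff₀ h1, mul_one]
    apply lt_of_pow_lt_pow_left₀ 2 h1.le
    nlinarith

lemma horiz {x y b : Mink d} (hx : Fut x) (hy : Fut y) (h1 : lor x b < 0) (h2 : lor y b < 0) :
    lor ((- lor x b)⁻¹ • x - (- lor y b)⁻¹ • y) b = 0 ∧
    lor ((- lor x b)⁻¹ • x - (- lor y b)⁻¹ • y) ((- lor x b)⁻¹ • x - (- lor y b)⁻¹ • y) ≤
      2 * (- lor x y) / ((- lor x b) * (- lor y b)) := by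
  have a1 : lor x b ≠ 0 := h1.ne
  have a2 : lor y b ≠ 0 := h2.ne
  constructor
  · rw [lor_sub_left, lor_smul_left, lor_smul_left]; field_simp; ring
  · simp only [lor_sub_left, lor_sub_right, lor_smul_left, lor_smul_right, lor_comm y x]
    have b1 : (- lor x b)⁻¹ * ((- lor x b)⁻¹ * lor x x) ≤ 0 := by
      rw [← mul_assoc]; exact mul_nonpos_of_nonneg_of_nonpos (mul_self_nonneg _) hx.1
    have b2 : (- lor y b)⁻¹ * ((- lor y b)⁻¹ * lor y y) ≤ 0 := by
      rw [← mul_assoc]; exact mul_nonpos_of_nonneg_of_nonpos (mul_self_nonneg _) hy.1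
    have b3 : 2 * (- lor x y) / ((- lor x b) * (- lor y b)) =
        - 2 * ((- lor x b)⁻¹ * ((- lor y b)⁻¹ * lor x y)) := by field_simp
    rw [b3]; nlinarith

lemma lin_bound {b : Mink d} (hb : lor b b = 0) (hb' : 0 < b.1) (S : Mink d →ₗ[ℝ] ℝ) (hS : S b = 0) :
    ∃ C : ℝ, ∀ u, lor u b = 0 → (S u) ^ 2 ≤ C * lor u u := by
  let s : Fin d → ℝ := fun i => S (0, Pi.single i 1)
  refine ⟨s ⬝ᵥ s, fun u hu => ?_⟩
  set w := u - (u.1 / b.1) • b with hw
  have h1 : w.1 = 0 := by simp [hw]; field_simp; ring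
  have h2 : S u = S w := by simp [hw, hS]
  have h3 : lor w w = lor u u := by
    simp only [hw, lor_sub_left, lor_sub_right, lor_smul_left, lor_smul_right, hb, hu, lor_comm b u]
    ring
  have h4 : S w = s ⬝ᵥ w.2 := by
    have : w = ∑ i, w.2 i • ((0, Pi.single i 1) : Mink d) := by
      ext i
      · simp [h1, Prod.fst_sum]
      · simp [Prod.snd_sum, Pi.single_apply]
    conv_lhs => rw [this]
    simp only [map_sum, map_smul, smul_eq_mul, dotProduct, s, mul_comm]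
  rw [h2, h4, ← h3]
  simpa [lor, h1] using dot_cs s w.2

lemma lac_sum {ι : Type*} (φ : ι → ℝ) (s : Finset ι)
    (h : ∀ i ∈ s, ∀ j ∈ s, φ i ≤ 2 * φ j → φ j ≤ 2 * φ i → i = j) :
    ∀ μ : ℝ, 0 < μ → (∀ i ∈ s, μ ≤ φ i) → ∑ i ∈ s, 1 / φ i ≤ 2 / μ := by
  classical
  induction s using Finset.strongInduction with
  | H s ih =>
    intro μ hμ h1
    rcases s.eq_empty_or_nonempty with rfl | hs
    · simp; positivity
    obtain ⟨i, hi, h2⟩ := s.exists_min_image φ hs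
    have h3 := h1 i hi
    have h4 := ih (s.erase i) (Finset.erase_ssubset hi)
      (fun a ha b hb => h a (Finset.mem_of_mem_erase ha) b (Finset.mem_of_mem_erase hb))
      (2 * φ i) (by linarith) fun j hj => by
        obtain ⟨a1, a2⟩ := Finset.mem_erase.1 hj
        by_contra hc
        exact a1 (h j a2 i hi (by linarith) (by have := h2 j a2; linarith))
    rw [← Finset.add_sum_erase s _ hi]
    have h5 : 0 < φ i := by linarith
    have h6 : 2 / (2 * φ i) = 1 / φ i := by field_simp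
    have h7 : 1 / φ i ≤ 1 / μ := one_div_le_one_div_of_le hμ h3
    have h8 : 2 / μ = 1 / μ + 1 / μ := by ring
    linarith

lemma lac_fin {ι : Type*} (φ : ι → ℝ) (A : Set ι)
    (h : ∀ i ∈ A, ∀ j ∈ A, φ i ≤ 2 * φ j → φ j ≤ 2 * φ i → i = j) {μ M : ℝ} (hμ : 0 < μ)
    (h1 : ∀ i ∈ A, μ ≤ φ i) (h2 : ∀ i ∈ A, φ i ≤ M) : A.Finite := by
  by_contra hA
  obtain ⟨i0, hi0⟩ := Set.Infinite.nonempty hA
  have hM : 0 < M := hμ.trans_le ((h1 i0 hi0).trans (h2 i0 hi0))
  obtain ⟨N, hN⟩ := exists_nat_gt (2 / μ * M)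
  obtain ⟨s, hs, hc⟩ := Set.Infinite.exists_subset_card_eq hA N
  have a1 := lac_sum φ s (fun i hi j hj => h i (hs hi) j (hs hj)) μ hμ fun i hi => h1 i (hs hi)
  have a2 := Finset.card_nsmul_le_sum s (fun i => 1 / φ i) (1 / M) fun i hi =>
    one_div_le_one_div_of_le (hμ.trans_le (h1 i (hs hi))) (h2 i (hs hi))
  rw [hc, nsmul_eq_mul, mul_one_div, div_le_iff₀ hM] at a2
  nlinarith

/-- soft threshold -/
noncomputable def shrink (T t : ℝ) : ℝ := t - max (-T) (min t T)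

lemma shrink_lip {T : ℝ} (hT : 0 ≤ T) (s t : ℝ) : |shrink T s - shrink T t| ≤ |s - t| := by
  simp only [shrink, max_def, min_def]
  rcases abs_cases (s - t) with h | h <;> split_ifs <;> rw [abs_le] <;> constructor <;> linarith

lemma shrink_close {T : ℝ} (hT : 0 ≤ T) (s : ℝ) : |shrink T s - s| ≤ T := by
  simp only [shrink, max_def, min_def]
  split_ifs <;> rw [abs_le] <;> constructor <;> linarith

lemma shrink_ne {T s : ℝ} (hT : 0 ≤ T) (h : shrink T s ≠ 0) : T ^ 2 < s ^ 2 := by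
  simp only [shrink, max_def, min_def] at h
  split_ifs at h with h1 h2 h3
  · simp at h
  · nlinarith
  · nlinarith
  · nlinarith

end Pool.Agent.Lib.MP_661727_gt
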