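import Pool.Agent.Lib.MP_661727_gt.NWarp
import Pool.Agent.Lib.MP_661727_gt.Old

open scoped ContDiff
open Finset Multiplicative Real

namespace Pool.Agent.Lib.MP_661727_gt

variable {d : ℕ}

lemma mem_hyp {x b : Mink d} (hb : Fut b) (h1 : lor x x = -1) (h2 : lor x b < 0) : x ∈ Hyp d := by
  refine ⟨h1, lt_of_not_ge fun h => ?_⟩
  rcases h.lt_or_eq with h | h
  · have := lor_neg (x := (-1 : ℝ) • x) ⟨by rw [lor_smul_left, lor_smul_right, h1]; norm_num,
      by simpa⟩ hb
    rw [lor_smul_left] at this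
    linarith
  · have := dot_nonneg x.2
    simp only [lor, h] at h1
    linarith

lemma space {x v : Mink d} (hx : x ∈ Hyp d) (h : lor x v = 0) (hv : v ≠ 0) : 0 < lor v v := by
  refine lt_of_not_ge fun h1 => ?_
  rcases lt_trichotomy v.1 0 with h2 | h2 | h2
  · have := lor_neg (y := (-1 : ℝ) • v) hx ⟨by rw [lor_smul_left, lor_smul_right]; linarith,
      by simpa⟩
    rw [lor_smul_right] at this
    linarith
  · simp only [lor, h2, mul_zero, sub_zero] at h1
    exact hv (Prod.ext h2 (dotProduct_self_eq_zero.1 (h1.antisymm (dot_nonneg _))))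
  · linarith [lor_neg hx ⟨h1, h2⟩]

lemma far {x p b : Mink d} (hx : x ∈ Hyp d) (hp : p ∈ Hyp d) (hb : Fut b) (h0 : lor b b = 0)
    (h1 : 1 ≤ - lor p b) (h2 : - lor x p < 2) : 1 / 4 < - lor x b := by
  have a1 := lor_neg hx hb
  have a2 : 0 ≤ lor (lor x b • p - lor p b • x) (lor x b • p - lor p b • x) := by
    refine le_of_not_gt fun h => ?_
    set v := lor x b • p - lor p b • x
    have hv : lor v b = 0 := by simp only [v, lor_sub_left, lor_smul_left]; ring
    have s := Real.sqrt_pos.2 (neg_pos.2 h)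
    have q := Real.mul_self_sqrt (neg_pos.2 h).le
    have e : lor ((√(- lor v v))⁻¹ • v) ((√(- lor v v))⁻¹ • v) = -1 := by
      rw [lor_smul_left, lor_smul_right]; field_simp; nlinarith
    have := space (v := b) (x := if 0 < v.1 then (√(- lor v v))⁻¹ • v else - (√(- lor v v))⁻¹ • v)
      (by
        split_ifs with h3
        · exact ⟨e, by simp only [Prod.smul_fst, smul_eq_mul]; positivity⟩
        · refine ⟨by simpa only [lor_smul_left, lor_smul_right, neg_mul, mul_neg, neg_neg] using e, ?_⟩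
          have : v.1 ≠ 0 := fun h4 => by
            simp only [lor, h4] at h
            linarith [dot_nonneg v.2]
          have := neg_pos.2 ((not_lt.1 h3).lt_of_ne this)
          simp only [Prod.smul_fst, smul_eq_mul, neg_mul, ← mul_neg]
          positivity)
      (by split_ifs <;> rw [lor_smul_left, hv, mul_zero]) (fun h => by simpa [h] using hb.2)
    linarith
  simp only [lor_sub_left, lor_sub_right, lor_smul_left, lor_smul_right, hx.1, hp.1,
    lor_comm p x] at a2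
  have a3 := mul_pos (neg_pos.2 a1) (zero_lt_one.trans_le h1)
  nlinarith

lemma fd_line {E F : Type} [NormedAddCommGroup E] [NormedSpace ℝ E] [NormedAddCommGroup F]
    [NormedSpace ℝ F] {φ : E → F} (h : ContDiff ℝ ∞ φ) {z u : E} {y : F}
    (hy : HasDerivAt (fun s : ℝ => φ (z + s • u)) y 0) : fderiv ℝ φ z u = y := by
  rw [← (h.differentiable (by simp) z).lineDeriv_eq_fderiv]
  exact HasLineDerivAt.lineDeriv hy

lemma pull_eq {E F : Type} [NormedAddCommGroup E] [NormedSpace ℝ E] [NormedAddCommGroup F]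
    [NormedSpace ℝ F] {φ : E → F} (h : ContDiff ℝ ∞ φ) (g : F → F → F → ℝ) (z u v : E) :
    pull g φ z u v = g (φ z) (fderiv ℝ φ z u) (fderiv ℝ φ z v) := by
  simp only [pull, (h.differentiable (by simp) z).lineDeriv_eq_fderiv]

namespace Cusped

variable (L : Cusped d)

lemma fut (c : L.C) : Fut (L.b c) := ⟨(L.light c).1.le, (L.light c).2⟩

lemma fix (c : L.C) (h : Zk (d - 1)) : L.ρ (L.α c (ofAdd h)) (L.b c) = L.b c :=
  (L.α_range c _).1 ⟨_, rfl⟩

lemma lorα (c : L.C) (h : Zk (d - 1)) (y : Mink d) :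
    lor (L.ρ (L.α c (ofAdd h)) y) (L.b c) = lor y (L.b c) := by
  conv_lhs => rw [← L.fix c h]
  exact L.isom _ _ _

/-- a frame at a cusp -/
structure Fr (c : L.C) where
  n : Mink d
  M : (Fin (d - 1) → ℝ) →ₗ[ℝ] Mink d
  S : Mink d →ₗ[ℝ] (Fin (d - 1) → ℝ)
  nn : lor n n = 0
  nb : lor n (L.b c) = -1
  Mb : ∀ p, lor (M p) (L.b c) = 0
  Mn : ∀ p, lor (M p) n = 0
  Sb : S (L.b c) = 0
  Sn : S n = 0
  SM : ∀ p, S (M p) = p
  Sα : ∀ h y, S (L.ρ (L.α c (ofAdd h)) y) = S y - lor y (L.b c) • fun i => (h i : ℝ)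
  dec : ∀ y, y = (- lor y (L.b c)) • n + (- lor y n) • L.b c + M (S y)

lemma exists_fr (hd : 1 ≤ d) (c : L.C) : Nonempty (L.Fr c) := by
  choose s s0 s1 using fun i : Fin (d - 1) => L.old.exists_S c
    (- (Int.castAddHom ℝ).comp (Pi.evalAddMonoidHom (fun _ => ℤ) i))
  obtain ⟨b0, b1⟩ := L.light c
  set b := L.b c with hb
  let x0 : Mink d := (b.1)⁻¹ • oo d
  have hx0 : lor x0 b = -1 := by
    simp only [x0, lor_smul_left, lor_oo]; field_simp
  let n := x0 + (lor x0 x0 / 2) • b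
  have nb : lor n b = -1 := by simp only [n, lor_add_left, lor_smul_left, hx0, b0]; ring
  have nn : lor n n = 0 := by
    simp only [n, lor_add_left, lor_add_right, lor_smul_left, lor_smul_right, hx0, b0, lor_comm b x0]
    ring
  clear_value n
  let lo : Mink d → Mink d →ₗ[ℝ] ℝ := fun y =>
    { toFun := fun x => lor x y, map_add' := fun _ _ => lor_add_left _ _ _,
      map_smul' := fun _ _ => lor_smul_left _ _ _ }
  let S0 : Mink d →ₗ[ℝ] (Fin (d - 1) → ℝ) := LinearMap.pi s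
  let S := S0 + (lo b).smulRight (S0 n)
  have hS : ∀ y, S y = S0 y + lor y b • S0 n := fun _ => rfl
  have Sb : S b = 0 := by rw [hS, b0, zero_smul, add_zero]; exact funext s0
  have Sn : S n = 0 := by rw [hS, nb]; simp
  have Sα : ∀ h y, S (L.ρ (L.α c (ofAdd h)) y) = S y - lor y b • fun i => (h i : ℝ) := fun h y => by
    rw [hS, hS, L.lorα]
    ext i
    have : s i (L.ρ (L.α c (ofAdd h)) y) = s i y + - (h i : ℝ) * lor y b := s1 i h y
    simp only [S0, Pi.add_apply, LinearMap.pi_apply, this, Pi.sub_apply, Pi.smul_apply, smul_eq_mul]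
    ring
  let w : Fin (d - 1) → Mink d := fun i => L.ρ (L.α c (ofAdd (Pi.single i 1))) n - n
  let M := Fintype.linearCombination ℝ fun i => w i + lor (w i) n • b
  have Mb : ∀ p, lo b (M p) = 0 := fun p => by
    rw [Fintype.linearCombination_apply, map_sum]
    refine sum_eq_zero fun i _ => ?_
    have : lor (L.ρ (L.α c (ofAdd (Pi.single i 1))) n) b = lor n b := L.lorα _ _ _
    change lor _ b = 0
    simp only [lor_smul_left, lor_add_left, w, lor_sub_left, this, b0]
    ring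
  have Mn : ∀ p, lo n (M p) = 0 := fun p => by
    rw [Fintype.linearCombination_apply, map_sum]
    refine sum_eq_zero fun i _ => ?_
    change lor _ n = 0
    simp only [lor_smul_left, lor_add_left, lor_comm b n, nb]
    ring
  have SM : ∀ p, S (M p) = p := fun p => by
    ext j
    simp [M, Fintype.linearCombination_apply, map_sum, w, Sα, Sb, Sn, nb, Pi.single_apply]
  let Θ : (ℝ × ℝ × (Fin (d - 1) → ℝ)) →ₗ[ℝ] Mink d :=
    (LinearMap.toSpanSingleton ℝ _ n).coprod ((LinearMap.toSpanSingleton ℝ _ b).coprod M)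
  have hΘ : ∀ z, Θ z = z.1 • n + z.2.1 • b + M z.2.2 := fun z => by simp [Θ, add_assoc]
  have inv : ∀ z, z = (- lor (Θ z) b, - lor (Θ z) n, S (Θ z)) := fun z => by
    have a1 : lor (M z.2.2) b = 0 := Mb _
    have a2 : lor (M z.2.2) n = 0 := Mn _
    simp [hΘ, lor_add_left, lor_smul_left, a1, a2, nb, b0, nn, lor_comm b n, Sb, Sn, SM]
  have surj : Function.Surjective Θ := (LinearMap.injective_iff_surjective_of_finrank_eq_finrank
    (by simp; omega)).1 fun z z' h => by rw [inv z, inv z', h]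
  refine ⟨⟨n, M, S, nn, nb, Mb, Mn, Sb, Sn, SM, Sα, fun y => ?_⟩⟩
  obtain ⟨z, rfl⟩ := surj y
  conv_lhs => rw [inv z, hΘ]

namespace Fr

variable {L} {c : L.C} (F : L.Fr c)

/-- horospherical coordinates -/
noncomputable def φ (t : ℝ) (p : Fin (d - 1) → ℝ) : Mink d :=
  exp t • F.n + ((exp (-t) + exp t * lor (F.M p) (F.M p)) / 2) • L.b c + exp t • F.M p

/-- the derivative of the horospherical coordinates -/
noncomputable def dφ (t : ℝ) (p : Fin (d - 1) → ℝ) (s : ℝ) (q : Fin (d - 1) → ℝ) : Mink d :=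
  (exp t * s) • F.n + ((- (exp (-t) * s) + (exp t * s * lor (F.M p) (F.M p) +
    exp t * (2 * lor (F.M p) (F.M q)))) / 2) • L.b c + (exp t • F.M q + (exp t * s) • F.M p)

/-- the derivative of the horizontal coordinate -/
noncomputable def D (x u : Mink d) : Fin (d - 1) → ℝ :=
  (- lor x (L.b c))⁻¹ • F.S u + (lor u (L.b c) / lor x (L.b c) ^ 2) • F.S x

lemma φb (t p) : lor (F.φ t p) (L.b c) = - exp t := by
  simp [φ, lor_add_left, lor_smul_left, F.nb, F.Mb, (L.light c).1]

lemma Sφ (t p) : F.S (F.φ t p) = exp t • p := by simp [φ, F.Sb, F.Sn, F.SM]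

lemma φ_mem (t p) : F.φ t p ∈ Hyp d := by
  refine mem_hyp (L.fut c) ?_ (by rw [φb]; exact neg_neg_of_pos (exp_pos t))
  simp only [φ, lor_add_left, lor_add_right, lor_smul_left, lor_smul_right, F.nb, F.Mb, F.Mn, F.nn,
    (L.light c).1, lor_comm (L.b c), lor_comm F.n (F.M _), exp_neg]
  field_simp
  ring

lemma lor_eq (x y : Mink d) : lor x y = - (lor x (L.b c) * lor y F.n) - lor x F.n * lor y (L.b c) +
    lor (F.M (F.S x)) (F.M (F.S y)) := by
  conv_lhs => rw [F.dec x, F.dec y]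
  simp only [lor_add_left, lor_add_right, lor_smul_left, lor_smul_right, F.nb, F.Mb, F.Mn, F.nn,
    (L.light c).1, lor_comm (L.b c), lor_comm F.n (F.M _)]
  ring

lemma ext {x y : Mink d} (hx : x ∈ Hyp d) (hy : y ∈ Hyp d) (h1 : lor x (L.b c) = lor y (L.b c))
    (h2 : F.S x = F.S y) : x = y := by
  have a1 := F.lor_eq x x
  have a2 := F.lor_eq y y
  rw [hx.1, h1, h2] at a1
  rw [hy.1] at a2
  have : lor x F.n = lor y F.n :=
    mul_left_cancel₀ (lor_neg hy (L.fut c)).ne (by linarith)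
  rw [F.dec x, h1, h2, this, ← F.dec y]

lemma surj {x : Mink d} (hx : x ∈ Hyp d) : ∃ t p, F.φ t p = x := by
  have h := neg_pos.2 (lor_neg hx (L.fut c))
  refine ⟨log (- lor x (L.b c)), (- lor x (L.b c))⁻¹ • F.S x, F.ext (F.φ_mem _ _) hx ?_ ?_⟩
  · rw [φb, exp_log h, neg_neg]
  · rw [Sφ, exp_log h, smul_inv_smul₀ h.ne']

lemma αφ (h : Zk (d - 1)) (t p) : L.ρ (L.α c (ofAdd h)) (F.φ t p) = F.φ t (p + fun i => (h i : ℝ)) :=
  F.ext (L.sheet _ _ (F.φ_mem _ _)) (F.φ_mem _ _) (by rw [L.lorα, φb, φb])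
    (by rw [F.Sα, φb, Sφ, Sφ, smul_add, neg_smul, sub_neg_eq_add])

lemma M_pos (p : Fin (d - 1) → ℝ) (hp : p ≠ 0) : 0 < lor (F.M p) (F.M p) := by
  refine space (F.φ_mem 0 0) ?_ fun h => hp (by rw [← F.SM p, h, map_zero])
  rw [lor_comm]
  simp only [φ, lor_add_right, lor_smul_right, F.Mb, F.Mn, map_zero, smul_zero, add_zero, mul_zero]

lemma lor_dφ (t p s q s' q') :
    lor (F.dφ t p s q) (F.dφ t p s' q') = s * s' + exp t ^ 2 * lor (F.M q) (F.M q') := by
  simp only [dφ, lor_add_left, lor_add_right, lor_smul_left, lor_smul_right, F.nb, F.Mb, F.Mn, F.nn,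
    (L.light c).1, lor_comm (L.b c), lor_comm F.n (F.M _), exp_neg, lor_comm (F.M q) (F.M p)]
  field_simp
  ring

lemma D_dφ (t p s q) : F.D (F.φ t p) (F.dφ t p s q) = q := by
  have : lor (F.dφ t p s q) (L.b c) = - (exp t * s) := by
    simp [dφ, lor_add_left, lor_smul_left, F.nb, F.Mb, (L.light c).1]
  rw [D, this, φb, Sφ]
  ext i
  simp [dφ, F.Sb, F.Sn, F.SM]
  field_simp
  ring

lemma D_α (h : Zk (d - 1)) {x : Mink d} (hx : x ∈ Hyp d) (u : Mink d) :
    F.D (L.ρ (L.α c (ofAdd h)) x) (L.ρ (L.α c (ofAdd h)) u) = F.D x u := by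
  have := (lor_neg hx (L.fut c)).ne
  ext i
  simp only [D, L.lorα, F.Sα, Pi.add_apply, Pi.smul_apply, Pi.sub_apply, smul_eq_mul]
  field_simp
  ring

variable (k : ℕ) (T : ℝ)

/-- the chart -/
noncomputable def κ (z : ℝ × Wall d k) : Tot d k := (F.φ (z.1 - T) z.2.1, z.2.2)

lemma κ_sm : ContDiff ℝ ∞ (F.κ k T) := by
  have h : ContDiff ℝ ∞ fun z : ℝ × Wall d k => F.M z.2.1 :=
    F.M.toContinuousLinearMap.contDiff.comp (by fun_prop)
  unfold κ φ lor dotProduct
  fun_prop

lemma κ_fd (z u : ℝ × Wall d k) :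
    fderiv ℝ (F.κ k T) z u = (F.dφ (z.1 - T) z.2.1 u.1 u.2.1, u.2.2) := by
  refine fd_line (F.κ_sm k T) (HasDerivAt.prodMk ?_ ?_)
  · have e : HasDerivAt (fun s : ℝ => z.1 + s * u.1 - T) u.1 0 := by
      simpa using (((hasDerivAt_id (0 : ℝ)).mul_const u.1).const_add z.1).sub_const T
    have e1 := e.exp
    have e2 := e.neg.exp
    have e3 : HasDerivAt (fun s : ℝ => F.M z.2.1 + s • F.M u.2.1) (F.M u.2.1) 0 := by
      simpa using ((hasDerivAt_id (0 : ℝ)).smul_const (F.M u.2.1)).const_add (F.M z.2.1)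
    have e4 : HasDerivAt (fun s : ℝ => lor (F.M z.2.1) (F.M z.2.1) + s * (2 * lor (F.M z.2.1)
        (F.M u.2.1)) + s * s * lor (F.M u.2.1) (F.M u.2.1)) (2 * lor (F.M z.2.1) (F.M u.2.1)) 0 := by
      simpa using (((hasDerivAt_id (0 : ℝ)).mul_const _).const_add _).fun_add
        (((hasDerivAt_id (0 : ℝ)).fun_mul (hasDerivAt_id (0 : ℝ))).mul_const _)
    have := ((e1.smul_const F.n).fun_add (((e2.fun_add (e1.fun_mul e4)).div_const 2).smul_const
      (L.b c))).fun_add (e1.fun_smul e3)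
    convert this using 1
    · ext1 s
      simp only [φ, Prod.fst_add, Prod.smul_fst, Prod.snd_add, Prod.smul_snd, smul_eq_mul, map_add,
        map_smul, lor_add_left, lor_add_right, lor_smul_left, lor_smul_right,
        lor_comm (F.M u.2.1) (F.M z.2.1), Pi.neg_apply]
      congr 5
      ring
    · simp [dφ]
  · simpa using ((hasDerivAt_id (0 : ℝ)).smul_const u.2.2).const_add z.2.2

end Fr

end Cusped

end Pool.Agent.Lib.MP_661727_gt
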