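import Pool.Agent.Lib.MP_661727_gt.Defs

open scoped ContDiff

namespace Pool.Agent.Lib.MP_661727_gt

section

variable {E F : Type} [NormedAddCommGroup E] [NormedSpace ℝ E] [NormedAddCommGroup F]
  [NormedSpace ℝ F]

/-- `G` is a smooth Riemannian metric of non-positive sectional curvature on the open set `U` of a
coordinate space; `Γ` is its Levi-Civita connection (symmetric and compatible with `G`). -/
def NonPos (U : Set E) (G : E → E → E → ℝ) : Prop :=
  IsOpen U ∧ ∃ Γ : E → E → E → E,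
    (∀ u v, ContDiffOn ℝ ∞ (fun z => G z u v) U ∧ ContDiffOn ℝ ∞ (fun z => Γ z u v) U) ∧
    ∀ z ∈ U, ∀ u, IsLinearMap ℝ (G z u) ∧ IsLinearMap ℝ (Γ z u) ∧ (u ≠ 0 → 0 < G z u u) ∧
      ∀ v, G z u v = G z v u ∧ Γ z u v = Γ z v u ∧
        (∀ w, lineDeriv ℝ (fun y => G y v w) z u = G z (Γ z u v) w + G z v (Γ z u w)) ∧
        G z (lineDeriv ℝ (fun y => Γ y v v) z u - lineDeriv ℝ (fun y => Γ y u v) z v +
          Γ z u (Γ z v v) - Γ z v (Γ z u v)) u ≤ 0

/-- Pull-back of the metric `g` (point, vector, vector) under `φ`. -/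
noncomputable def pull (g : F → F → F → ℝ) (φ : E → F) (z u v : E) : ℝ :=
  g (φ z) (lineDeriv ℝ φ z u) (lineDeriv ℝ φ z v)

end

/-- The space containing hyperbolic `d`-space times the universal cover of the fibre torus. -/
abbrev Tot (d k : ℕ) := (ℝ × (Fin d → ℝ)) × (Fin k → ℝ)

/-- The universal cover of a boundary torus, in the coordinates given by its lattice. -/
abbrev Wall (d k : ℕ) := (Fin (d - 1) → ℝ) × (Fin k → ℝ)

/-- Lattice points of the wall. -/
def lat {d k : ℕ} (a : (Fin (d - 1) → ℤ) × (Fin k → ℤ)) : Wall d k :=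
  (fun i => a.1 i, fun j => a.2 j)

namespace Cusped

variable {d : ℕ} (L : Cusped d) (k : ℕ)

/-- The universal cover of the piece: complement of the open horoballs, times `ℝ^k`. -/
def Core : Set (Tot d k) := {x | x.1 ∈ Hyp d ∧ ∀ γ c, x.1 ∉ horoball (L.ρ γ (L.b c))}

/-- Deck transformations of the piece. -/
def deck (γ : L.G) (f : Fin k → ℤ) (x : Tot d k) : Tot d k := (L.ρ γ x.1, x.2 + fun j => (f j : ℝ))

variable (g : Tot d k → Tot d k → Tot d k → ℝ)

/-- `g x u v` is invariant under the deck group, and near every point of the piece there is a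
smooth parametrisation in which it is a smooth metric of non-positive curvature. -/
def Metric : Prop :=
  (∀ γ f x u v, g (L.deck k γ f x) (L.ρ γ u.1, u.2) (L.ρ γ v.1, v.2) = g x u v) ∧
  ∀ x ∈ L.Core k, ∃ (φ : ℝ × Wall d k → Tot d k) (U : Set (ℝ × Wall d k)),
    x ∈ φ '' U ∧ ContDiff ℝ ∞ φ ∧ (∀ z, (φ z).1 ∈ Hyp d) ∧ NonPos U (pull g φ)

/-- Near the boundary component at the cusp `c` the metric is the product `dt² + h` of an interval
and the flat metric `h`, in a collar that is equivariant for the boundary lattice. -/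
def Collar (c : L.C) (h : Wall d k → Wall d k → ℝ) : Prop :=
  (∀ w, w ≠ 0 → 0 < h w w) ∧ ∃ (κ : ℝ × Wall d k → Tot d k) (ε : ℝ), 0 < ε ∧ ContDiff ℝ ∞ κ ∧
    Set.BijOn κ Set.univ {x | x.1 ∈ Hyp d} ∧ (∀ z, - lor (κ z).1 (L.b c) = Real.exp z.1) ∧
    (∀ t w a, κ (t, w + lat a) = L.deck k (L.α c (Multiplicative.ofAdd a.1)) a.2 (κ (t, w))) ∧
    (∀ z, 0 ≤ z.1 → z.1 < ε → κ z ∈ L.Core k) ∧
    ∀ z, |z.1| < ε → ∀ u v, pull g κ z u v = u.1 * v.1 + h u.2 v.2

end Cusped

/-- The graph manifold carries a Riemannian metric of non-positive sectional curvature that is a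
flat product near every boundary torus of every piece, the gluing maps being the affine isometries
`A` (in collar coordinates) that induce `ψ`. -/
def Pattern.NPC {n : ℕ} {P : Pattern n} (ψ : P.Glue) : Prop :=
  ∃ (g : ∀ v, Tot (P.d v) (n - P.d v) → Tot (P.d v) (n - P.d v) → Tot (P.d v) (n - P.d v) → ℝ)
    (h : ∀ v, (P.N v).C → Wall (P.d v) (n - P.d v) → Wall (P.d v) (n - P.d v) → ℝ),
    (∀ v, (P.N v).Metric _ (g v) ∧ ∀ c, (P.N v).Collar _ (g v) c (h v c)) ∧
    ∀ e, ∃ A : Wall (P.d (P.src e)) (n - P.d (P.src e)) → Wall (P.d (P.tgt e)) (n - P.d (P.tgt e)),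
      IsLinearMap ℝ A ∧ A.Bijective ∧ (∀ a, A (lat a) = lat (ψ e a)) ∧
        ∀ u w, h _ (P.ct e) (A u) (A w) = h _ (P.cs e) u w

end Pool.Agent.Lib.MP_661727_gt
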