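import Pool.Agent.Lib.MP_661727_gt.NPiece
import Pool.Agent.Lib.MP_661727_gt.Flip

open Finset

namespace Pool.Agent.Lib.MP_661727_gt

variable {d k d' k' : ℕ}

lemma lat_ext {V : Type} [AddCommGroup V] [Module ℝ V] {A B : Wall d k →ₗ[ℝ] V}
    (h : ∀ a, A (lat a) = B (lat a)) : A = B := by
  refine LinearMap.prod_ext (LinearMap.pi_ext' fun i => LinearMap.ext_ring ?_)
    (LinearMap.pi_ext' fun i => LinearMap.ext_ring ?_)
  · have : lat (d := d) (k := k) (Pi.single i 1, 0) = (Pi.single i 1, 0) := by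
      ext j <;> simp [lat, Pi.single_apply]
    exact (this ▸ h (Pi.single i 1, 0) :)
  · have : lat (d := d) (k := k) (0, Pi.single i 1) = (0, Pi.single i 1) := by
      ext j <;> simp [lat, Pi.single_apply]
    exact (this ▸ h (0, Pi.single i 1) :)

lemma exists_lin (η : Zk (d - 1) × Zk k →+ Zk (d' - 1) × Zk k') :
    ∃ B : Wall d k →ₗ[ℝ] Wall d' k', ∀ a, B (lat a) = lat (η a) := by
  let l : Zk (d' - 1) × Zk k' →+ Wall d' k' := AddMonoidHom.mk' lat fun a b => by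
    ext j <;> simp [lat]
  refine ⟨(Fintype.linearCombination ℝ fun i => l (η (Pi.single i 1, 0))).coprod
    (Fintype.linearCombination ℝ fun i => l (η (0, Pi.single i 1))), fun a => ?_⟩
  have : a = ∑ i, a.1 i • (Pi.single i 1, 0) + ∑ i, a.2 i • (0, Pi.single i 1) := by
    ext j <;> simp [Prod.fst_sum, Prod.snd_sum, Pi.single_apply]
  change _ = l (η a)
  conv_rhs => rw [this]
  simp only [map_add, map_sum, map_zsmul, LinearMap.coprod_apply, Fintype.linearCombination_apply,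
    lat, Int.cast_smul_eq_zsmul]

lemma exists_equiv (ψ : Zk (d - 1) × Zk k ≃+ Zk (d' - 1) × Zk k') (h1 : ∀ f, (ψ (0, f)).2 = 0)
    (h2 : ∀ f, (ψ.symm (0, f)).2 = 0) : ∃ A : Wall d k ≃ₗ[ℝ] Wall d' k',
      (∀ a, A (lat a) = lat (ψ a)) ∧ (∀ f, (A (0, f)).2 = 0) ∧ ∀ f, (A.symm (0, f)).2 = 0 := by
  obtain ⟨B, hB⟩ := exists_lin ψ.toAddMonoidHom
  obtain ⟨B', hB'⟩ := exists_lin ψ.symm.toAddMonoidHom
  have key : ∀ {d k d' k' : ℕ} (η : Zk (d - 1) × Zk k → Zk (d' - 1) × Zk k')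
      (B : Wall d k →ₗ[ℝ] Wall d' k'), (∀ a, B (lat a) = lat (η a)) → (∀ f, (η (0, f)).2 = 0) →
      ∀ f, (B (0, f)).2 = 0 := fun {d k _ _} η B h h' f =>
    LinearMap.congr_fun (lat_ext (d := d) (k := k) (A := LinearMap.snd ℝ _ _ ∘ₗ B ∘ₗ LinearMap.inr ℝ _ _ ∘ₗ
      LinearMap.snd ℝ _ _) (B := 0) fun a => by
        have := congrArg Prod.snd (h (0, a.2))
        simp only [lat, h', Pi.zero_apply, Int.cast_zero] at this
        exact this) (0, f)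
  exact ⟨LinearEquiv.ofLinear B B' (lat_ext fun a => by simp [hB, hB']) (lat_ext fun a => by
    simp [hB, hB']), hB, key _ B hB h1, key _ B' hB' h2⟩

/-- block forms -/
def Good (H : Wall d k →ₗ[ℝ] Wall d k →ₗ[ℝ] ℝ) : Prop :=
  (∀ w w', H w w' = H w' w) ∧ (∀ w, w ≠ 0 → 0 < H w w) ∧
    ∀ w w', H w w' = H (w.1, 0) (w'.1, 0) + w.2 ⬝ᵥ w'.2

/-- the standard form -/
def std (d k : ℕ) : Wall d k →ₗ[ℝ] Wall d k →ₗ[ℝ] ℝ :=
  LinearMap.mk₂ ℝ (fun w w' => w.1 ⬝ᵥ w'.1 + w.2 ⬝ᵥ w'.2) (fun _ _ _ => by simp; ring)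
    (fun _ _ _ => by simp; ring) (fun _ _ _ => by simp; ring) fun _ _ _ => by simp; ring

lemma std_apply (w w' : Wall d k) : std d k w w' = w.1 ⬝ᵥ w'.1 + w.2 ⬝ᵥ w'.2 := rfl

lemma good_std : Good (std d k) := by
  refine ⟨fun w w' => by simp only [std_apply, dotProduct_comm], fun w hw => ?_,
    fun w w' => by simp [std_apply]⟩
  have a := dot_nonneg w.1
  have b := dot_nonneg w.2
  refine (add_nonneg a b).lt_of_ne fun h => hw (Prod.ext (dotProduct_self_eq_zero.1 ?_)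
    (dotProduct_self_eq_zero.1 ?_)) <;> linarith

lemma exists_good (A : Wall d k ≃ₗ[ℝ] Wall d' k') (h1 : ∀ f, (A (0, f)).2 = 0)
    (h2 : ∀ f, (A.symm (0, f)).2 = 0) :
    ∃ H H', Good H ∧ Good H' ∧ ∀ u w, H' (A u) (A w) = H u w := by
  let p : Wall d' k' →ₗ[ℝ] Wall d k := A.symm.toLinearMap ∘ₗ LinearMap.inl ℝ _ _ ∘ₗ LinearMap.fst ℝ _ _
  let q : Wall d' k' →ₗ[ℝ] Wall d' k' := LinearMap.inr ℝ _ _ ∘ₗ LinearMap.snd ℝ _ _
  let H' := (std d k).compl₁₂ p p + (std d' k').compl₁₂ q q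
  have e : ∀ w w', H' w w' = std d k (A.symm (w.1, 0)) (A.symm (w'.1, 0)) + w.2 ⬝ᵥ w'.2 :=
    fun w w' => by simp [H', p, q, std_apply]
  have s : ∀ w w', H' w w' = H' w' w := fun w w' => by rw [e, e, good_std.1, dotProduct_comm]
  have o : ∀ w, w ≠ 0 → 0 < H' w w := fun w hw => by
    rw [e]
    by_cases h : w.1 = 0
    · have := good_std.2.1 w hw
      simpa [std_apply, h, show ((0, 0) : Wall d' k') = 0 from rfl] using this
    · exact add_pos_of_pos_of_nonneg (good_std.2.1 _ (by simpa using h)) (dot_nonneg _)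
  refine ⟨H'.compl₁₂ A A, H', ⟨fun _ _ => s _ _, fun w hw => o (A w) (by simpa), fun w w' => ?_⟩,
    ⟨s, o, fun w w' => by simp [e]⟩, fun _ _ => rfl⟩
  have a1 : ∀ u : Wall d k, (A u).2 = (A (u.1, 0)).2 := fun u => by
    rw [show u = (u.1, 0) + (0, u.2) by simp, map_add]
    simp [h1]
  have a2 : ∀ u : Wall d k, A.symm ((A u).1, 0) = (u.1 - (A.symm (0, (A (u.1, 0)).2)).1, u.2) :=
    fun u => by
      rw [show ((A u).1, 0) = A u - (0, (A u).2) by ext <;> simp, map_sub, A.symm_apply_apply, a1]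
      ext <;> simp [h2]
  change H' (A w) (A w') = H' (A (w.1, 0)) (A (w'.1, 0)) + _
  simp only [e, a2, std_apply, a1 w, a1 w', dotProduct_zero]
  ring

theorem flip_npc {n : ℕ} (P : Pattern n) (ψ : P.Glue) (hF : Pattern.Flip ψ) :
    ∃ (P' : Pattern n) (ψ' : P'.Glue), Pattern.NPC ψ' ∧
      ∀ (G : Type) [Group G], CE G (P.pi1 ψ) → CE G (P'.pi1 ψ') := by
  have := P.finV
  choose A A1 A2 A3 using fun e => exists_equiv (ψ e) (hF e).1 (hF e).2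
  choose H0 H1 g0 g1 g2 using fun e => exists_good (A e) (A2 e) (A3 e)
  have : ∀ p : Σ v, (P.N v).C, Inhabited {H : Wall (P.d p.1) (n - P.d p.1) →ₗ[ℝ]
    Wall (P.d p.1) (n - P.d p.1) →ₗ[ℝ] ℝ // Good H} := fun p => ⟨⟨_, good_std⟩⟩
  obtain ⟨H, hH⟩ := dep_ext (Y := fun p : Σ v, (P.N v).C => {H : Wall (P.d p.1) (n - P.d p.1) →ₗ[ℝ]
    Wall (P.d p.1) (n - P.d p.1) →ₗ[ℝ] ℝ // Good H}) P.once
    (fun x => match x with | .inl e => ⟨H0 e, g0 e⟩ | .inr e => ⟨H1 e, g1 e⟩)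
  have hd : ∀ v, 1 ≤ P.d v := fun v => by linarith [(P.hd v).1]
  choose ε0 e0 h using fun v => (P.N v).piece (hd v) (n - P.d v) (fun c => (H ⟨v, c⟩).1)
    (fun c => (H ⟨v, c⟩).2.1) (fun c => (H ⟨v, c⟩).2.2.1) fun c => (H ⟨v, c⟩).2.2.2
  obtain ⟨K, hK⟩ := Finite.exists_le fun v => (ε0 v)⁻¹
  have K0 := (inv_pos.2 (e0 P.base)).trans_le (hK _)
  choose T hT g h1 h2 using fun v => h v K⁻¹ (inv_pos.2 K0) (inv_le_of_inv_le₀ (e0 v) (hK v))
  refine ⟨{ P with N := fun v => (P.N v).deep (hd v) (T v) (hT v) }, ψ,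
    ⟨g, fun v c u w => K⁻¹ ^ 2 * (H ⟨v, c⟩).1 u w, fun v => ⟨h1 v, h2 v⟩, fun e =>
      ⟨A e, (A e).toLinearMap.isLinear, (A e).bijective, A1 e, fun u w => ?_⟩⟩,
    fun G _ h => h⟩
  have a0 : (H ⟨P.src e, P.cs e⟩).1 = H0 e := congrArg Subtype.val (hH (.inl e))
  have a1 : (H ⟨P.tgt e, P.ct e⟩).1 = H1 e := congrArg Subtype.val (hH (.inr e))
  change K⁻¹ ^ 2 * (H ⟨P.tgt e, P.ct e⟩).1 _ _ = K⁻¹ ^ 2 * (H ⟨P.src e, P.cs e⟩).1 _ _
  rw [a0, a1]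
  exact congrArg _ (g2 e u w)

end Pool.Agent.Lib.MP_661727_gt
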