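import Pool.Agent.Lib.MP_661727_gt.NChart

open scoped ContDiff
open Finset Multiplicative Real

namespace Pool.Agent.Lib.MP_661727_gt

variable {d : ℕ}

lemma warp' {k : ℕ} (N : (Fin (d - 1) → ℝ) ≃ₗ[ℝ] (Fin (d - 1) → ℝ)) (f : Fin (d - 1) → ℝ → ℝ)
    (hf : ∀ i, Adm (f i)) {ε : ℝ} (hε : 0 < ε) {U : Set (ℝ × Wall d k)} (hU : IsOpen U) :
    ∃ G : ℝ × Wall d k → ℝ × Wall d k →L[ℝ] ℝ × Wall d k →L[ℝ] ℝ, NonPos' U G ∧ ∀ z u v, G z u v =
      u.1 * v.1 + ∑ i, f i z.1 ^ 2 * (N u.2.1 i * N v.2.1 i) + ε ^ 2 * (u.2.2 ⬝ᵥ v.2.2) := by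
  obtain ⟨G, h1, h2⟩ := warp (E := ℝ × Wall d k) (ι := Fin (d - 1) ⊕ Fin k) (.fst ℝ _ _)
    (Sum.elim (fun i => LinearMap.toContinuousLinearMap
      (LinearMap.proj i ∘ₗ N.toLinearMap ∘ₗ LinearMap.fst ℝ _ _ ∘ₗ LinearMap.snd ℝ _ _))
      fun j => LinearMap.toContinuousLinearMap
        (LinearMap.proj j ∘ₗ LinearMap.snd ℝ _ _ ∘ₗ LinearMap.snd ℝ _ _)) (1, 0)
    (Sum.elim (fun i => (0, N.symm (Pi.single i 1), 0)) fun j => (0, 0, Pi.single j 1)) rfl
    (by rintro (i | i) <;> rfl) (by rintro (i | i) <;> simp)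
    (by rintro (i | i) (j | j) <;> simp [Pi.single_apply])
    (fun u a1 a2 => Prod.ext a1 (Prod.ext (N.map_eq_zero_iff.1 (funext fun i => a2 (.inl i)))
      (funext fun j => a2 (.inr j)))) (Sum.elim f fun _ _ => ε)
    (by rintro (i | i); exacts [hf i, adm_const hε]) hU
  refine ⟨G, h1, fun z u v => ?_⟩
  simp [h2, Fintype.sum_sum_type, dotProduct, mul_sum, add_assoc]

lemma ball_mono {T : ℝ} (hT : 0 ≤ T) {x b : Mink d} (h : x ∈ horoball (exp T • b)) :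
    x ∈ horoball b := by
  refine ⟨h.1, lt_of_not_ge fun h1 => ?_⟩
  have := h.2
  rw [lor_smul_right] at this
  nlinarith [one_le_exp hT]

namespace Cusped

variable (L : Cusped d)

lemma ρ_inv' (g : L.G) (x : Mink d) : L.ρ g (L.ρ g⁻¹ x) = x := by simp

lemma ball' (g : L.G) {b x : Mink d} (h : x ∈ horoball b) : L.ρ g x ∈ horoball (L.ρ g b) :=
  ⟨L.sheet _ _ h.1, by rw [L.isom]; exact h.2⟩

lemma ball0 {g : L.G} {b x : Mink d} (h : x ∈ horoball (L.ρ g b)) : L.ρ g⁻¹ x ∈ horoball b := by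
  simpa using L.ball' g⁻¹ h

/-- the same manifold with smaller horoballs -/
noncomputable def deep (hd : 1 ≤ d) (T : ℝ) (hT : 0 ≤ T) : Cusped d :=
  { L with
    b := fun c => exp T • L.b c
    light := fun c => ⟨by rw [lor_smul_left, lor_smul_right, (L.light c).1]; simp,
      mul_pos (exp_pos T) (L.light c).2⟩
    disj := fun g c c' ⟨x, h1, h2⟩ => by
      rw [L.ρ_smul] at h1 ⊢
      obtain ⟨a, b⟩ := L.disj g c c' ⟨x, ball_mono hT h1, ball_mono hT h2⟩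
      exact ⟨a, by rw [b]⟩
    cocompact := by
      obtain ⟨R, hR⟩ := L.cocompact
      have := L.fin
      have F := fun c => (L.exists_fr hd c).some
      choose K hK using fun c => ((isCompact_Icc (a := ((-T, 0, 0) : ℝ × Wall d 0))
        (b := (0, 1, 0))).image (((F c).κ_sm 0 0).continuous.fst.fst)).bddAbove
      obtain ⟨K0, h0⟩ := Finite.exists_le K
      refine ⟨max R K0, fun x hx h => ?_⟩
      by_cases h' : ∀ g c, x ∉ horoball (L.ρ g (L.b c))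
      · exact (hR x hx h').imp fun g hg => hg.trans (le_max_left _ _)
      push Not at h'
      obtain ⟨g, c, h'⟩ := h'
      obtain ⟨t, p, e⟩ := (F c).surj (L.ball0 h').1
      have a1 := (L.ball0 h').2
      have a2 : 1 ≤ - lor (L.ρ g⁻¹ x) (exp T • L.b c) := le_of_not_gt fun a =>
        h g c (by simpa using L.ball' g ⟨(L.ball0 h').1, a⟩)
      rw [lor_smul_right] at a2
      rw [← e, Fr.φb] at a1 a2
      rw [mul_neg, neg_neg, ← exp_add, one_le_exp_iff] at a2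
      rw [neg_neg, exp_lt_one_iff] at a1
      refine ⟨L.α c (ofAdd fun i => -⌊p i⌋) * g⁻¹, le_trans ?_ ((h0 c).trans (le_max_right _ _))⟩
      refine hK c ⟨(t, fun i => Int.fract (p i), 0), ⟨⟨by simp; linarith, fun i => Int.fract_nonneg _,
        le_rfl⟩, a1.le, fun i => (Int.fract_lt_one _).le, le_rfl⟩, ?_⟩
      rw [map_mul, Equiv.Perm.mul_apply, ← e, Fr.αφ]
      simp only [Fr.κ, Int.fract, Int.cast_neg, sub_eq_add_neg, neg_zero, add_zero]
      rfl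
    α_range := fun c g => by
      rw [L.ρ_smul, smul_right_inj (exp_pos T).ne']
      exact L.α_range c g
    transl := fun c h v hv => by
      rw [lor_smul_right, mul_eq_zero, or_iff_right (exp_pos T).ne'] at hv
      obtain ⟨t, ht⟩ := L.transl c h v hv
      exact ⟨t / exp T, by rw [ht, smul_smul, div_mul_cancel₀ _ (exp_pos T).ne']⟩ }

lemma exists_corr (q : L.C → Mink d → Mink d → Mink d → ℝ) (hq : ∀ c h, ∀ x ∈ Hyp d, ∀ u v,
    q c (L.ρ (L.α c (ofAdd h)) x) (L.ρ (L.α c (ofAdd h)) u) (L.ρ (L.α c (ofAdd h)) v) = q c x u v) :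
    ∃ r : Mink d → Mink d → Mink d → ℝ, (∀ γ x u v, r (L.ρ γ x) (L.ρ γ u) (L.ρ γ v) = r x u v) ∧
      (∀ c, ∀ x ∈ horoball (L.b c), ∀ u v, r x u v = q c x u v) ∧
      ∀ x u v, (∀ γ c, x ∉ horoball (L.ρ γ (L.b c))) → r x u v = 0 := by
  classical
  let r : Mink d → Mink d → Mink d → ℝ := fun x u v =>
    if h : ∃ p : L.G × L.C, x ∈ horoball (L.ρ p.1 (L.b p.2)) then
      q h.choose.2 (L.ρ h.choose.1⁻¹ x) (L.ρ h.choose.1⁻¹ u) (L.ρ h.choose.1⁻¹ v) else 0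
  have h0 : ∀ x u v, (∀ γ c, x ∉ horoball (L.ρ γ (L.b c))) → r x u v = 0 := fun x u v h =>
    dif_neg fun ⟨p, hp⟩ => h _ _ hp
  have h1 : ∀ γ c, ∀ x ∈ horoball (L.ρ γ (L.b c)), ∀ u v,
      r x u v = q c (L.ρ γ⁻¹ x) (L.ρ γ⁻¹ u) (L.ρ γ⁻¹ v) := fun γ c x hx u v => by
    have h : ∃ p : L.G × L.C, x ∈ horoball (L.ρ p.1 (L.b p.2)) := ⟨(γ, c), hx⟩
    simp only [r, dif_pos h]
    have := h.choose_spec
    generalize h.choose = p at this
    obtain ⟨g, c'⟩ := p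
    obtain ⟨rfl, a⟩ := L.disj (g⁻¹ * γ) c c' ⟨_, by simpa using L.ball' g⁻¹ hx, L.ball0 this⟩
    obtain ⟨a, ha⟩ := (L.α_range _ _).2 a
    rw [← hq c a.toAdd _ (L.ball0 hx).1, ofAdd_toAdd, ha]
    simp
  refine ⟨r, fun γ x u v => ?_, fun c x hx u v => by simpa using h1 1 c x (by simpa) u v, h0⟩
  by_cases h : ∀ g c, x ∉ horoball (L.ρ g (L.b c))
  · rw [h0 _ _ _ h, h0]
    exact fun g c a => h (γ⁻¹ * g) c (by simpa using L.ball' γ⁻¹ a)
  · push Not at h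
    obtain ⟨g, c, h⟩ := h
    rw [h1 g c x h, h1 (γ * g) c _ (by simpa using L.ball' γ h)]
    simp

theorem piece (hd : 1 ≤ d) (k : ℕ) (H : L.C → Wall d k →ₗ[ℝ] Wall d k →ₗ[ℝ] ℝ)
    (Hs : ∀ c w w', H c w w' = H c w' w) (Hp : ∀ c w, w ≠ 0 → 0 < H c w w)
    (Hb : ∀ c w w', H c w w' = H c (w.1, 0) (w'.1, 0) + w.2 ⬝ᵥ w'.2) :
    ∃ ε0 : ℝ, 0 < ε0 ∧ ∀ ε, 0 < ε → ε ≤ ε0 → ∃ (T : ℝ) (hT : 0 ≤ T)
      (g : Tot d k → Tot d k → Tot d k → ℝ), (L.deep hd T hT).Metric k g ∧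
        ∀ c, (L.deep hd T hT).Collar k g c fun u w => ε ^ 2 * H c u w := by
  have := L.fin
  have F := fun c => (L.exists_fr hd c).some
  let lo : Mink d →ₗ[ℝ] Mink d →ₗ[ℝ] ℝ :=
    LinearMap.mk₂ ℝ lor lor_add_left lor_smul_left (fun _ _ _ => lor_add_right _ _ _)
      fun _ _ _ => lor_smul_right _ _ _
  choose N μ μ0 hN using fun c => diag2 (lo.compl₁₂ (F c).M (F c).M)
    ((H c).compl₁₂ (LinearMap.inl ℝ _ _) (LinearMap.inl ℝ _ _)) (fun _ _ => lor_comm _ _) (F c).M_pos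
    (fun _ _ => Hs _ _ _) fun p hp => Hp c (p, 0) fun h => hp (congrArg Prod.fst h)
  have N1 : ∀ c p q, lor ((F c).M p) ((F c).M q) = N c p ⬝ᵥ N c q := fun c p q => (hN c p q).1
  have N2 : ∀ c p q, H c (p, 0) (q, 0) = _ := fun c p q => (hN c p q).2
  obtain ⟨f0, a, f1, a0, f2, f3⟩ := exists_f0
  obtain ⟨K, hK⟩ := Finite.exists_le fun p : L.C × Fin (d - 1) => μ p.1 p.2
  refine ⟨a * exp (-2) / (|K| + 1), by positivity, fun ε ε0 hε => ?_⟩
  let s : L.C → Fin (d - 1) → ℝ := fun c i => log (a / (ε * μ c i))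
  have s1 : ∀ c i, exp (- s c i) * a = ε * μ c i := fun c i => by
    have := μ0 c i
    rw [exp_neg, exp_log (by positivity)]
    field_simp
  have s2 : ∀ c i, 2 ≤ s c i := fun c i => by
    rw [le_div_iff₀ (by positivity)] at hε
    have : exp (- s c i) * a ≤ exp (-2) * a := by
      rw [s1]
      nlinarith [hK (c, i), le_abs_self K]
    linarith [exp_le_exp.1 (le_of_mul_le_mul_right this a0)]
  obtain ⟨T0, hT0⟩ := Finite.exists_le fun p : L.C × Fin (d - 1) => s p.1 p.2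
  obtain ⟨T, T1, T2⟩ : ∃ T, 1 ≤ T ∧ ∀ c i, s c i + 2 ≤ T :=
    ⟨|T0| + 2, by linarith [abs_nonneg T0], fun c i => by linarith [hT0 (c, i), le_abs_self T0]⟩
  let f : L.C → Fin (d - 1) → ℝ → ℝ := fun c i t => exp (- s c i) * f0 (t + s c i)
  obtain ⟨r, r1, r2, r3⟩ := L.exists_corr (fun c x u v => ∑ i, (f c i (log (- lor x (L.b c))) ^ 2 -
    lor x (L.b c) ^ 2) * (N c ((F c).D x u) i * N c ((F c).D x v) i)) fun c h x hx u v => by
      simp only [L.lorα, (F c).D_α h hx]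
  let g : Tot d k → Tot d k → Tot d k → ℝ := fun x u v =>
    lor u.1 v.1 + ε ^ 2 * (u.2 ⬝ᵥ v.2) + r x.1 u.1 v.1
  have inv : ∀ γ (y : Fin k → ℝ) x u v, g (L.ρ γ x.1, y) (L.ρ γ u.1, u.2) (L.ρ γ v.1, v.2) = g x u v :=
    fun γ y x u v => by simp only [g, r1, L.isom]
  have pb : ∀ c (z : ℝ × Wall d k), z.1 < T → ∀ u v, g ((F c).κ k T z) (fderiv ℝ ((F c).κ k T) z u)
      (fderiv ℝ ((F c).κ k T) z v) = u.1 * v.1 + ∑ i, f c i (z.1 - T) ^ 2 *
        (N c u.2.1 i * N c v.2.1 i) + ε ^ 2 * (u.2.2 ⬝ᵥ v.2.2) := fun c z hz u v => by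
    simp only [g, Fr.κ_fd, Fr.κ]
    rw [r2 c _ ⟨(F c).φ_mem _ _, by rw [Fr.φb, neg_neg, exp_lt_one_iff]; linarith⟩]
    simp only [Fr.D_dφ, Fr.lor_dφ, Fr.φb, neg_neg, log_exp, N1, neg_sq, sub_mul, sum_sub_distrib,
      dotProduct, mul_sum]
    ring
  have hT : 0 ≤ T := by linarith
  refine ⟨T, hT, g, ⟨fun γ y x u v => inv _ _ _ _ _, fun x hx => ?_⟩, fun c =>
    ⟨fun w hw => mul_pos (pow_pos ε0 2) (Hp c w hw), (F c).κ k T, 1, one_pos, (F c).κ_sm k T,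
      ⟨fun z _ => (F c).φ_mem _ _, fun z _ z' _ h => ?_, fun x hx => ?_⟩, fun z => ?_,
      fun t w a => ?_, fun z z0 z1 => ⟨(F c).φ_mem _ _, fun γ c' h => ?_⟩, fun z hz u v => ?_⟩⟩
  · by_cases h : ∀ γ c, x.1 ∉ horoball (L.ρ γ (L.b c))
    · obtain ⟨c⟩ := L.ne
      obtain ⟨t, p, e⟩ := (F c).surj hx.1
      have ct := ((F c).κ_sm k T).continuous
      obtain ⟨G, G1, G2⟩ := warp' (N c) (fun _ t => 1 * exp (t + -T)) (fun _ => adm_exp.shift one_pos _)
        ε0 (U := {z | - lor ((F c).κ k T z).1 x.1 < 2})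
        (isOpen_lt (by
          generalize (F c).κ k T = φ at ct
          unfold lor dotProduct
          fun_prop) continuous_const)
      have e' : (F c).κ k T (t + T, p, x.2) = x := by simp [Fr.κ, e]
      refine ⟨(F c).κ k T, _, ⟨_, ?_, e'⟩,
        (F c).κ_sm k T, fun z => (F c).φ_mem _ _, G1.to fun z hz u v => ?_⟩
      · simp only [Set.mem_setOf_eq, e', hx.1.1]
        norm_num
      rw [pull_eq ((F c).κ_sm k T)]
      have : ∀ u v, r ((F c).κ k T z).1 u v = 0 := fun u v => by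
        by_contra h0
        obtain ⟨γ, c', h1⟩ : ∃ γ c', ((F c).κ k T z).1 ∈ horoball (L.ρ γ (L.b c')) := by
          by_contra h1
          exact h0 (r3 _ _ _ fun γ c a => h1 ⟨γ, c, a⟩)
        have h2 := far (L.ball0 h1).1 (L.sheet γ⁻¹ _ hx.1) (L.fut c') (L.light c').1
          (le_of_not_gt fun a => h γ c' (by simpa using L.ball' γ ⟨L.sheet γ⁻¹ _ hx.1, a⟩))
          (by rw [L.isom]; exact hz)
        apply h0
        rw [← r1 γ⁻¹, r2 c' _ (L.ball0 h1)]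
        refine sum_eq_zero fun i _ => ?_
        generalize lor (L.ρ γ⁻¹ ((F c).κ k T z).1) (L.b c') = y at h2 ⊢
        have h3 : -2 ≤ log (-y) := by
          rw [le_log_iff_exp_le (by linarith), exp_neg, inv_le_comm₀ (exp_pos _) (by linarith)]
          have := add_one_le_exp 1
          rw [show (2 : ℝ) = 1 + 1 by norm_num, exp_add, inv_le_iff_one_le_mul₀ (by linarith)]
          nlinarith
        simp only [f]
        rw [f2 _ (by linarith [s2 c' i]), ← exp_add, show - s c' i + (log (-y) + s c' i) = log (-y) by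
          ring, exp_log (by linarith), neg_sq, sub_self, zero_mul]
      simp only [G2, g, this, Fr.κ_fd, Fr.lor_dφ, N1, dotProduct, mul_sum, one_mul, sub_eq_add_neg,
        add_zero]
    · push Not at h
      obtain ⟨γ, c, h⟩ := h
      obtain ⟨t, p, e⟩ := (F c).surj (L.ball0 h).1
      have a1 := (L.ball0 h).2
      rw [← e, Fr.φb, neg_neg, exp_lt_one_iff] at a1
      obtain ⟨G, G1, G2⟩ := warp' (k := k) (N c) (fun i t => exp (- s c i) * f0 (t + (s c i - T)))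
        (fun _ => f1.shift (exp_pos _) _) ε0 (U := {z | z.1 < T})
        (isOpen_lt continuous_fst continuous_const)
      let A : Tot d k →L[ℝ] Tot d k :=
        LinearMap.toContinuousLinearMap ((L.lin γ).toLinearMap.prodMap LinearMap.id)
      have hA : ∀ y, A y = (L.ρ γ y.1, y.2) := fun _ => rfl
      refine ⟨A ∘ (F c).κ k T, _, ⟨(t + T, p, x.2), ?_, by simp [hA, Fr.κ, e]⟩,
        A.contDiff.comp ((F c).κ_sm k T), fun z => L.sheet _ _ ((F c).φ_mem _ _),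
        G1.to fun z hz u v => ?_⟩
      · simpa using a1
      rw [pull_eq (A.contDiff.comp ((F c).κ_sm k T)), (A.hasFDerivAt.comp z (((F c).κ_sm k T).differentiable (by simp) z).hasFDerivAt).fderiv]
      simp only [Function.comp_apply, ContinuousLinearMap.comp_apply, hA, inv, pb c z hz, G2, f,
        add_sub_assoc', sub_add_eq_add_sub]
  · have a1 := (F c).φb (z.1 - T) z.2.1
    have a2 := (F c).Sφ (z.1 - T) z.2.1
    rw [show (F c).φ _ _ = _ from congrArg Prod.fst h] at a1 a2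
    have a3 : z'.1 = z.1 := by simpa [Fr.κ, Fr.φb] using a1
    rw [Fr.κ, Fr.Sφ, a3, smul_right_inj (exp_pos _).ne'] at a2
    exact Prod.ext a3.symm (Prod.ext a2.symm (congrArg (·.2) h :))
  · obtain ⟨t, p, e⟩ := (F c).surj hx
    exact ⟨(t + T, p, x.2), trivial, by simp [Fr.κ, e]⟩
  · change - lor ((F c).φ _ _) (exp T • L.b c) = _
    rw [lor_smul_right, Fr.φb, mul_neg, neg_neg, ← exp_add, add_sub_cancel]
  · exact Prod.ext ((F c).αφ a.1 _ _).symm rfl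
  · change (F c).φ _ _ ∈ horoball (L.ρ γ (exp T • L.b c')) at h
    rw [L.ρ_smul] at h
    obtain ⟨rfl, a⟩ := L.disj γ c' c ⟨_, ball_mono hT h, (F c).φ_mem _ _, by
      rw [Fr.φb, neg_neg, exp_lt_one_iff]; linarith⟩
    have := h.2
    rw [a, lor_smul_right, Fr.φb, mul_neg, neg_neg, ← exp_add, exp_lt_one_iff] at this
    linarith
  · obtain ⟨z0, z1⟩ := abs_lt.1 hz
    beta_reduce
    rw [pull_eq ((F c).κ_sm k T), pb c z (by linarith), Hb, N2, mul_add, add_assoc, mul_sum]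
    congr 2
    refine sum_congr rfl fun i _ => ?_
    simp only [f]
    rw [f3 _ (by linarith [T2 c i]), s1]
    ring

end Cusped

end Pool.Agent.Lib.MP_661727_gt
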