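import Pool.Agent.Lib.MP_661727_gt.NDefs

open scoped ContDiff
open Finset

namespace Pool.Agent.Lib.MP_661727_gt

/-- bundled form of `NonPos` -/
def NonPos' {E : Type} [NormedAddCommGroup E] [NormedSpace ℝ E] (U : Set E)
    (G : E → E →L[ℝ] E →L[ℝ] ℝ) : Prop :=
  IsOpen U ∧ ContDiff ℝ ∞ G ∧ ∃ Γ : E → E →L[ℝ] E →L[ℝ] E, ContDiff ℝ ∞ Γ ∧
    ∀ z ∈ U, (∀ u, u ≠ 0 → 0 < G z u u) ∧ ∀ u v, G z u v = G z v u ∧ Γ z u v = Γ z v u ∧
      (∀ w, fderiv ℝ G z u v w = G z (Γ z u v) w + G z v (Γ z u w)) ∧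
      G z (fderiv ℝ Γ z u v v - fderiv ℝ Γ z v u v + Γ z u (Γ z v v) - Γ z v (Γ z u v)) u ≤ 0

lemma ld_eq {E F : Type} [NormedAddCommGroup E] [NormedSpace ℝ E] [NormedAddCommGroup F]
    [NormedSpace ℝ F] {G : E → E →L[ℝ] E →L[ℝ] F} (h : ContDiff ℝ ∞ G) (z u v w : E) :
    lineDeriv ℝ (fun y => G y v w) z u = fderiv ℝ G z u v w := by
  let T : (E →L[ℝ] E →L[ℝ] F) →L[ℝ] F :=
    (ContinuousLinearMap.apply ℝ F w).comp (ContinuousLinearMap.apply ℝ (E →L[ℝ] F) v)
  exact ((T.hasFDerivAt.comp z (h.differentiable (by simp) z).hasFDerivAt).hasLineDerivAt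
    u).lineDeriv

lemma NonPos'.to {E : Type} [NormedAddCommGroup E] [NormedSpace ℝ E] {U : Set E}
    {G : E → E →L[ℝ] E →L[ℝ] ℝ} (h : NonPos' U G) {G' : E → E → E → ℝ}
    (e : ∀ z ∈ U, ∀ u v, G z u v = G' z u v) : NonPos U G' := by
  obtain ⟨h0, h1, Γ, h2, h3⟩ := h
  refine ⟨h0, fun z u v => Γ z u v, fun u v => ⟨((h1.clm_apply contDiff_const).clm_apply
    contDiff_const).contDiffOn.congr fun z hz => (e z hz u v).symm, ((h2.clm_apply
    contDiff_const).clm_apply contDiff_const).contDiffOn⟩, fun z hz u => ⟨?_, (Γ z u).isLinear,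
    e z hz u u ▸ (h3 z hz).1 u, fun v => ?_⟩⟩
  · exact funext (e z hz u) ▸ (G z u).isLinear
  · obtain ⟨a, b, c, d⟩ := (h3 z hz).2 u v
    simp only [← e z hz, ld_eq h2]
    refine ⟨a, b, fun w => ?_, d⟩
    rw [← c, ← ld_eq h1]
    exact Filter.EventuallyEq.lineDeriv_eq
      (Filter.eventually_of_mem (h0.mem_nhds hz) fun y hy => (e y hy v w).symm)

/-- admissible warping functions -/
structure Adm (f : ℝ → ℝ) : Prop where
  sm : ContDiff ℝ ∞ f
  pos : ∀ t, 0 < f t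
  d1 : ∀ t, 0 ≤ deriv f t
  d2 : ∀ t, 0 ≤ deriv (deriv f) t

lemma Adm.sm' {f : ℝ → ℝ} (h : Adm f) : ContDiff ℝ ∞ (deriv f) :=
  (contDiff_infty_iff_deriv.1 h.sm).2

lemma hd {f : ℝ → ℝ} (h : ContDiff ℝ ∞ f) (t : ℝ) : HasDerivAt f (deriv f t) t :=
  (h.differentiable (by simp) t).hasDerivAt

section

variable {E F : Type} [NormedAddCommGroup E] [NormedSpace ℝ E] [NormedAddCommGroup F]
  [NormedSpace ℝ F] {ι : Type} [Fintype ι]

lemma fd_sum (l : E →L[ℝ] ℝ) (a a' : ι → ℝ → ℝ) (B : ι → F) (z u : E)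
    (h : ∀ i, HasDerivAt (a i) (a' i (l z)) (l z)) :
    fderiv ℝ (fun z => ∑ i, a i (l z) • B i) z u = l u • ∑ i, a' i (l z) • B i := by
  have : HasFDerivAt (fun z => ∑ i, a i (l z) • B i) (∑ i, (a' i (l z) • l).smulRight (B i)) z :=
    HasFDerivAt.fun_sum fun i _ => ((h i).comp_hasFDerivAt z l.hasFDerivAt).smul_const (B i)
  rw [this.fderiv]
  simp [smul_sum, smul_smul, mul_comm]

lemma cd_sum (l : E →L[ℝ] ℝ) (a : ι → ℝ → ℝ) (B : ι → F) (h : ∀ i, ContDiff ℝ ∞ (a i)) :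
    ContDiff ℝ ∞ fun z => ∑ i, a i (l z) • B i :=
  ContDiff.sum fun i _ => ((h i).comp l.contDiff).smul contDiff_const

theorem warp [DecidableEq ι] (l0 : E →L[ℝ] ℝ) (l : ι → E →L[ℝ] ℝ) (e0 : E) (e : ι → E)
    (h00 : l0 e0 = 1) (h0 : ∀ i, l0 (e i) = 0) (h1 : ∀ i, l i e0 = 0)
    (h2 : ∀ i j, l i (e j) = if i = j then 1 else 0) (hs : ∀ u, l0 u = 0 → (∀ i, l i u = 0) → u = 0)
    (f : ι → ℝ → ℝ) (hf : ∀ i, Adm (f i)) {U : Set E} (hU : IsOpen U) :
    ∃ G : E → E →L[ℝ] E →L[ℝ] ℝ, NonPos' U G ∧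
      ∀ z u v, G z u v = l0 u * l0 v + ∑ i, f i (l0 z) ^ 2 * (l i u * l i v) := by
  let B : ι → E →L[ℝ] E →L[ℝ] ℝ := fun i => (l i).smulRight (l i)
  let G : E → E →L[ℝ] E →L[ℝ] ℝ := fun z => l0.smulRight l0 + ∑ i, f i (l0 z) ^ 2 • B i
  let C : ι → E →L[ℝ] E →L[ℝ] E := fun i => (l i).smulRight ((l i).smulRight e0)
  let D : ι → E →L[ℝ] E →L[ℝ] E := fun i =>
    l0.smulRight ((l i).smulRight (e i)) + (l i).smulRight (l0.smulRight (e i))
  let M : (ι → ℝ) → (ι → ℝ) → E →L[ℝ] E →L[ℝ] E := fun a c => ∑ i, (-a i) • C i + ∑ i, c i • D i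
  have M0 : ∀ a c u v, l0 (M a c u v) = - ∑ i, a i * (l i u * l i v) := fun a c u v => by
    simp [M, C, D, map_sum, h00, h0]
  have M1 : ∀ a c u v j, l j (M a c u v) = c j * (l0 u * l j v + l j u * l0 v) := fun a c u v j => by
    simp [M, C, D, map_sum, h1, h2, mul_add, sum_add_distrib]
  have hG : ∀ z u v, G z u v = l0 u * l0 v + ∑ i, f i (l0 z) ^ 2 * (l i u * l i v) := fun z u v => by
    simp [G, B]
  let a : ι → ℝ → ℝ := fun i t => f i t * deriv (f i) t
  let c : ι → ℝ → ℝ := fun i t => deriv (f i) t / f i t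
  let a' : ι → ℝ → ℝ := fun i t => deriv (f i) t * deriv (f i) t + f i t * deriv (deriv (f i)) t
  let c' : ι → ℝ → ℝ := fun i t =>
    (deriv (deriv (f i)) t * f i t - deriv (f i) t * deriv (f i) t) / f i t ^ 2
  let Γ : E → E →L[ℝ] E →L[ℝ] E := fun z => M (fun i => a i (l0 z)) fun i => c i (l0 z)
  have sa : ∀ i, ContDiff ℝ ∞ fun t => - a i t := fun i => ((hf i).sm.mul (hf i).sm').neg
  have sc : ∀ i, ContDiff ℝ ∞ (c i) := fun i => (hf i).sm'.div (hf i).sm fun t => ((hf i).pos t).ne'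
  have s1 := cd_sum l0 _ C sa
  have s2 := cd_sum l0 _ D sc
  have s3 := cd_sum l0 (fun i t => f i t ^ 2) B fun i => (hf i).sm.pow 2
  have dΓ : ∀ z u, fderiv ℝ Γ z u = l0 u • M (fun i => a' i (l0 z)) fun i => c' i (l0 z) := by
    intro z u
    rw [show Γ = fun z => ∑ i, (-a i (l0 z)) • C i + ∑ i, c i (l0 z) • D i from rfl,
      fderiv_fun_add (s1.differentiable (by simp) z) (s2.differentiable (by simp) z),
      _root_.add_apply, fd_sum l0 (fun i t => -a i t) (fun i t => - a' i t) C z u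
        fun i => ((hd (hf i).sm _).mul (hd (hf i).sm' _)).neg,
      fd_sum l0 c c' D z u fun i => (hd (hf i).sm' _).div (hd (hf i).sm _) ((hf i).pos _).ne',
      ← smul_add]
  have dG : ∀ z u v w, fderiv ℝ G z u v w = l0 u * ∑ i, 2 * a i (l0 z) * (l i v * l i w) := by
    intro z u v w
    rw [show fderiv ℝ G z = fderiv ℝ (fun z => ∑ i, f i (l0 z) ^ 2 • B i) z from
      ((s3.differentiable (by simp) z).hasFDerivAt.const_add _).fderiv, fd_sum l0 (fun i t => f i t ^ 2) (fun i t => 2 * a i t) B z u fun i => by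
        simpa [a, mul_assoc] using (hd (hf i).sm _).fun_pow 2]
    simp [B]
  refine ⟨G, ⟨hU, contDiff_const.add s3, Γ, s1.add s2, fun z _ =>
    ⟨fun u hu => ?_, fun u v => ⟨?_, ?_, fun w => ?_, ?_⟩⟩⟩, hG⟩
  · rw [hG]
    have n : ∀ i ∈ univ, 0 ≤ f i (l0 z) ^ 2 * (l i u * l i u) := fun i _ =>
      mul_nonneg (sq_nonneg _) (mul_self_nonneg _)
    refine (add_nonneg (mul_self_nonneg _) (sum_nonneg n)).lt_of_ne fun h => hu (hs u ?_ fun i => ?_)
    · nlinarith [sum_nonneg n]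
    · have := (sum_eq_zero_iff_of_nonneg n).1 (by nlinarith [sum_nonneg n]) i (mem_univ i)
      simpa [((hf i).pos _).ne'] using this
  · simp only [hG, mul_comm]
  · rw [← sub_eq_zero]
    refine hs _ ?_ fun i => ?_
    · simp only [map_sub, Γ, M0, mul_comm, sub_self]
    · simp only [map_sub, Γ, M1]; ring
  · simp only [dG, hG, Γ, M0, M1, mul_sum, neg_mul, mul_neg, sum_mul]
    rw [← sub_eq_zero]
    simp only [← sum_neg_distrib, ← sum_add_distrib, ← sum_sub_distrib]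
    refine sum_eq_zero fun i _ => ?_
    have := ((hf i).pos (l0 z)).ne'
    simp only [a, c]
    field_simp
    ring
  · have cs := sum_mul_sq_le_sq_mul_sq univ (fun i => √(a i (l0 z)) * l i u)
      fun i => √(a i (l0 z)) * l i v
    have a0 : ∀ i, 0 ≤ a i (l0 z) := fun i => mul_nonneg ((hf i).pos _).le ((hf i).d1 _)
    have q : ∀ i x y, √(a i (l0 z)) * x * (√(a i (l0 z)) * y) = a i (l0 z) * (x * y) := fun i x y => by
      rw [mul_mul_mul_comm, Real.mul_self_sqrt (a0 i)]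
    simp only [sq (_ * _), q] at cs
    rw [hG]
    simp only [dΓ, map_add, map_sub, _root_.smul_apply, map_smul, Γ, M0, M1, smul_eq_mul]
    set S : E → E → ℝ := fun x y => ∑ i, a i (l0 z) * (l i x * l i y) with hS
    have key : ∑ i, - (f i (l0 z) * deriv (deriv (f i)) (l0 z) * (l0 u * l i v - l i u * l0 v) ^ 2)
        ≤ 0 := sum_nonpos fun i _ => neg_nonpos.2
          (mul_nonneg (mul_nonneg ((hf i).pos _).le ((hf i).d2 _)) (sq_nonneg _))
    refine le_of_eq_of_le ?_ (add_nonpos key (sub_nonpos.2 cs))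
    change _ = _ + (S u v ^ 2 - S u u * S v v)
    rw [show S u v ^ 2 - S u u * S v v = ∑ i, a i (l0 z) * l i u * (l i v * S u v - l i u * S v v) by
      simp only [mul_sub, sum_sub_distrib, ← mul_assoc, ← sum_mul]
      simp only [hS, mul_assoc, sq]]
    change (_ + _ - _) * _ + ∑ i, _ * ((_ + c i (l0 z) * (_ + _ * - S v v) -
      c i (l0 z) * (_ + _ * - S u v)) * _) = _
    generalize S v v = s1
    generalize S u v = s2
    simp only [mul_neg, mul_sum, ← sum_neg_distrib, ← sum_add_distrib, ← sum_sub_distrib, sum_mul]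
    refine sum_congr rfl fun i _ => ?_
    have := ((hf i).pos (l0 z)).ne'
    simp only [a, c, a', c']
    field_simp
    ring

end

lemma adm_const {c : ℝ} (hc : 0 < c) : Adm fun _ => c :=
  ⟨contDiff_const, fun _ => hc, fun _ => by simp, fun _ => by simp⟩

lemma Adm.shift {f : ℝ → ℝ} (h : Adm f) {c : ℝ} (hc : 0 < c) (s : ℝ) : Adm fun t => c * f (t + s) := by
  have e : ∀ g : ℝ → ℝ, deriv (fun t => c * g (t + s)) = fun t => c * deriv g (t + s) := fun g =>
    funext fun t => by rw [deriv_const_mul_field, deriv_comp_add_const]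
  exact ⟨contDiff_const.mul (h.sm.comp (contDiff_id.add contDiff_const)),
    fun t => mul_pos hc (h.pos _), fun t => by rw [e]; exact mul_nonneg hc.le (h.d1 _),
    fun t => by rw [e, e]; exact mul_nonneg hc.le (h.d2 _)⟩

lemma adm_exp : Adm Real.exp :=
  ⟨Real.contDiff_exp, Real.exp_pos, fun t => by simp [Real.exp_nonneg],
    fun t => by simp [Real.exp_nonneg]⟩

lemma exists_f0 : ∃ (f : ℝ → ℝ) (a : ℝ), Adm f ∧ 0 < a ∧ (∀ t, 0 ≤ t → f t = Real.exp t) ∧
    ∀ t, t ≤ -1 → f t = a := by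
  let k : ℝ → ℝ := fun t => Real.exp t * Real.smoothTransition (t + 1)
  have sk : ContDiff ℝ ∞ k :=
    Real.contDiff_exp.mul (Real.smoothTransition.contDiff.comp (contDiff_id.add contDiff_const))
  have ck := sk.continuous
  have k0 : ∀ t, 0 ≤ k t := fun t => mul_nonneg (Real.exp_nonneg _) (Real.smoothTransition.nonneg _)
  have mk : Monotone k := fun s t h => mul_le_mul (Real.exp_le_exp.2 h)
    (Real.smoothTransition.monotone (by linarith)) (Real.smoothTransition.nonneg _) (Real.exp_nonneg _)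
  let f : ℝ → ℝ := fun t => 1 + ∫ x in (0 : ℝ)..t, k x
  have hf : ∀ t, HasDerivAt f (k t) t := fun t => (ck.integral_hasStrictDerivAt 0 t).hasDerivAt.const_add 1
  have df : deriv f = k := funext fun t => (hf t).deriv
  have mf : Monotone f := monotone_of_deriv_nonneg (fun t => (hf t).differentiableAt) (df ▸ k0)
  have c1 : ∀ t, t ≤ -1 → f t = f (-1) := fun t ht => by
    have : ∫ x in t..(-1), k x = 0 := by
      rw [intervalIntegral.integral_congr (g := fun _ => 0), intervalIntegral.integral_zero]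
      intro x hx
      rw [Set.uIcc_of_le ht] at hx
      simp only [k, Real.smoothTransition.zero_of_nonpos (show x + 1 ≤ 0 by linarith [hx.2]), mul_zero]
    simp only [f]
    rw [← intervalIntegral.integral_add_adjacent_intervals (ck.intervalIntegrable 0 t)
      (ck.intervalIntegrable t (-1)), this, add_zero]
  have c2 : 0 < f (-1) := by
    have : ∫ x in (-1 : ℝ)..0, k x ≤ ∫ x in (-1 : ℝ)..0, Real.exp x :=
      intervalIntegral.integral_mono (by norm_num) (ck.intervalIntegrable _ _)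
        (Real.continuous_exp.intervalIntegrable _ _) fun x =>
          mul_le_of_le_one_right (Real.exp_nonneg _) (Real.smoothTransition.le_one _)
    rw [integral_exp, Real.exp_zero] at this
    simp only [f]
    rw [intervalIntegral.integral_symm]
    linarith [Real.exp_pos (-1)]
  refine ⟨f, f (-1), ⟨contDiff_infty_iff_deriv.2 ⟨fun t => (hf t).differentiableAt, df ▸ sk⟩,
    fun t => ?_, df ▸ k0, fun t => df ▸ mk.deriv_nonneg⟩, c2, fun t ht => ?_, c1⟩
  · exact (c2.trans_eq (c1 _ (min_le_right t _)).symm).trans_le (mf (min_le_left _ _))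
  · simp only [f]
    rw [intervalIntegral.integral_congr (g := Real.exp), integral_exp, Real.exp_zero, add_sub_cancel]
    intro x hx
    rw [Set.uIcc_of_le ht] at hx
    simp only [k, Real.smoothTransition.one_of_one_le (show 1 ≤ x + 1 by linarith [hx.1]), mul_one]

lemma diag1 {a : ℕ} (h : (Fin a → ℝ) →ₗ[ℝ] (Fin a → ℝ) →ₗ[ℝ] ℝ) (hs : ∀ p q, h p q = h q p)
    (hp : ∀ p, p ≠ 0 → 0 < h p p) : ∃ (U : (Fin a → ℝ) ≃ₗ[ℝ] (Fin a → ℝ)) (μ : Fin a → ℝ),
      (∀ i, 0 < μ i) ∧ ∀ p q, p ⬝ᵥ q = U p ⬝ᵥ U q ∧ h p q = ∑ i, μ i ^ 2 * (U p i * U q i) := by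
  let A := LinearMap.toMatrix₂' ℝ h
  have hA : A.IsHermitian := Matrix.ext fun i j => by simp [A, hs]
  have e : ∀ p q, h p q = p ⬝ᵥ A.mulVec q := fun p q => by
    rw [← Matrix.toLinearMap₂'_apply', Matrix.toLinearMap₂'_toMatrix']
  let b := hA.eigenvectorBasis
  let W := WithLp.linearEquiv 2 ℝ (Fin a → ℝ)
  let U := W.symm.trans (b.repr.toLinearEquiv.trans W)
  have hU : ∀ p i, U p i = p ⬝ᵥ (b i).ofLp := fun p i => by
    simp [U, W, b.repr_apply_apply, EuclideanSpace.inner_eq_star_dotProduct]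
  have h1 : ∀ p i, h p (b i).ofLp = hA.eigenvalues i * U p i := fun p i => by
    rw [e, hA.mulVec_eigenvectorBasis, dotProduct_smul, hU, smul_eq_mul]
  have h2 : ∀ i, 0 < hA.eigenvalues i := fun i => by
    have := hp (b i).ofLp (by simpa using b.orthonormal.ne_zero i)
    rw [h1] at this
    simpa [U, W] using this
  refine ⟨U, fun i => √(hA.eigenvalues i), fun i => Real.sqrt_pos.2 (h2 i), fun p q => ⟨?_, ?_⟩⟩
  · have := b.repr.inner_map_map (W.symm q) (W.symm p)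
    rw [EuclideanSpace.inner_eq_star_dotProduct, EuclideanSpace.inner_eq_star_dotProduct] at this
    exact this.symm
  · have : q = ∑ i, U q i • (b i).ofLp := by
      have := congrArg W (b.sum_repr (W.symm q))
      rw [map_sum, W.apply_symm_apply] at this
      exact this.symm
    conv_lhs => rw [this]
    simp only [map_sum, map_smul, h1, smul_eq_mul, Real.sq_sqrt (h2 _).le]
    exact sum_congr rfl fun i _ => by ring

lemma diag2 {a : ℕ} (g h : (Fin a → ℝ) →ₗ[ℝ] (Fin a → ℝ) →ₗ[ℝ] ℝ) (gs : ∀ p q, g p q = g q p)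
    (gp : ∀ p, p ≠ 0 → 0 < g p p) (hs : ∀ p q, h p q = h q p) (hp : ∀ p, p ≠ 0 → 0 < h p p) :
    ∃ (N : (Fin a → ℝ) ≃ₗ[ℝ] (Fin a → ℝ)) (μ : Fin a → ℝ), (∀ i, 0 < μ i) ∧
      ∀ p q, g p q = N p ⬝ᵥ N q ∧ h p q = ∑ i, μ i ^ 2 * (N p i * N q i) := by
  obtain ⟨U, ν, h1, h2⟩ := diag1 g gs gp
  let C : (Fin a → ℝ) ≃ₗ[ℝ] (Fin a → ℝ) := U.trans (LinearEquiv.piCongrRight fun i =>
    LinearEquiv.smulOfNeZero ℝ ℝ (ν i) (h1 i).ne')
  obtain ⟨V, μ, h3, h4⟩ := diag1 (h.compl₁₂ C.symm.toLinearMap C.symm.toLinearMap) (fun _ _ => hs _ _)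
    fun p hp' => hp (C.symm p) (by simpa using hp')
  refine ⟨C.trans V, μ, h3, fun p q => ⟨?_, by simpa using (h4 (C p) (C q)).2⟩⟩
  rw [(h2 p q).2]
  refine Eq.trans ?_ (h4 (C p) (C q)).1
  exact sum_congr rfl fun i _ => by simp [C]; ring

end Pool.Agent.Lib.MP_661727_gt
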