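import Pool.Agent.Lib.MP_661727_gt.Tree

namespace Pool.Agent.Lib.MP_661727_gt

open Multiplicative

lemma exists_dec {W G : Type} [Group W] [Group G] (ι : W →* G) (hι : Function.Injective ι) :
    ∃ (Q : Type) (e : G ≃ W × Q), ∀ w g, e (ι w * g) = (w * (e g).1, (e g).2) := by
  let s := QuotientGroup.rightRel ι.range
  have h : ∀ g : G, ∃ w, ι w = g * (Quotient.mk s g).out⁻¹ := fun g =>
    QuotientGroup.rightRel_apply.1 (Quotient.mk_out (s := s) g)
  choose w hw using h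
  have hq : ∀ v g, Quotient.mk s (ι v * g) = Quotient.mk s g := fun v g =>
    Quotient.sound (QuotientGroup.rightRel_apply.2 ⟨v⁻¹, by simp⟩)
  refine ⟨Quotient s, ⟨fun g => (w g, Quotient.mk s g), fun p => ι p.1 * p.2.out, fun g => ?_,
    fun p => ?_⟩, fun v g => ?_⟩
  · simp [hw]
  · refine Prod.ext (hι ?_) ?_
    · simp [hw, hq]
    · simp [hq]
  · refine Prod.ext (hι ?_) (hq v g)
    simp [hw, hq, mul_assoc]

lemma exists_T {W G0 G1 : Type} [Group W] [Group G0] [Group G1] [Countable G0] [Countable G1]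
    (ι0 : W →* G0) (ι1 : W →* G1) (h0 : Function.Injective ι0) (h1 : Function.Injective ι1) :
    ∃ T : G0 × ℕ ≃ G1 × ℕ, ∀ w g n, T (ι0 w * g, n) = (ι1 w * (T (g, n)).1, (T (g, n)).2) := by
  obtain ⟨Q0, e0, a0⟩ := exists_dec ι0 h0
  obtain ⟨Q1, e1, a1⟩ := exists_dec ι1 h1
  have c0 : Countable Q0 := (Prod.snd_surjective.comp e0.surjective).countable
  have c1 : Countable Q1 := (Prod.snd_surjective.comp e1.surjective).countable
  have n0 : Nonempty Q0 := ⟨(e0 1).2⟩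
  have n1 : Nonempty Q1 := ⟨(e1 1).2⟩
  obtain ⟨β⟩ : Nonempty (Q0 × ℕ ≃ Q1 × ℕ) := nonempty_equiv_of_countable
  refine ⟨((e0.prodCongr (Equiv.refl ℕ)).trans (Equiv.prodAssoc _ _ _)).trans
    (((Equiv.refl W).prodCongr β).trans
      ((e1.prodCongr (Equiv.refl ℕ)).trans (Equiv.prodAssoc _ _ _)).symm), fun w g n => ?_⟩
  refine Prod.ext (e1.injective ?_) ?_
  · simp [a0, a1]
  · simp [a0]

section

variable {Γ F Λ H : Type} [Group Γ] [AddCommGroup F] [AddCommGroup Λ] [AddCommGroup H]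

/-- wall inclusion -/
def io (α : Multiplicative H →* Γ) (w : H × F) : Γ × Multiplicative F := (α (ofAdd w.1), ofAdd w.2)

/-- wall inclusion as a homomorphism -/
def ioh (α : Multiplicative H →* Γ) : Multiplicative (H × F) →* Γ × Multiplicative F where
  toFun w := io α w.toAdd
  map_one' := by simp [io]
  map_mul' a b := by simp [io, ofAdd_add]

lemma ioh_inj {α : Multiplicative H →* Γ} (h : Function.Injective α) :
    Function.Injective (ioh (F := F) α) := by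
  intro a b hab
  obtain ⟨h1, h2⟩ := Prod.mk.inj hab
  exact toAdd.injective (Prod.ext (ofAdd.injective (h h1)) (ofAdd.injective h2))

lemma io_add (α : Multiplicative H →* Γ) (a b : H × F) : io α (a + b) = io α a * io α b := by
  simp [io, ofAdd_add]

/-- shear map -/
def th (j : F →+ Λ) (f : Γ → Λ) (g : Γ × Multiplicative F) : Γ × Multiplicative Λ :=
  (g.1, ofAdd (j g.2.toAdd + f g.1))

/-- retraction -/
def re (ρ : Λ → F) (f : Γ → Λ) (g : Γ × Multiplicative Λ) : Γ × Multiplicative F :=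
  (g.1, ofAdd (ρ (g.2.toAdd - f g.1)))

lemma th_io {α : Multiplicative H →* Γ} {σ : H →+ Λ} {f : Γ → Λ} (j : F →+ Λ)
    (hf : ∀ h γ, f (α (ofAdd h) * γ) = f γ + σ h) (w : H × F) (g : Γ × Multiplicative F) :
    th j f (io α w * g) = io α (w.1, j w.2 + σ w.1) * th j f g := by
  refine Prod.ext rfl (toAdd.injective ?_)
  simp [th, io, hf]; abel

lemma exists_exact {α : Multiplicative H →* Γ} (hα : Function.Injective α) (σ : H →+ Λ) (f : Γ → Λ)
    (hf : (Set.range fun p : H × Γ => f (α (ofAdd p.1) * p.2) - f p.2 - σ p.1).Finite) :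
    ∃ f0 : Γ → Λ, (∀ h γ, f0 (α (ofAdd h) * γ) = f0 γ + σ h) ∧
      (Set.range fun γ => f γ - f0 γ).Finite := by
  obtain ⟨Q, e, he⟩ := exists_dec α hα
  refine ⟨fun γ => f (e.symm (1, (e γ).2)) + σ (e γ).1.toAdd, fun h γ => ?_, hf.subset ?_⟩
  · simp [he]; abel
  · rintro _ ⟨γ, rfl⟩
    refine ⟨((e γ).1.toAdd, e.symm (1, (e γ).2)), ?_⟩
    have : α (e γ).1 * e.symm (1, (e γ).2) = γ := e.injective (by simp [he])
    simp only [ofAdd_toAdd, this]; abel

end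

lemma ext_fun {Γ0 F0 Λ0 H0 Γ1 F1 Λ1 H1 : Type} [Group Γ0] [AddCommGroup F0] [AddCommGroup Λ0]
    [AddCommGroup H0] [Group Γ1] [AddCommGroup F1] [AddCommGroup Λ1] [AddCommGroup H1]
    {α0 : Multiplicative H0 →* Γ0} {α1 : Multiplicative H1 →* Γ1} {j0 : F0 →+ Λ0} {j1 : F1 →+ Λ1}
    {σ0 : H0 →+ Λ0} {σ1 : H1 →+ Λ1} {f0 : Γ0 → Λ0} {f1 : Γ1 → Λ1}
    (hf0 : ∀ h γ, f0 (α0 (ofAdd h) * γ) = f0 γ + σ0 h)
    (hf1 : ∀ h γ, f1 (α1 (ofAdd h) * γ) = f1 γ + σ1 h)
    (ψ : H0 × F0 ≃+ H1 × F1) (ψ' : H0 × Λ0 ≃+ H1 × Λ1)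
    (hψ : ∀ w, ψ' (w.1, j0 w.2 + σ0 w.1) = ((ψ w).1, j1 (ψ w).2 + σ1 (ψ w).1))
    (T : (Γ0 × Multiplicative F0) × ℕ → (Γ1 × Multiplicative F1) × ℕ)
    (hT : ∀ w g n, T (io α0 w * g, n) = (io α1 (ψ w) * (T (g, n)).1, (T (g, n)).2)) :
    ∃ T' : (Γ0 × Multiplicative Λ0) × ℕ → (Γ1 × Multiplicative Λ1) × ℕ,
      (∀ w g n, T' (io α0 w * g, n) = (io α1 (ψ' w) * (T' (g, n)).1, (T' (g, n)).2)) ∧
      ∀ g n, T' (th j0 f0 g, n) = (th j1 f1 (T (g, n)).1, (T (g, n)).2) := by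
  refine ⟨fun y => (io α1 (ψ' (0, y.1.2.toAdd - f0 y.1.1)) * th j1 f1 (T ((y.1.1, 1), y.2)).1,
    (T ((y.1.1, 1), y.2)).2), fun w g n => ?_, fun g n => ?_⟩
  · have e : ((io α0 w * g).1, (1 : Multiplicative F0)) = io α0 (w.1, 0) * (g.1, 1) := by simp [io]
    simp only [e, hT, th_io j1 hf1, ← hψ, ← mul_assoc, ← io_add, ← map_add]
    congr 4
    refine Prod.ext ?_ ?_ <;> simp [io, hf0]
    abel
  · have e : g = io α0 (0, g.2.toAdd) * (g.1, 1) := by simp [io]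
    conv_rhs => rw [e]
    simp only [hT, th_io j1 hf1, ← hψ]
    simp [th]

lemma fin_ρ {F Λ : Type} [AddCommGroup F] [AddCommGroup Λ] {j : F →+ Λ} (hj : Function.Injective j)
    {ρ : Λ → F} (hρ : (Set.range fun l => l - j (ρ l)).Finite) {A : Set Λ} (hA : A.Finite) :
    ∃ S : Set F, S.Finite ∧ ∀ l φ, l - j φ ∈ A → ρ l - φ ∈ S := by
  refine ⟨_, (hA.image2 (· - ·) hρ).preimage hj.injOn, fun l φ h => ⟨_, h, _, ⟨l, rfl⟩, ?_⟩⟩
  simp

instance countMul {α : Type} [Countable α] : Countable (Multiplicative α) :=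
  inferInstanceAs (Countable α)

theorem shear {V E : Type} [Finite V] [Finite E] {src tgt : E → V} (u : V) {Γ F Λ : V → Type}
    [∀ v, Group (Γ v)] [∀ v, AddCommGroup (F v)] [∀ v, AddCommGroup (Λ v)]
    [∀ v, Countable (Γ v)] [∀ v, Countable (F v)] [∀ v, Countable (Λ v)]
    {H0 H1 : E → Type} [∀ e, AddCommGroup (H0 e)] [∀ e, AddCommGroup (H1 e)]
    (α0 : ∀ e, Multiplicative (H0 e) →* Γ (src e)) (α1 : ∀ e, Multiplicative (H1 e) →* Γ (tgt e))
    (hα0 : ∀ e, Function.Injective (α0 e)) (hα1 : ∀ e, Function.Injective (α1 e))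
    (j : ∀ v, F v →+ Λ v) (hj : ∀ v, Function.Injective (j v)) (ρ : ∀ v, Λ v → F v)
    (hρ : ∀ v, (Set.range fun l => l - j v (ρ v l)).Finite) (hρj : ∀ v φ, ρ v (j v φ) = φ)
    (σ0 : ∀ e, H0 e →+ Λ (src e)) (σ1 : ∀ e, H1 e →+ Λ (tgt e))
    (ψ : ∀ e, H0 e × F (src e) ≃+ H1 e × F (tgt e)) (ψ' : ∀ e, H0 e × Λ (src e) ≃+ H1 e × Λ (tgt e))
    (hψ : ∀ e w, ψ' e (w.1, j _ w.2 + σ0 e w.1) = ((ψ e w).1, j _ (ψ e w).2 + σ1 e (ψ e w).1))
    (f : ∀ v, Γ v → Λ v) (hf : ∀ v δ, (Set.range fun γ => f v (δ * γ) - f v γ).Finite)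
    (hf1 : f u 1 = 0)
    (hg0 : ∀ e, (Set.range fun p : H0 e × Γ (src e) =>
      f _ (α0 e (ofAdd p.1) * p.2) - f _ p.2 - σ0 e p.1).Finite)
    (hg1 : ∀ e, (Set.range fun p : H1 e × Γ (tgt e) =>
      f _ (α1 e (ofAdd p.1) * p.2) - f _ p.2 - σ1 e p.1).Finite) :
    CE (pi1 (G := fun v => Γ v × Multiplicative (F v)) src tgt
        (fun e => Set.range fun w => (io (α0 e) w, io (α1 e) (ψ e w))) u)
      (pi1 (G := fun v => Γ v × Multiplicative (Λ v)) src tgt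
        (fun e => Set.range fun w => (io (α0 e) w, io (α1 e) (ψ' e w))) u) := by
  choose f0 a0 b0 using fun e => exists_exact (hα0 e) (σ0 e) (f _) (hg0 e)
  choose f1 a1 b1 using fun e => exists_exact (hα1 e) (σ1 e) (f _) (hg1 e)
  have hT : ∀ e, ∃ T : (Γ (src e) × Multiplicative (F (src e))) × ℕ ≃
      (Γ (tgt e) × Multiplicative (F (tgt e))) × ℕ,
      ∀ w g n, T (io (α0 e) w * g, n) = (io (α1 e) (ψ e w) * (T (g, n)).1, (T (g, n)).2) := by
    intro e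
    obtain ⟨T, hT⟩ := exists_T (ioh (α0 e)) ((ioh (α1 e)).comp
      (AddMonoidHom.toMultiplicative (ψ e).toAddMonoidHom)) (ioh_inj (hα0 e))
      ((ioh_inj (hα1 e)).comp (ψ e).injective)
    exact ⟨T, fun w => hT (ofAdd w)⟩
  choose T hT using hT
  have hT' : ∀ e, ∃ T' : (Γ (src e) × Multiplicative (Λ (src e))) × ℕ ≃
      (Γ (tgt e) × Multiplicative (Λ (tgt e))) × ℕ,
      (∀ w g n, T' (io (α0 e) w * g, n) = (io (α1 e) (ψ' e w) * (T' (g, n)).1, (T' (g, n)).2)) ∧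
      ∀ g n, T' (th (j _) (f0 e) g, n) = (th (j _) (f1 e) (T e (g, n)).1, (T e (g, n)).2) := by
    intro e
    obtain ⟨P, p1, p2⟩ := ext_fun (a0 e) (a1 e) (ψ e) (ψ' e) (hψ e) (T e) (hT e)
    obtain ⟨Q, q1, q2⟩ := ext_fun (a1 e) (a0 e) (ψ e).symm (ψ' e).symm (j0 := j _) (j1 := j _)
      (fun w => by rw [AddEquiv.symm_apply_eq, hψ]; simp) (T e).symm (fun w g n => by
        rw [Equiv.symm_apply_eq, hT]; simp)
    refine ⟨⟨P, Q, fun y => ?_, fun y => ?_⟩, p1, p2⟩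
    · have e1 : y = (io (α0 e) (0, y.1.2.toAdd - f0 e y.1.1) * th (j _) (f0 e) (y.1.1, 1), y.2) := by
        simp [io, th]
      rw [e1, p1, p2, q1, q2]; simp
    · have e1 : y = (io (α1 e) (0, y.1.2.toAdd - f1 e y.1.1) * th (j _) (f1 e) (y.1.1, 1), y.2) := by
        simp [io, th]
      rw [e1, q1, q2, p1, p2]; simp
  choose T' hT' hTT using hT'
  let A : Sys src tgt (fun v => Γ v × Multiplicative (F v))
      (fun e => Set.range fun w => (io (α0 e) w, io (α1 e) (ψ e w))) :=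
    ⟨fun v => nonempty_equiv_of_countable.some, T, by rintro e _ ⟨w, rfl⟩; exact hT e w⟩
  let B : Sys src tgt (fun v => Γ v × Multiplicative (Λ v))
      (fun e => Set.range fun w => (io (α0 e) w, io (α1 e) (ψ' e w))) :=
    ⟨fun v => nonempty_equiv_of_countable.some, T', by rintro e _ ⟨w, rfl⟩; exact hT' e w⟩
  have hrt : ∀ v (φ : Γ v → Λ v) g, re (ρ v) φ (th (j v) φ g) = g := by
    intro v φ g; simp [re, th, hρj]
  let M : Mor A B u u :=
    { m := fun v x => ⟨v, th (j v) (f v) x.1, x.2⟩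
      m0 := fun e x => ⟨e, th (j _) (f0 e) x.1, x.2⟩
      ha := fun v a => ⟨_, (hf v a.1).image fun l => vx src tgt _
          ((a.1, ofAdd (j v a.2.toAdd + l)) : Γ v × Multiplicative (Λ v)), fun g n =>
        ⟨v, _, n, (a.1, ofAdd (j v a.2.toAdd + (f v (a.1 * g.1) - f v g.1))), rfl, by
          congr 2
          refine Prod.ext rfl (toAdd.injective ?_)
          simp [th]; abel, ⟨_, ⟨g.1, rfl⟩, rfl⟩⟩⟩
      hb := fun e => ⟨_, ((b0 e).image fun l => vx src tgt _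
          ((1, ofAdd (-l)) : Γ (src e) × Multiplicative (Λ (src e)))).union
          ((b1 e).image fun l => vx src tgt _
          ((1, ofAdd l) : Γ (tgt e) × Multiplicative (Λ (tgt e)))), fun x => by
        have e1 : ((1, ofAdd (-(f _ x.1.1 - f0 e x.1.1))) : Γ (src e) × Multiplicative (Λ (src e))) *
            th (j _) (f _) x.1 = th (j _) (f0 e) x.1 := by
          refine Prod.ext (one_mul _) (toAdd.injective ?_)
          simp [th]; abel
        refine ⟨e, th (j _) (f _) x.1, x.2, (1, ofAdd (-(f _ x.1.1 - f0 e x.1.1))),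
          (1, ofAdd (f _ (T e x).1.1 - f1 e (T e x).1.1)), by rw [e1], rfl, ?_,
          Or.inl ⟨_, ⟨_, rfl⟩, rfl⟩, Or.inr ⟨_, ⟨_, rfl⟩, rfl⟩⟩
        simp only [A, B, e1, hTT]
        congr 2
        refine Prod.ext (one_mul _).symm (toAdd.injective ?_)
        simp [th]; abel⟩
      hd := by
        rintro e _ ⟨w, rfl⟩ g n
        exact ⟨e, _, n, _, ⟨(w.1, j _ w.2 + σ0 e w.1), rfl⟩, rfl, by rw [th_io _ (a0 e)]⟩
      norm := by simp [th, hf1] }
  let M' : Mor B A u u :=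
    { m := fun v x => ⟨v, re (ρ v) (f v) x.1, x.2⟩
      m0 := fun e x => ⟨e, re (ρ _) (f0 e) x.1, x.2⟩
      ha := fun v a => by
        obtain ⟨S, s1, s2⟩ := fin_ρ (hj v) (hρ v)
          (((hρ v).image2 (· - ·) (hf v a.1)).image (a.2.toAdd + ·))
        refine ⟨_, s1.image fun l => vx src tgt _ ((a.1, ofAdd l) : Γ v × Multiplicative (F v)),
          fun g n => ⟨v, _, n, (a.1, ofAdd (ρ v ((a * g).2.toAdd - f v (a * g).1) -
            ρ v (g.2.toAdd - f v g.1))), rfl, ?_, ⟨_, s2 _ _ ⟨_, ⟨_, ⟨g.2.toAdd - f v g.1, rfl⟩, _,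
              ⟨g.1, rfl⟩, rfl⟩, ?_⟩, rfl⟩⟩⟩
        · congr 2
          refine Prod.ext rfl (toAdd.injective ?_)
          simp [re]
        · simp; abel
      hb := fun e => by
        obtain ⟨S, s1, s2⟩ := fin_ρ (hj _) (hρ (src e)) ((hρ _).image2 (· + ·) (b0 e))
        obtain ⟨S', s1', s2'⟩ := fin_ρ (hj _) (hρ (tgt e)) (((hρ (src e)).image fun l =>
          (ψ' e (0, l)).2 - σ1 e (ψ' e (0, l)).1).image2 (· - ·) (b1 e))
        refine ⟨_, (s1.image fun l => vx src tgt _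
          ((1, ofAdd l) : Γ (src e) × Multiplicative (F (src e)))).union
          (((hρ (src e)).image2 (fun l φ => vx src tgt _ ((α1 e (ofAdd (ψ' e (0, l)).1), ofAdd φ) :
            Γ (tgt e) × Multiplicative (F (tgt e)))) s1')), fun x => ?_⟩
        set l := x.1.2.toAdd - f0 e x.1.1 with hl
        have e1 : ((1, ofAdd (ρ _ l - ρ _ (x.1.2.toAdd - f _ x.1.1))) :
            Γ (src e) × Multiplicative (F (src e))) * re (ρ _) (f _) x.1 = re (ρ _) (f0 e) x.1 := by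
          refine Prod.ext (one_mul _) (toAdd.injective ?_)
          simp [re, hl]
        have e2 : x = (io (α0 e) (0, l - j _ (ρ _ l)) * th (j _) (f0 e) (re (ρ _) (f0 e) x.1), x.2) := by
          refine Prod.ext (Prod.ext ?_ (toAdd.injective ?_)) rfl
          · simp [io, th, re]
          · simp [io, th, re, hl]; abel
        set z := T e (re (ρ _) (f0 e) x.1, x.2) with hz
        set w := ψ' e (0, l - j _ (ρ _ l)) with hw
        refine ⟨e, re (ρ _) (f _) x.1, x.2, (1, ofAdd (ρ _ l - ρ _ (x.1.2.toAdd - f _ x.1.1))),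
          (α1 e (ofAdd w.1), ofAdd (ρ _ (w.2 + (j _ z.1.2.toAdd + f1 e z.1.1) -
            f _ (α1 e (ofAdd w.1) * z.1.1)) - z.1.2.toAdd)), by rw [e1], rfl, ?_,
          Or.inl ⟨_, s2 _ _ ⟨_, ⟨x.1.2.toAdd - f _ x.1.1, rfl⟩, _, ⟨x.1.1, rfl⟩, ?_⟩, rfl⟩,
          Or.inr ⟨_, ⟨l, rfl⟩, _, s2' _ _ ⟨_, ⟨_, ⟨l, rfl⟩, rfl⟩, _,
            ⟨α1 e (ofAdd w.1) * z.1.1, rfl⟩, ?_⟩, rfl⟩⟩
        · simp only [A, B, e1]
          conv_lhs => rw [e2, hT', hTT, ← hz, ← hw]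
          rw [← hz]
          clear_value z
          congr 2
          refine Prod.ext rfl (toAdd.injective ?_)
          simp [re, th, io]
        · simp only [hl]; abel
        · simp only [← hw, a1]; abel
      hd := by
        rintro e _ ⟨w, rfl⟩ g n
        refine ⟨e, _, n, _, ⟨(w.1, ρ _ ((io (α0 e) w * g).2.toAdd - f0 e (io (α0 e) w * g).1) -
          ρ _ (g.2.toAdd - f0 e g.1)), rfl⟩, rfl, ?_⟩
        congr 2
        refine Prod.ext rfl (toAdd.injective ?_)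
        simp [re, io]
      norm := by
        have := hρj u 0
        simp [re, hf1] at this ⊢
        simp [this] }
  refine M.ce M' ?_ ?_ ⟨{1}, Set.finite_singleton _, ?_⟩
    ⟨_, (hρ u).image fun l => vx src tgt _ ((1, ofAdd (-l)) : Γ u × Multiplicative (Λ u)), ?_⟩
  · intro e g n e' y h
    cases h
    exact ⟨_, ⟨0, rfl⟩, by simp [M', hrt, io]⟩
  · intro e g n e' y h
    cases h
    refine ⟨_, ⟨(0, -(g.2.toAdd - f0 e g.1 - j _ (ρ _ (g.2.toAdd - f0 e g.1)))), rfl⟩, ?_⟩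
    simp only [M]
    congr 2
    refine Prod.ext (by simp [io, th, re]) (toAdd.injective ?_)
    simp [io, th, re]; abel
  · intro g n v' y h
    cases h
    exact ⟨1, by simp [M', hrt], vx_one⟩
  · intro g n v' y h
    cases h
    refine ⟨(1, ofAdd (-(g.2.toAdd - f u g.1 - j _ (ρ _ (g.2.toAdd - f u g.1))))), ?_,
      ⟨_, ⟨_, rfl⟩, rfl⟩⟩
    simp only [M]
    congr 2
    refine Prod.ext (by simp [th, re]) (toAdd.injective ?_)
    simp [th, re]; abel

end Pool.Agent.Lib.MP_661727_gt
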