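import Pool.Agent.Lib.MP_661727_gt.Coarse

namespace Pool.Agent.Lib.MP_661727_gt

open Monoid
open scoped Pointwise

variable {V E : Type} {src tgt : E → V}
variable {G : V → Type} [∀ v, Group (G v)] {R : ∀ e, Set (G (src e) × G (tgt e))}
variable {V' E' : Type} {src' tgt' : E' → V'}
variable {G' : V' → Type} [∀ v, Group (G' v)] {R' : ∀ e, Set (G' (src' e) × G' (tgt' e))}

/-- the path group -/
abbrev PathGp (src tgt : E → V) (R : ∀ e, Set (G (src e) × G (tgt e))) :=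
  PresentedGroup (rels src tgt R)

lemma vx_mul {v : V} (a b : G v) : vx src tgt R (a * b) = vx src tgt R a * vx src tgt R b := by
  have := PresentedGroup.one_of_mem (rels := rels src tgt R) (Or.inl ⟨v, a, b, rfl⟩)
  rw [map_mul, map_mul, map_inv, mul_inv_eq_one] at this
  exact this.symm

lemma vx_one {v : V} : vx src tgt R (1 : G v) = 1 := by
  simpa using vx_mul (R := R) (1 : G v) 1

lemma vx_inv {v : V} (a : G v) : vx src tgt R a⁻¹ = (vx src tgt R a)⁻¹ := by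
  rw [eq_inv_iff_mul_eq_one, ← vx_mul, inv_mul_cancel, vx_one]

lemma ed_rel (e : E) {p : G (src e) × G (tgt e)} (hp : p ∈ R e) :
    ed src tgt R e * vx src tgt R p.1 = vx src tgt R p.2 * ed src tgt R e := by
  have := PresentedGroup.one_of_mem (rels := rels src tgt R) (Or.inr ⟨e, p, hp, rfl⟩)
  rw [map_mul, map_mul, map_mul, map_inv, map_inv, mul_inv_eq_one, mul_inv_eq_iff_eq_mul] at this
  exact this

lemma IsPath.trans {u v w : V} {g h : PathGp src tgt R} (hg : IsPath src tgt R u v g)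
    (hh : IsPath src tgt R v w h) : IsPath src tgt R u w (h * g) := by
  induction hh with
  | one => simpa using hg
  | vx a _ ih => rw [mul_assoc]; exact ih.vx a
  | fwd e _ ih => rw [mul_assoc]; exact ih.fwd e
  | bwd e _ ih => rw [mul_assoc]; exact ih.bwd e

lemma IsPath.symm {u v : V} {g : PathGp src tgt R} (hg : IsPath src tgt R u v g) :
    IsPath src tgt R v u g⁻¹ := by
  induction hg with
  | one => simpa using IsPath.one
  | vx a _ ih =>
    rw [mul_inv_rev, ← vx_inv]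
    exact IsPath.trans (by simpa using IsPath.one.vx a⁻¹) ih
  | fwd e _ ih =>
    rw [mul_inv_rev]
    exact IsPath.trans (by simpa using IsPath.one.bwd e) ih
  | bwd e _ ih =>
    rw [mul_inv_rev, inv_inv]
    exact IsPath.trans (by simpa using IsPath.one.fwd e) ih

lemma mem_pi1 {u : V} {g : PathGp src tgt R} : g ∈ pi1 src tgt R u ↔ IsPath src tgt R u u g := by
  refine ⟨fun h => ?_, fun h => Subgroup.subset_closure h⟩
  induction h using Subgroup.closure_induction with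
  | mem x hx => exact hx
  | one => exact IsPath.one
  | mul x y _ _ hx hy => exact hy.trans hx
  | inv x _ hx => exact hx.symm

/-- free vertex actions with equivariant edge bijections -/
structure Sys (src tgt : E → V) (G : V → Type) [∀ v, Group (G v)]
    (R : ∀ e, Set (G (src e) × G (tgt e))) where
  c : ∀ v, G v × ℕ ≃ ℕ
  T : ∀ e, G (src e) × ℕ ≃ G (tgt e) × ℕ
  hT : ∀ e, ∀ p ∈ R e, ∀ g n, T e (p.1 * g, n) = (p.2 * (T e (g, n)).1, (T e (g, n)).2)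

/-- the wall crossing element -/
def Sys.tau (A : Sys src tgt G R) (e : E) (x : G (src e) × ℕ) : PathGp src tgt R :=
  (vx src tgt R (A.T e x).1)⁻¹ * ed src tgt R e * vx src tgt R x.1

lemma Sys.tau_inv (A : Sys src tgt G R) (e : E) {p : G (src e) × G (tgt e)} (hp : p ∈ R e)
    (g : G (src e)) (n : ℕ) : A.tau e (p.1 * g, n) = A.tau e (g, n) := by
  simp only [Sys.tau, A.hT e p hp, vx_mul, mul_inv_rev]
  have := ed_rel e hp
  calc _ = (vx src tgt R (A.T e (g, n)).1)⁻¹ * (vx src tgt R p.2)⁻¹ *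
      (ed src tgt R e * vx src tgt R p.1) * vx src tgt R g := by group
    _ = _ := by rw [this]; group

lemma Sys.exists_rho (A : Sys src tgt G R) {Q : Type} [Group Q] (τ : ∀ e, G (src e) × ℕ → Q)
    (hτ : ∀ e, ∀ p ∈ R e, ∀ g n, τ e (p.1 * g, n) = τ e (g, n)) :
    ∃ ρ : PathGp src tgt R →* Equiv.Perm (ℕ × Q),
      (∀ v (a g : G v) n q, ρ (vx src tgt R a) (A.c v (g, n), q) = (A.c v (a * g, n), q)) ∧
      ∀ e x q, ρ (ed src tgt R e) (A.c _ x, q) = (A.c _ (A.T e x), τ e x * q) := by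
  let pv : ∀ v, G v →* Equiv.Perm (ℕ × Q) := fun v =>
    { toFun := fun a => Equiv.prodCongr
        ((A.c v).symm.trans ((Equiv.prodCongr (Equiv.mulLeft a) (Equiv.refl ℕ)).trans (A.c v)))
        (Equiv.refl Q)
      map_one' := by ext x <;> simp
      map_mul' := by
        intro a b
        ext x
        · simp [Prod.map]
        · simp }
  let pe : E → Equiv.Perm (ℕ × Q) := fun e =>
    { toFun := fun z => (A.c _ (A.T e ((A.c _).symm z.1)), τ e ((A.c _).symm z.1) * z.2)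
      invFun := fun z => (A.c _ ((A.T e).symm ((A.c _).symm z.1)),
        (τ e ((A.T e).symm ((A.c _).symm z.1)))⁻¹ * z.2)
      left_inv := by intro z; simp
      right_inv := by intro z; simp }
  have hv : ∀ v (a g : G v) n q, pv v a (A.c v (g, n), q) = (A.c v (a * g, n), q) := by
    intro v a g n q; simp [pv]
  have he : ∀ e x q, pe e (A.c _ x, q) = (A.c _ (A.T e x), τ e x * q) := by
    intro e x q; simp [pe]
  refine ⟨PresentedGroup.toGroup (f := Sum.elim (fun x => pv x.1 x.2) pe) ?_, ?_, ?_⟩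
  · rintro _ (⟨v, a, b, rfl⟩ | ⟨e, p, hp, rfl⟩)
    · simp
    simp only [map_mul, map_inv, FreeGroup.lift_apply_of, Sum.elim_inl, Sum.elim_inr]
    rw [mul_inv_eq_one, mul_inv_eq_iff_eq_mul]
    refine Equiv.ext fun ⟨k, q⟩ => ?_
    obtain ⟨⟨g, n⟩, rfl⟩ := (A.c (src e)).surjective k
    rw [Equiv.Perm.mul_apply, Equiv.Perm.mul_apply, hv, he, he, A.hT e p hp, hτ e p hp, ← hv]
  · intro v a g n q
    rw [← hv]; simp [vx]
  · intro e x q
    rw [← he]; simp [ed]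

/-- a coarse morphism between two systems -/
structure Mor (A : Sys src tgt G R) (B : Sys src' tgt' G' R') (u : V) (u' : V') where
  m : ∀ v, G v × ℕ → Σ v', G' v' × ℕ
  m0 : ∀ e, G (src e) × ℕ → Σ e', G' (src' e') × ℕ
  ha : ∀ v (a : G v), ∃ S : Set (PathGp src' tgt' R'), S.Finite ∧ ∀ g n, ∃ v' x n' b,
    m v (g, n) = ⟨v', x, n'⟩ ∧ m v (a * g, n) = ⟨v', b * x, n'⟩ ∧ vx src' tgt' R' b ∈ S
  hb : ∀ e, ∃ S : Set (PathGp src' tgt' R'), S.Finite ∧ ∀ x, ∃ e' y n' b b',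
    m0 e x = ⟨e', b * y, n'⟩ ∧ m (src e) x = ⟨src' e', y, n'⟩ ∧
    m (tgt e) (A.T e x) = ⟨tgt' e', b' * (B.T e' (b * y, n')).1, (B.T e' (b * y, n')).2⟩ ∧
    vx src' tgt' R' b ∈ S ∧ vx src' tgt' R' b' ∈ S
  hd : ∀ e, ∀ p ∈ R e, ∀ g n, ∃ e' y n', ∃ p' ∈ R' e',
    m0 e (g, n) = ⟨e', y, n'⟩ ∧ m0 e (p.1 * g, n) = ⟨e', p'.1 * y, n'⟩
  norm : m u (1, 0) = ⟨u', 1, 0⟩

namespace Mor

variable {A : Sys src tgt G R} {B : Sys src' tgt' G' R'} {u : V} {u' : V'} (M : Mor A B u u')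

lemma ex : ∃ ρ : PathGp src tgt R →* Equiv.Perm (ℕ × PathGp src' tgt' R'),
      (∀ v (a g : G v) n q, ρ (vx src tgt R a) (A.c v (g, n), q) = (A.c v (a * g, n), q)) ∧
      ∀ e x q, ρ (ed src tgt R e) (A.c _ x, q) =
        (A.c _ (A.T e x), B.tau (M.m0 e x).1 (M.m0 e x).2 * q) :=
  A.exists_rho (fun e x => B.tau (M.m0 e x).1 (M.m0 e x).2) fun e p hp g n => by
    obtain ⟨e', y, n', p', hp', h, h'⟩ := M.hd e p hp g n
    rw [h, h']
    exact B.tau_inv e' hp' _ _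

/-- state reached by an element of the path group -/
noncomputable def st (g : PathGp src tgt R) : ℕ × PathGp src' tgt' R' :=
  M.ex.choose g (A.c u (1, 0), 1)

/-- the map between path groups -/
noncomputable def Φ (v : V) (g : PathGp src tgt R) : PathGp src' tgt' R' :=
  vx src' tgt' R' (M.m v ((A.c v).symm (M.st g).1)).2.1 * (M.st g).2

/-- end vertex of the image -/
noncomputable def ν (v : V) (g : PathGp src tgt R) : V' := (M.m v ((A.c v).symm (M.st g).1)).1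

lemma st_one : M.st 1 = (A.c u (1, 0), 1) := by simp [st]

lemma st_ex (v : V) (g : PathGp src tgt R) : ∃ x n q, M.st g = (A.c v (x, n), q) :=
  ⟨((A.c v).symm (M.st g).1).1, ((A.c v).symm (M.st g).1).2, (M.st g).2, by simp⟩

lemma Φ_eq {v : V} {g : PathGp src tgt R} {x q v' y n'} (h : M.st g = (A.c v x, q))
    (h' : M.m v x = ⟨v', y, n'⟩) : M.Φ v g = vx src' tgt' R' y * q ∧ M.ν v g = v' := by
  have : (A.c v).symm (M.st g).1 = x := by simp [h]
  rw [Φ, ν, this, h', h]; exact ⟨rfl, rfl⟩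

lemma st_vx {v : V} {g : PathGp src tgt R} {x n q} (h : M.st g = (A.c v (x, n), q)) (a : G v) :
    M.st (vx src tgt R a * g) = (A.c v (a * x, n), q) := by
  rw [st, map_mul, Equiv.Perm.mul_apply, ← M.ex.choose_spec.1, ← h, st]

lemma st_fwd {e : E} {g : PathGp src tgt R} {x q e' y} (h : M.st g = (A.c (src e) x, q))
    (h' : M.m0 e x = ⟨e', y⟩) :
    M.st (ed src tgt R e * g) = (A.c _ (A.T e x), B.tau e' y * q) := by
  have := M.ex.choose_spec.2 e x q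
  rw [h'] at this
  rw [st, map_mul, Equiv.Perm.mul_apply, ← this, ← h, st]

lemma st_bwd {e : E} {g : PathGp src tgt R} {x q e' y} (h : M.st g = (A.c (tgt e) (A.T e x), q))
    (h' : M.m0 e x = ⟨e', y⟩) :
    M.st ((ed src tgt R e)⁻¹ * g) = (A.c _ x, (B.tau e' y)⁻¹ * q) := by
  have := M.ex.choose_spec.2 e x ((B.tau e' y)⁻¹ * q)
  rw [h'] at this
  rw [st, map_mul, Equiv.Perm.mul_apply, map_inv, Equiv.Perm.inv_eq_iff_eq, this,
    mul_inv_cancel_left, ← h, st]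

lemma st_ex' (e : E) (g : PathGp src tgt R) : ∃ x q, M.st g = (A.c (tgt e) (A.T e x), q) :=
  ⟨(A.T e).symm ((A.c _).symm (M.st g).1), (M.st g).2, by simp⟩

lemma step_vx (v : V) (a : G v) : ∃ S : Set (PathGp src' tgt' R'), S.Finite ∧ ∀ g, ∃ v', ∃ b : G' v',
    M.ν v g = v' ∧ M.ν v (vx src tgt R a * g) = v' ∧
      M.Φ v (vx src tgt R a * g) = vx src' tgt' R' b * M.Φ v g ∧ vx src' tgt' R' b ∈ S := by
  obtain ⟨S, hS, h⟩ := M.ha v a
  refine ⟨S, hS, fun g => ?_⟩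
  obtain ⟨x, n, q, h0⟩ := M.st_ex v g
  obtain ⟨v', y, n', b, h1, h2, h3⟩ := h x n
  have a1 := M.Φ_eq h0 h1
  have a2 := M.Φ_eq (M.st_vx h0 a) h2
  exact ⟨v', b, a1.2, a2.2, by rw [a1.1, a2.1, vx_mul, mul_assoc], h3⟩

lemma step_fwd (e : E) : ∃ S : Set (PathGp src' tgt' R'), S.Finite ∧ ∀ g, ∃ e', ∃ b : G' (src' e'),
    ∃ b' : G' (tgt' e'), M.ν (src e) g = src' e' ∧ M.ν (tgt e) (ed src tgt R e * g) = tgt' e' ∧
      M.Φ (tgt e) (ed src tgt R e * g) =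
        vx src' tgt' R' b' * (ed src' tgt' R' e' * (vx src' tgt' R' b * M.Φ (src e) g)) ∧
      vx src' tgt' R' b ∈ S ∧ vx src' tgt' R' b' ∈ S := by
  obtain ⟨S, hS, h⟩ := M.hb e
  refine ⟨S, hS, fun g => ?_⟩
  obtain ⟨x, n, q, h0⟩ := M.st_ex (src e) g
  obtain ⟨e', y, n', b, b', h1, h2, h3, h4⟩ := h (x, n)
  have a1 := M.Φ_eq h0 h2
  have a2 := M.Φ_eq (M.st_fwd h0 h1) h3
  refine ⟨e', b, b', a1.2, a2.2, ?_, h4⟩
  rw [a1.1, a2.1, Sys.tau, vx_mul, vx_mul]; group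

lemma path {v : V} {g : PathGp src tgt R} (h : IsPath src tgt R u v g) :
    IsPath src' tgt' R' u' (M.ν v g) (M.Φ v g) := by
  induction h with
  | one =>
    have := M.Φ_eq M.st_one M.norm
    rw [this.1, this.2, vx_one, one_mul]; exact IsPath.one
  | @vx v g a _ ih =>
    obtain ⟨S, -, h⟩ := M.step_vx v a
    obtain ⟨v', b, h1, h2, h3, -⟩ := h g
    rw [h2, h3]; rw [h1] at ih; exact ih.vx _
  | @fwd g e _ ih =>
    obtain ⟨S, -, h⟩ := M.step_fwd e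
    obtain ⟨e', b, b', h1, h2, h3, -⟩ := h g
    rw [h2, h3]; rw [h1] at ih; exact ((ih.vx _).fwd e').vx _
  | @bwd g e _ ih =>
    obtain ⟨S, -, h⟩ := M.step_fwd e
    obtain ⟨e', b, b', h1, h2, h3, -⟩ := h ((ed src tgt R e)⁻¹ * g)
    rw [mul_inv_cancel_left] at h2 h3
    rw [h2, h3] at ih
    have := ((ih.vx b'⁻¹).bwd e').vx b⁻¹
    rw [h1]
    simpa only [vx_inv, inv_mul_cancel_left] using this

lemma lips [Finite E'] {a b : V} {s : PathGp src tgt R} (h : IsPath src tgt R a b s) :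
    (Set.range fun g => M.Φ b (s * g) * (M.Φ a g)⁻¹).Finite := by
  induction h with
  | one => simp
  | @vx v s x _ ih =>
    obtain ⟨S, hS, h⟩ := M.step_vx v x
    refine (hS.mul ih).subset ?_
    rintro _ ⟨g, rfl⟩
    obtain ⟨v', b, -, -, h3, h4⟩ := h (s * g)
    exact ⟨_, h4, _, ⟨g, rfl⟩, by simp only [mul_assoc, h3]⟩
  | @fwd s e _ ih =>
    obtain ⟨S, hS, h⟩ := M.step_fwd e
    refine (hS.mul ((Set.finite_range (ed src' tgt' R')).mul (hS.mul ih))).subset ?_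
    rintro _ ⟨g, rfl⟩
    obtain ⟨e', b, b', -, -, h3, h4, h5⟩ := h (s * g)
    exact ⟨_, h5, _, ⟨_, ⟨e', rfl⟩, _, ⟨_, h4, _, ⟨g, rfl⟩, rfl⟩, rfl⟩, by simp only [mul_assoc, h3]⟩
  | @bwd s e _ ih =>
    obtain ⟨S, hS, h⟩ := M.step_fwd e
    refine (hS.inv.mul ((Set.finite_range (ed src' tgt' R')).inv.mul (hS.inv.mul ih))).subset ?_
    rintro _ ⟨g, rfl⟩
    obtain ⟨e', b, b', -, -, h3, h4, h5⟩ := h ((ed src tgt R e)⁻¹ * (s * g))
    rw [mul_inv_cancel_left] at h3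
    refine ⟨(vx src' tgt' R' b)⁻¹, by simpa using h4, _, ⟨(ed src' tgt' R' e')⁻¹, by simp, _,
      ⟨(vx src' tgt' R' b')⁻¹, by simpa using h5, _, ⟨g, rfl⟩, rfl⟩, rfl⟩, ?_⟩
    simp only [mul_assoc, h3, inv_mul_cancel_left]

lemma back (M' : Mor B A u' u)
    (hp : ∀ e g n e' y, M.m0 e (g, n) = ⟨e', y⟩ → ∃ p ∈ R e, M'.m0 e' y = ⟨e, p.1 * g, n⟩)
    {v : V} {g : PathGp src tgt R} (h : IsPath src tgt R u v g) :
    ∀ x n q v' y, M.st g = (A.c v (x, n), q) → M.m v (x, n) = ⟨v', y⟩ →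
      M'.st (M.Φ v g) = (B.c v' y, (vx src tgt R x)⁻¹ * g) := by
  induction h with
  | one =>
    intro x n q v' y h h'
    rw [M.st_one] at h
    obtain ⟨rfl, rfl⟩ := Prod.mk.inj ((A.c u).injective (Prod.mk.inj h).1)
    rw [M.norm] at h'
    cases h'
    rw [(M.Φ_eq M.st_one M.norm).1, vx_one, vx_one, one_mul, M'.st_one]; simp
  | @vx v g a _ ih =>
    intro x n q v' y h h'
    obtain ⟨x', n', q', h0⟩ := M.st_ex v g
    rw [M.st_vx h0] at h
    obtain ⟨rfl, rfl⟩ := Prod.mk.inj ((A.c v).injective (Prod.mk.inj h).1)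
    obtain ⟨S, -, hS⟩ := M.ha v a
    obtain ⟨v'', z, n'', b, h1, h2, -⟩ := hS x' n'
    rw [h2] at h'
    cases h'
    have a1 := M'.st_vx (ih _ _ _ _ _ h0 h1) b
    rw [(M.Φ_eq h0 h1).1, ← mul_assoc, ← vx_mul] at a1
    rw [(M.Φ_eq (M.st_vx h0 a) h2).1, a1, vx_mul]
    congr 1
    group
  | @fwd g e _ ih =>
    intro x n q v' y h h'
    obtain ⟨x', n', q', h0⟩ := M.st_ex (src e) g
    obtain ⟨S, -, hS⟩ := M.hb e
    obtain ⟨e', z, n'', b, b', h1, h2, h3, -⟩ := hS (x', n')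
    rw [M.st_fwd h0 h1] at h
    have h4 := (A.c _).injective (Prod.mk.inj h).1
    rw [← h4, h3] at h'
    cases h'
    obtain ⟨p, hp1, hp2⟩ := hp e x' n' _ _ h1
    have a1 := M'.st_vx (x := (B.T e' (b * z, n'')).1) (n := (B.T e' (b * z, n'')).2)
      (M'.st_fwd (M'.st_vx (ih _ _ _ _ _ h0 h2) b) hp2) b'
    rw [(M.Φ_eq h0 h2).1, A.tau_inv e hp1, Sys.tau, h4] at a1
    rw [(M.Φ_eq (M.st_fwd h0 h1) h3).1, Sys.tau, vx_mul, vx_mul]
    convert a1 using 2 <;> group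
  | @bwd g e _ ih =>
    intro x n q v' y h h'
    obtain ⟨⟨x', n'⟩, q', h0⟩ := M.st_ex' e g
    obtain ⟨S, -, hS⟩ := M.hb e
    obtain ⟨e', z, n'', b, b', h1, h2, h3, -⟩ := hS (x', n')
    rw [M.st_bwd h0 h1] at h
    obtain ⟨rfl, rfl⟩ := Prod.mk.inj ((A.c _).injective (Prod.mk.inj h).1)
    rw [h2] at h'
    cases h'
    obtain ⟨p, hp1, hp2⟩ := hp e x' n' _ _ h1
    have a0 := M'.st_vx (ih (A.T e (x', n')).1 (A.T e (x', n')).2 _ _ _ h0 h3) b'⁻¹
    rw [inv_mul_cancel_left] at a0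
    have a1 := M'.st_vx (M'.st_bwd (x := (b * z, n'')) a0 hp2) b⁻¹
    rw [(M.Φ_eq h0 h3).1, A.tau_inv e hp1, Sys.tau, inv_mul_cancel_left] at a1
    rw [(M.Φ_eq (M.st_bwd h0 h1) h2).1, Sys.tau, vx_mul]
    rw [vx_inv, vx_inv, vx_mul] at a1
    convert a1 using 2 <;> group

end Mor

open Classical in
/-- a chosen path back to the base vertex -/
noncomputable def ret (src tgt : E → V) (R : ∀ e, Set (G (src e) × G (tgt e))) (u v : V) :
    PathGp src tgt R :=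
  if h : ∃ g, IsPath src tgt R u v g then h.choose⁻¹ else 1

lemma ret_path {u v : V} {g : PathGp src tgt R} (h : IsPath src tgt R u v g) :
    IsPath src tgt R v u (ret src tgt R u v) := by
  have h' : ∃ g, IsPath src tgt R u v g := ⟨g, h⟩
  rw [ret, dif_pos h']; exact h'.choose_spec.symm

namespace Mor

variable {A : Sys src tgt G R} {B : Sys src' tgt' G' R'} {u : V} {u' : V'} (M : Mor A B u u')

/-- the induced map of fundamental groups -/
noncomputable def map (g : pi1 src tgt R u) : pi1 src' tgt' R' u' :=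
  ⟨ret src' tgt' R' u' (M.ν u g) * M.Φ u g,
    mem_pi1.2 ((M.path (mem_pi1.1 g.2)).trans (ret_path (M.path (mem_pi1.1 g.2))))⟩

lemma map_lips [Finite V'] [Finite E'] : Bd M.map := by
  intro s
  refine (((Set.finite_range (ret src' tgt' R' u')).mul ((M.lips (mem_pi1.1 s.2)).mul
    (Set.finite_range (ret src' tgt' R' u')).inv)).preimage Subtype.val_injective.injOn).subset ?_
  rintro _ ⟨x, rfl⟩
  refine ⟨_, ⟨M.ν u (s * x : pi1 src tgt R u), rfl⟩, _, ⟨_, ⟨x.1, rfl⟩,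
    (ret src' tgt' R' u' (M.ν u x))⁻¹, by simp, rfl⟩, ?_⟩
  simp [map, mul_assoc]

lemma map_close [Finite V] [Finite E] [Finite V'] (M' : Mor B A u' u)
    (hp : ∀ e g n e' y, M.m0 e (g, n) = ⟨e', y⟩ → ∃ p ∈ R e, M'.m0 e' y = ⟨e, p.1 * g, n⟩)
    (hf : ∃ S : Set (PathGp src tgt R), S.Finite ∧ ∀ g n v' y, M.m u (g, n) = ⟨v', y⟩ →
      ∃ b, M'.m v' y = ⟨u, b * g, n⟩ ∧ vx src tgt R b ∈ S) :
    (Set.range fun x => M'.map (M.map x) * x⁻¹).Finite := by
  obtain ⟨S, hS, hf⟩ := hf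
  have h1 : (⋃ v' ∈ {v' | IsPath src' tgt' R' v' u' (ret src' tgt' R' u' v')}, Set.range fun g =>
      M'.Φ u' (ret src' tgt' R' u' v' * g) * (M'.Φ v' g)⁻¹).Finite :=
    (Set.toFinite _).biUnion fun v' hv' => M'.lips hv'
  refine (((Set.finite_range (ret src tgt R u)).mul (h1.mul hS)).preimage
    Subtype.val_injective.injOn).subset ?_
  rintro _ ⟨g, rfl⟩
  have hg := mem_pi1.1 g.2
  obtain ⟨x, n, q, h⟩ := M.st_ex u g
  obtain ⟨b, h2, h3⟩ := hf x n _ _ rfl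
  have h4 := (M'.Φ_eq (M.back M' hp hg x n q _ _ h rfl) h2).1
  have h5 := (M.Φ_eq h (v' := (M.m u (x, n)).1) (y := (M.m u (x, n)).2.1)
    (n' := (M.m u (x, n)).2.2) rfl).2
  rw [← h5] at h4
  refine ⟨_, ⟨M'.ν u' (M.map g), rfl⟩, _, ⟨_, Set.mem_biUnion (x := M.ν u g)
    (ret_path (M.path hg)) ⟨M.Φ u g, rfl⟩, _, h3, rfl⟩, ?_⟩
  simp only [h4, vx_mul, map, Subgroup.coe_mul, Subgroup.coe_inv]
  group

theorem ce [Finite V] [Finite E] [Finite V'] [Finite E'] (M' : Mor B A u' u)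
    (hp : ∀ e g n e' y, M.m0 e (g, n) = ⟨e', y⟩ → ∃ p ∈ R e, M'.m0 e' y = ⟨e, p.1 * g, n⟩)
    (hp' : ∀ e g n e' y, M'.m0 e (g, n) = ⟨e', y⟩ → ∃ p ∈ R' e, M.m0 e' y = ⟨e, p.1 * g, n⟩)
    (hf : ∃ S : Set (PathGp src tgt R), S.Finite ∧ ∀ g n v' y, M.m u (g, n) = ⟨v', y⟩ →
      ∃ b, M'.m v' y = ⟨u, b * g, n⟩ ∧ vx src tgt R b ∈ S)
    (hf' : ∃ S : Set (PathGp src' tgt' R'), S.Finite ∧ ∀ g n v' y, M'.m u' (g, n) = ⟨v', y⟩ →
      ∃ b, M.m v' y = ⟨u', b * g, n⟩ ∧ vx src' tgt' R' b ∈ S) :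
    CE (pi1 src tgt R u) (pi1 src' tgt' R' u') :=
  ⟨M.map, M'.map, M.map_lips, M'.map_lips, M.map_close M' hp hf, M'.map_close M hp' hf'⟩

end Mor

end Pool.Agent.Lib.MP_661727_gt
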